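import Pool.Agent.H533R2.VS.Spec
import Pool.Agent.H899R2.VP.Dst
import Pool.Agent.H533R2.VO.FIN

set_option autoImplicit false

/-! # Countably many types of blocks -/

namespace Pool.Agent.H533R2.VS

open Set
open Pool.Agent.H899R2.VP
open Pool.Agent.H533R2.VO (Glu RIso VC Dich put)

theorem t_BKC (h1 : S_BKV) : S_BKC := by
  classical
  intro a k α K V2 hK hV hB
  obtain ⟨c, hc⟩ := labels hK.meas hK.few α hK.lt
  -- equivalence of blocks with the same label
  have key : ∀ M ∈ K, ∀ N ∈ K, ∀ x y : ℕ, c M [x] = c N [y] →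
      BF M N (Bk M x) (Bk N y) α ∅ := by
    intro M hM N hN x y hxy
    have h4 := hc M hM N hN [x] [y] rfl hxy
    have hmem : (x, y) ∈ zipSet [x] [y] := by
      show (x, y) ∈ [x].zip [y]
      simp
    refine (VO.resBF (subset_univ _) (subset_univ _) ?_ h4).subset (empty_subset _)
    intro u _ v _ hp
    exact hp.adj (mem_insert_of_mem _ hmem) (mem_insert _ _)
  -- infinite blocks
  have hinf : ∀ κ : ℕ, ∃ f : ℕ → St a × Set ℕ, ∀ N ∈ K, ∀ y, (Bk N y).Infinite →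
      c N [y] = κ → ∃ n, IsoOn (f n).1 N (f n).2 (Bk N y) ∅ := by
    intro κ
    by_cases hP : ∃ M ∈ K, ∃ x, (Bk M x).Infinite ∧ c M [x] = κ
    · obtain ⟨M, hM, x, hx, hκ⟩ := hP
      obtain ⟨f, hf⟩ := h1 a k α K V2 hK hV hB M hM x hx
      exact ⟨f, fun N hN y _ hy => hf N (Bk N y) (key M hM N hN x y (by rw [hκ, hy]))⟩
    · refine ⟨fun _ => (Classical.choice ⟨((fun _ _ => false), fun _ _ => false)⟩, ∅),
        fun N hN y hy hκ => ?_⟩
      exact absurd ⟨N, hN, y, hy, hκ⟩ hP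
  -- finite blocks
  have hfin : ∀ κ : ℕ, ∃ b : St a × Set ℕ, ∀ N ∈ K, ∀ y, (Bk N y).Finite →
      c N [y] = κ → IsoOn b.1 N b.2 (Bk N y) ∅ := by
    intro κ
    by_cases hP : ∃ M ∈ K, ∃ x, (Bk M x).Finite ∧ c M [x] = κ
    · obtain ⟨M, hM, x, hx, hκ⟩ := hP
      refine ⟨(M, Bk M x), fun N hN y _ hy => ?_⟩
      exact VO.t_FIN a M N _ _ hx ((key M hM N hN x y (by rw [hκ, hy])).mono hK.om)
    · refine ⟨(Classical.choice ⟨((fun _ _ => false), fun _ _ => false)⟩, ∅),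
        fun N hN y hy hκ => ?_⟩
      exact absurd ⟨N, hN, y, hy, hκ⟩ hP
  choose f hf using hinf
  choose b hb using hfin
  refine ⟨fun n => if n.unpair.2 = 0 then b n.unpair.1 else f n.unpair.1 (n.unpair.2 - 1), ?_⟩
  intro N hN y
  rcases (Bk N y).finite_or_infinite with h6 | h6
  · refine ⟨Nat.pair (c N [y]) 0, ?_⟩
    simp only [Nat.unpair_pair, if_true]
    exact hb _ N hN y h6 rfl
  · obtain ⟨n, hn⟩ := hf _ N hN y h6 rfl
    refine ⟨Nat.pair (c N [y]) (n + 1), ?_⟩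
    simp only [Nat.unpair_pair, Nat.add_eq_zero_iff, one_ne_zero, and_false, if_false,
      Nat.add_sub_cancel]
    exact hn

end Pool.Agent.H533R2.VS
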