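import Pool.Agent.H533R2.VS.Spec
import Pool.Agent.H533R2.VO.GLC
import Pool.Agent.H533R2.VO.MEAS1
import Pool.Agent.H899R2.VP.Few

set_option autoImplicit false

/-! Task BKV: types of variations of an infinite block. -/

namespace Pool.Agent.H533R2.VS

open Set
open Pool.Agent.H899R2.VP (St Adj PIso BF IsoOn idOn inv comp zipSet few_base)
open Pool.Agent.H533R2.VO (Glu RS RIso VC Dich put t_GLC t_MEAS1 bf_comp0 bf_symm0 iso_symm0
  iso_trans0 resIso)

variable {a : ℕ → ℕ}

private theorem bkv_iso_of_riso (k q : ℕ → Bool) {R R' : RS a} (h : RIso R R') :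
    IsoOn (liftk k q R) (liftk k q R') univ univ ∅ := by
  obtain ⟨σ, hσ⟩ := h
  refine ⟨{w | w.2 = σ w.1}, empty_subset _, fun _ _ => ⟨trivial, trivial⟩, ⟨?_, ?_, ?_⟩, ?_, ?_⟩
  · rintro ⟨u, u'⟩ hu ⟨v, v'⟩ hv
    simp only [Set.mem_ofPred_eq] at hu hv
    simp only
    rw [hu, hv]
    exact σ.injective.eq_iff.symm
  · intro u _ v _
    rfl
  · intro i t ht
    have h1 : (fun k => (t k).2) = ⇑σ ∘ fun k => (t k).1 := funext fun k => ht k
    show (if k i = true then q i else R i (fun k => (t k).1)) =
      (if k i = true then q i else R' i (fun k => (t k).2))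
    rw [h1, hσ]
  · intro x _
    exact ⟨σ x, rfl⟩
  · intro y _
    exact ⟨σ.symm y, by simp⟩

private theorem bkv_riso_of_iso (k q : ℕ → Bool) {R R' : RS a}
    (hR : rst k false R = R) (hR' : rst k false R' = R')
    (h : IsoOn (liftk k q R) (liftk k q R') univ univ ∅) : RIso R R' := by
  obtain ⟨p, -, -, h3, h4, h5⟩ := h
  choose f hf using fun x => h4 x trivial
  have hinj : Function.Injective f := fun x y hxy => h3.fst_eq (hf x) (hf y) hxy
  have hsurj : Function.Surjective f := by
    intro y
    obtain ⟨x, hx⟩ := h5 y trivial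
    exact ⟨x, h3.snd_eq (hf x) hx rfl⟩
  refine ⟨Equiv.ofBijective f ⟨hinj, hsurj⟩, ?_⟩
  intro i v
  rcases hk : k i with _ | _
  · have h6 := h3.2.2 i (fun k => (v k, f (v k))) (fun k => hf (v k))
    have h7 : (if k i = true then q i else R i v) =
      (if k i = true then q i else R' i (fun j => f (v j))) := h6
    rw [hk] at h7
    simp only [Bool.false_eq_true, if_false] at h7
    exact h7.symm
  · rw [← hR, ← hR']
    simp only [rst, hk, Bool.true_eq_false, if_false]

private theorem bkv_enum {C : Set ℕ} (hC : C.Infinite) :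
    ∃ e : ℕ → ℕ, Function.Injective e ∧ ∀ z, z ∈ C ↔ ∃ n, e n = z := by
  classical
  haveI : Infinite C := hC.to_subtype
  refine ⟨fun n => (Nat.Subtype.orderIsoOfNat C n : ℕ), ?_, ?_⟩
  · intro m n h
    exact (Nat.Subtype.orderIsoOfNat C).injective (Subtype.ext h)
  · intro z
    constructor
    · intro hz
      refine ⟨(Nat.Subtype.orderIsoOfNat C).symm ⟨z, hz⟩, ?_⟩
      simp
    · rintro ⟨n, rfl⟩
      exact (Nat.Subtype.orderIsoOfNat C n).2

private theorem bkv_infinite {M N : St a} {C Y : Set ℕ} (hC : C.Infinite) {α : Ordinal.{0}}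
    (hα : Ordinal.omega0 ≤ α) (h : BF M N C Y α ∅) : Y.Infinite := by
  classical
  intro hY
  obtain ⟨s, hsC, hs⟩ := hC.exists_subset_card_eq (hY.toFinset.card + 1)
  have hlt : (0 : Ordinal.{0}) + ((hY.toFinset.card + 1 : ℕ) : Ordinal.{0}) ≤ α := by
    rw [zero_add]
    exact (Ordinal.natCast_lt_omega0 _).le.trans hα
  obtain ⟨t, ht1, ht2, ht3⟩ := (h.mono hlt).forth_list s.toList (by simp [hs])
    (fun x hx => hsC (by simpa using hx))
  have hp := ht3.piso
  have hnd : t.Nodup := by
    rw [List.nodup_iff_injective_get]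
    intro i j hij
    have hi : i.1 < s.toList.length := by rw [← ht1]; exact i.2
    have hj : j.1 < s.toList.length := by rw [← ht1]; exact j.2
    have hmi : (s.toList[i.1], t[i.1]) ∈ zipSet s.toList t := by
      show _ ∈ s.toList.zip t
      rw [List.mem_iff_getElem]
      exact ⟨i.1, by simp [hi, i.2] at *; omega, by simp⟩
    have hmj : (s.toList[j.1], t[j.1]) ∈ zipSet s.toList t := by
      show _ ∈ s.toList.zip t
      rw [List.mem_iff_getElem]
      exact ⟨j.1, by simp [hj, j.2] at *; omega, by simp⟩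
    have h1 : s.toList[i.1] = s.toList[j.1] := hp.fst_eq (Or.inr hmi) (Or.inr hmj) hij
    exact Fin.ext ((s.nodup_toList.getElem_inj_iff).1 h1)
  have h2 : t.toFinset ⊆ hY.toFinset := by
    intro y hy
    simp only [List.mem_toFinset] at hy
    simpa using ht2 y hy
  have h3 := Finset.card_le_card h2
  rw [List.toFinset_card_of_nodup hnd, ht1, Finset.length_toList, hs] at h3
  omega

/-- back moves for the entries of a tuple -/
private theorem bkv_back {M N : St a} {C Y : Set ℕ} {α : Ordinal.{0}} {n : ℕ}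
    (hα : Ordinal.omega0 ≤ α) (h : BF M N C Y α ∅) (t : Fin n → ℕ) (ht : ∀ j, t j ∈ Y) :
    ∃ s : Fin n → ℕ, (∀ j, s j ∈ C) ∧ ∃ p : Set (ℕ × ℕ), (∀ j, (s j, t j) ∈ p) ∧ PIso M N p := by
  have hlt : (0 : Ordinal.{0}) + ((n : ℕ) : Ordinal.{0}) ≤ α := by
    rw [zero_add]
    exact (Ordinal.natCast_lt_omega0 _).le.trans hα
  obtain ⟨s, hs1, hs2, hs3⟩ := (bf_symm0 (h.mono hlt)).forth_list (List.ofFn t) (by simp)
    (fun x hx => by
      obtain ⟨j, rfl⟩ := (List.mem_ofFn' t x).1 hx
      exact ht j)
  rw [List.length_ofFn] at hs1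
  refine ⟨fun j => s.get (Fin.cast hs1.symm j), fun j => hs2 _ (List.get_mem _ _),
    inv (∅ ∪ zipSet (List.ofFn t) s), fun j => ?_, hs3.piso.symm⟩
  right
  exact Pool.Agent.H899R2.VP.get_mem_zipSet t s hs1 j

private theorem bkv_meas (k : ℕ → Bool) : MeasurableSet {R : RS a | rst k false R = R} := by
  have h1 : {R : RS a | rst k false R = R} =
      ⋂ i, ⋂ v : Fin (a i) → ℕ, {R : RS a | k i = true → R i v = false} := by
    ext R
    simp only [Set.mem_iInter, Set.mem_ofPred_eq]
    constructor
    · intro h i v hk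
      have := congrFun (congrFun h i) v
      simp only [rst, hk, Bool.true_eq_false, if_false] at this
      exact this.symm
    · intro h
      funext i v
      rcases hk : k i with _ | _
      · simp only [rst, hk, if_true]
      · simp only [rst, hk, Bool.true_eq_false, if_false]
        exact (h i v hk).symm
  rw [h1]
  refine MeasurableSet.iInter fun i => MeasurableSet.iInter fun v => ?_
  rcases hk : k i with _ | _
  · have : {R : RS a | false = true → R i v = false} = univ := by
      ext R
      simp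
    rw [this]
    exact MeasurableSet.univ
  · have : {R : RS a | true = true → R i v = false} = (fun R : RS a => R i v) ⁻¹' {false} := by
      ext R
      simp
    rw [this]
    exact ((measurable_pi_apply v).comp (measurable_pi_apply i)) (measurableSet_singleton _)

private theorem bkv_lift_meas (k q : ℕ → Bool) : Measurable (liftk k q : RS a → St a) := by
  refine measurable_const.prodMk ?_
  refine measurable_pi_lambda _ fun i => measurable_pi_lambda _ fun t => ?_
  rcases hk : k i with _ | _
  · simp only [hk, Bool.false_eq_true, if_false]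
    exact (measurable_pi_apply t).comp (measurable_pi_apply i)
  · simp only [hk, if_true]
    exact measurable_const

private theorem bkv_res {M N : St a} {x : ℕ}
    (h : IsoOn M N univ univ (idOn {x})) : IsoOn M N (Bk M x) (Bk N x) ∅ := by
  have h1 := resIso (X' := Bk M x) (Y' := Bk N x) (subset_univ _) (subset_univ _)
    (fun u _ v _ hp => by
      have h2 := hp.2.1 (x, x) (mem_insert_of_mem _ ⟨rfl, rfl⟩) (u, v) (mem_insert _ _)
      show M.1 x u = true ↔ N.1 x v = true
      simp only at h2
      rw [h2]) h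
  exact h1.mono (empty_subset _)

theorem t_BKV (h1 : S_RPL) (h2 : S_PUTK) (h3 : S_RPF) : S_BKV := by
  classical
  intro a k α K V hG hV hKV M hM x hinf
  have hER := hG.er M hM
  obtain ⟨e, he, hemem⟩ := bkv_enum hinf
  have hrange : range e = Bk M x := by
    ext z
    rw [hemem z]
    rfl
  obtain ⟨q, hq⟩ : ∃ q : ℕ → Bool, q = fun i => M.2 i (fun _ => x) := ⟨_, rfl⟩
  obtain ⟨p1, p2, p3⟩ := h2 a k q e he
  rw [hrange] at p1
  set B : Set (RS a) := {R : RS a | rst k false R = R ∧ BF M (liftk k q R) (Bk M x) univ α ∅}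
    with hB
  have hBmeas : MeasurableSet B := by
    have hm := t_MEAS1 a M (Bk M x) (fun _ => univ) (fun z => by simp) α hG.lt ∅
    exact (bkv_meas k).inter (bkv_lift_meas k q hm)
  have hBinv1 : ∀ R R' : RS a, RIso R R' → R ∈ B → R' ∈ B := by
    intro R R' hRR hR
    refine ⟨?_, bf_comp0 hR.2 ((bkv_iso_of_riso k q hRR).bf α)⟩
    obtain ⟨σ, hσ⟩ := hRR
    funext i v
    rcases hk : k i with _ | _
    · simp only [rst, hk, if_true]
    · simp only [rst, hk, Bool.true_eq_false, if_false]
      have h4 := hσ i (σ.symm ∘ v)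
      have h5 : ⇑σ ∘ (⇑σ.symm ∘ v) = v := by
        funext j
        simp
      rw [h5] at h4
      rw [h4, ← hR.1]
      simp only [rst, hk, Bool.true_eq_false, if_false]
  have hBinv : ∀ R R' : RS a, RIso R R' → (R ∈ B ↔ R' ∈ B) := by
    intro R R' hRR
    refine ⟨hBinv1 R R' hRR, hBinv1 R' R ?_⟩
    obtain ⟨σ, hσ⟩ := hRR
    refine ⟨σ.symm, fun i v => ?_⟩
    have h4 := hσ i (σ.symm ∘ v)
    have h5 : ⇑σ ∘ (⇑σ.symm ∘ v) = v := by
      funext j
      simp
    rw [h5] at h4
    exact h4.symm
  have hD : ∀ R ∈ B, Glu M (fun _ : Unit => Bk M x) (fun _ => putk k q e R) ∈ K := by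
    intro R hR
    refine hG.closed M hM _ (h1 a k α M _ x hG.pos hG.om hER ?_)
    exact bf_comp0 hR.2 (((p1 R).mono (empty_subset _)).bf α)
  have hBV : ∀ R ∈ B, V R := by
    intro R hR
    obtain ⟨r1, -, r3⟩ := h3 a k M (putk k q e R) x hG.pos hER (fun _ _ => rfl)
    have := hKV _ (hD R hR) x e he (by rw [r1]; exact hemem)
    have heq : (rst k false fun (i : ℕ) (v : Fin (a i) → ℕ) =>
        (Glu M (fun _ : Unit => Bk M x) (fun _ => putk k q e R)).2 i (e ∘ v)) = R := by
      funext i v
      rcases hk : k i with _ | _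
      · simp only [rst, hk, if_true]
        rw [r3 i (e ∘ v) (fun j => (hemem _).2 ⟨v j, rfl⟩), p2 R i v hk]
      · conv_rhs => rw [← hR.1]
        simp only [rst, hk, Bool.true_eq_false, if_false]
    rw [heq] at this
    exact this
  rcases hV B hBmeas hBinv hBV with ⟨f, hf⟩ | ⟨g, hgc, hg, hgd⟩
  · refine ⟨fun n => (liftk k q (f n), univ), ?_⟩
    intro N Y hbf
    have hYinf := bkv_infinite hinf hG.om hbf
    obtain ⟨e', he', hemem'⟩ := bkv_enum hYinf
    have hN1 : ∀ u ∈ Y, ∀ v ∈ Y, N.1 u v = true := by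
      intro u hu v hv
      obtain ⟨s, hs, p, hp1, hp2⟩ := bkv_back (n := 2) hG.om hbf ![u, v] (by
        intro j
        fin_cases j
        · exact hu
        · exact hv)
      have h4 := hp2.2.1 _ (hp1 0) _ (hp1 1)
      simp only [Matrix.cons_val_zero, Matrix.cons_val_one] at h4
      rw [← h4]
      exact hER.trans _ x _ (hER.symm _ _ (hs 0)) (hs 1)
    have hN2 : ∀ i (t : Fin (a i) → ℕ), k i = true → (∀ j, t j ∈ Y) → N.2 i t = q i := by
      intro i t hk ht
      obtain ⟨s, hs, p, hp1, hp2⟩ := bkv_back hG.om hbf t ht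
      have h4 := hp2.2.2 i (fun j => (s j, t j)) hp1
      simp only at h4
      rw [← h4, hq]
      exact (hER.across i hk (fun _ => x) s (fun j => hs j)).symm
    obtain ⟨R, hR⟩ : ∃ R : RS a, R = fun i v => if k i = true then false else N.2 i (e' ∘ v) :=
      ⟨_, rfl⟩
    have hiso : IsoOn (liftk k q R) N univ Y ∅ := by
      refine ⟨{w | w.2 = e' w.1}, empty_subset _, ?_, ⟨?_, ?_, ?_⟩, ?_, ?_⟩
      · rintro ⟨u, v⟩ huv
        exact ⟨trivial, (hemem' v).2 ⟨u, huv.symm⟩⟩
      · rintro ⟨u, u'⟩ hu ⟨v, v'⟩ hv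
        simp only [Set.mem_ofPred_eq] at hu hv
        simp only
        rw [hu, hv]
        exact he'.eq_iff.symm
      · rintro ⟨u, u'⟩ hu ⟨v, v'⟩ hv
        simp only [Set.mem_ofPred_eq] at hu hv
        have := hN1 u' ((hemem' u').2 ⟨u, hu.symm⟩) v' ((hemem' v').2 ⟨v, hv.symm⟩)
        rw [this]
        rfl
      · intro i t ht
        have h4 : (fun k => (t k).2) = e' ∘ fun k => (t k).1 := funext fun k => ht k
        show (if k i = true then q i else R i (fun k => (t k).1)) = N.2 i (fun k => (t k).2)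
        rcases hk : k i with _ | _
        · simp only [Bool.false_eq_true, if_false]
          rw [hR, h4]
          simp only [hk, Bool.false_eq_true, if_false]
        · simp only [if_true]
          exact (hN2 i _ hk fun j => (hemem' _).2 ⟨(t j).1, (ht j).symm⟩).symm
      · intro u _
        exact ⟨e' u, rfl⟩
      · intro v hv
        obtain ⟨u, hu⟩ := (hemem' v).1 hv
        exact ⟨u, hu.symm⟩
    have hRB : R ∈ B := by
      refine ⟨?_, bf_comp0 hbf ((iso_symm0 hiso).bf α)⟩
      funext i v
      rcases hk : k i with _ | _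
      · simp only [rst, hk, if_true]
      · simp only [rst, hk, hR, Bool.true_eq_false, if_false, if_true]
    obtain ⟨n, hn⟩ := hf R hRB
    exact ⟨n, iso_trans0 (bkv_iso_of_riso k q hn) hiso⟩
  · exfalso
    have hcont : Continuous fun c : ℕ → Bool =>
        Glu M (fun _ : Unit => Bk M x) (fun _ => putk k q e (g c)) := by
      refine t_GLC a Unit M (fun _ => Bk M x) (fun _ c => putk k q e (g c)) ?_ ?_
      · intro i j hij
        exact absurd (Subsingleton.elim i j) hij
      · intro _
        exact p3.comp hgc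
    refine few_base hG.meas hG.few (F := {x}) (finite_singleton x)
      (fun c => Glu M (fun _ : Unit => Bk M x) (fun _ => putk k q e (g c))) hcont ?_ ?_
    · intro c
      exact hD (g c) (hg c)
    · intro c d hcd
      obtain ⟨c1, c2, -⟩ := h3 a k M (putk k q e (g c)) x hG.pos hER (fun _ _ => rfl)
      obtain ⟨d1, d2, -⟩ := h3 a k M (putk k q e (g d)) x hG.pos hER (fun _ _ => rfl)
      have hr := bkv_res hcd
      rw [c1, d1] at hr
      have i1 : IsoOn (liftk k q (g c)) (putk k q e (g c)) univ (Bk M x) ∅ :=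
        (p1 (g c)).mono (empty_subset _)
      have i2 : IsoOn (liftk k q (g d)) (putk k q e (g d)) univ (Bk M x) ∅ :=
        (p1 (g d)).mono (empty_subset _)
      have i3 := iso_trans0 i1 (c2.mono (empty_subset _))
      have i4 := iso_trans0 i2 (d2.mono (empty_subset _))
      exact hgd c d (bkv_riso_of_iso k q (hg c).1 (hg d).1
        (iso_trans0 (iso_trans0 i3 hr) (iso_symm0 i4)))

end Pool.Agent.H533R2.VS
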