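import Pool.Agent.H533R2.VS.Spec

set_option autoImplicit false

namespace Pool.Agent.H533R2.VS

open Set
open Pool.Agent.H899R2.VP
open Pool.Agent.H533R2.VO (Glu RIso VC Dich put)

theorem t_BLB (h : S_BLP) : S_BLB := by
  intro a k f c y ha hf1 hf2 u
  obtain ⟨h1, h2, h3, -, -⟩ := h a c y
  set n := ty y (bk c y u) with hn
  have hbk : ∀ {z x : ℕ}, en c y z = Nat.pair (bk c y u) x → bk c y z = bk c y u := by
    intro z x hz
    unfold bk at hz ⊢
    rw [hz, Nat.unpair_pair]
  have hlc : ∀ {z x : ℕ}, en c y z = Nat.pair (bk c y u) x → lc c y z = x := by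
    intro z x hz
    unfold lc
    rw [hz, Nat.unpair_pair]
  refine ⟨{w | w.1 ∈ Car c n ∧ en c y w.2 = Nat.pair (bk c y u) w.1}, empty_subset _, ?_,
    ⟨?_, ?_, ?_⟩, ?_, ?_⟩
  · rintro ⟨x, z⟩ ⟨hx, hz⟩
    refine ⟨hx, ?_⟩
    change decide (bk c y u = bk c y z) = true
    rw [decide_eq_true_eq]
    exact (hbk hz).symm
  · rintro ⟨x, z⟩ ⟨hx, hz⟩ ⟨x', z'⟩ ⟨hx', hz'⟩
    dsimp only at *
    constructor
    · rintro rfl
      exact h2 (hz.trans hz'.symm)
    · rintro rfl
      have h4 := hz.symm.trans hz'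
      exact (Nat.pair_eq_pair.mp h4).2
  · rintro ⟨x, z⟩ ⟨hx, hz⟩ ⟨x', z'⟩ ⟨hx', hz'⟩
    change (f n).1 x x' = decide (bk c y z = bk c y z')
    rw [hf1, eq_comm, decide_eq_true_eq]
    exact (hbk hz).trans (hbk hz').symm
  · intro i t ht
    change (f n).2 i (fun j => (t j).1) = if k i = false then
      (Bl k f c y).2 i (fun j => (t j).2) else false
    by_cases hk : k i = true
    · rw [hf2 n i _ hk, if_neg (by rw [hk]; exact Bool.noConfusion)]
    · have hk' : k i = false := by simpa using hk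
      rw [if_pos hk']
      change _ = if k i = true then _ else decide _
      rw [if_neg hk]
      have e1 : ∀ j, bk c y (t j).2 = bk c y u := fun j => hbk (ht j).2
      have e2 : ∀ j, lc c y (t j).2 = (t j).1 := fun j => hlc (ht j).2
      simp only [e1, e2]
      rw [Bool.eq_iff_iff, decide_eq_true_eq]
      constructor
      · intro h5
        exact ⟨fun _ _ => trivial, ⟨0, ha i⟩, h5⟩
      · rintro ⟨-, j, h5⟩
        exact h5
  · intro x hx
    obtain ⟨m, hm⟩ := h3 (Nat.pair (bk c y u) x) (by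
      change (Nat.pair (bk c y u) x).unpair.2 ∈ Car c (ty y (Nat.pair (bk c y u) x).unpair.1)
      rw [Nat.unpair_pair]
      exact hx)
    exact ⟨m, hx, hm⟩
  · intro z hz
    have hz' : bk c y u = bk c y z := by
      change decide (bk c y u = bk c y z) = true at hz
      rwa [decide_eq_true_eq] at hz
    refine ⟨lc c y z, ?_, ?_⟩
    · have h4 := h1 z
      change (en c y z).unpair.2 ∈ Car c (ty y (en c y z).unpair.1) at h4
      change (en c y z).unpair.2 ∈ Car c (ty y (bk c y u))
      rw [hz']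
      exact h4
    · change en c y z = Nat.pair (bk c y u) (lc c y z)
      rw [hz']
      exact (Nat.pair_unpair _).symm

end Pool.Agent.H533R2.VS
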