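import Pool.Agent.H533R2.VS.Spec

set_option autoImplicit false

/-!
BLC: the sum depends continuously on the index structure. (helper965)
-/

namespace Pool.Agent.H533R2.VS

open Set Filter Topology
open Pool.Agent.H899R2.VP (St)
open Pool.Agent.H533R2.VO (RS)

/-- eventually constant near every point -/
private def blc_lc {D β : Type} [TopologicalSpace D] (φ : D → β) : Prop :=
  ∀ d0, ∀ᶠ d in 𝓝 d0, φ d = φ d0

private lemma blc_of_cont {D β : Type} [TopologicalSpace D] [TopologicalSpace β]
    [DiscreteTopology β] {φ : D → β} (h : Continuous φ) : blc_lc φ := by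
  intro d0
  have h1 : Tendsto φ (𝓝 d0) (𝓝 (φ d0)) := h.tendsto d0
  rw [nhds_discrete β, tendsto_pure] at h1
  exact h1

private lemma blc_to_cont {D β : Type} [TopologicalSpace D] [TopologicalSpace β]
    [DiscreteTopology β] {φ : D → β} (h : blc_lc φ) : Continuous φ := by
  rw [continuous_iff_continuousAt]
  intro d0
  show Tendsto φ (𝓝 d0) (𝓝 (φ d0))
  rw [nhds_discrete β, tendsto_pure]
  exact h d0

private lemma blc_ty {a : ℕ → ℕ} {g : (ℕ → Bool) → US a}
    (hg2 : ∀ n j, blc_lc fun d => (g d).2 n j) (hex : ∀ d j, ∃ n, (g d).2 n j = true) (j : ℕ) :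
    blc_lc fun d => ty (g d) j := by
  classical
  intro d0
  have h0 : ty (g d0) j = Nat.find (hex d0 j) := by
    unfold ty
    rw [dif_pos (hex d0 j)]
  have h1 : ∀ᶠ d in 𝓝 d0, ∀ m ∈ Finset.range (Nat.find (hex d0 j) + 1),
      (g d).2 m j = (g d0).2 m j := by
    rw [Filter.eventually_all_finset]
    intro m _
    exact hg2 m j d0
  filter_upwards [h1] with d hd
  have hd' : ∀ m ≤ Nat.find (hex d0 j), (g d).2 m j = (g d0).2 m j := fun m hm =>
    hd m (Finset.mem_range.2 (Nat.lt_succ_of_le hm))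
  have h2 : ty (g d) j = Nat.find (hex d j) := by
    unfold ty
    rw [dif_pos (hex d j)]
  rw [h2, h0, Nat.find_eq_iff]
  refine ⟨?_, ?_⟩
  · rw [hd' _ le_rfl]
    exact Nat.find_spec (hex d0 j)
  · intro m hm
    rw [hd' m hm.le]
    exact Nat.find_min (hex d0 j) hm

private lemma blc_count {P Q : ℕ → Prop} [DecidablePred P] [DecidablePred Q] (n : ℕ)
    (h : ∀ k < n, (P k ↔ Q k)) : Nat.count P n = Nat.count Q n := by
  induction n with
  | zero => rfl
  | succ n ih =>
    rw [Nat.count_succ, Nat.count_succ, ih fun k hk => h k (Nat.lt_succ_of_lt hk)]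
    by_cases hP : P n
    · rw [if_pos hP, if_pos ((h n (Nat.lt_succ_self n)).1 hP)]
    · rw [if_neg hP, if_neg fun hQ => hP ((h n (Nat.lt_succ_self n)).2 hQ)]

private lemma blc_nth {P Q : ℕ → Prop} (m N : ℕ) (hinf : {p | P p}.Infinite)
    (hN : Nat.nth P m ≤ N) (h : ∀ k ≤ N, (P k ↔ Q k)) : Nat.nth Q m = Nat.nth P m := by
  classical
  have h1 : P (Nat.nth P m) := Nat.nth_mem_of_infinite hinf m
  have h2 : Nat.count P (Nat.nth P m) = m := Nat.count_nth_of_infinite hinf m
  have h3 : Q (Nat.nth P m) := (h _ hN).1 h1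
  have h4 : Nat.count Q (Nat.nth P m) = m := by
    rw [← blc_count (Nat.nth P m) fun k hk => h k (hk.le.trans hN)]
    exact h2
  have h5 := Nat.nth_count h3
  rw [h4] at h5
  exact h5

private lemma blc_en {a : ℕ → ℕ} (hB : S_BLP) (c : ℕ → ℕ) {g : (ℕ → Bool) → US a}
    (hty : ∀ j, blc_lc fun d => ty (g d) j) (m : ℕ) : blc_lc fun d => en c (g d) m := by
  intro d0
  obtain ⟨b1, b2, -, -, b5⟩ := hB a c (g d0)
  have h1 : ∀ᶠ d in 𝓝 d0, ∀ p ∈ Finset.range (Nat.pair m 0 + 1),
      ty (g d) p.unpair.1 = ty (g d0) p.unpair.1 := by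
    rw [Filter.eventually_all_finset]
    intro p _
    exact hty p.unpair.1 d0
  filter_upwards [h1] with d hd
  have hinf : {p | p ∈ Ps c (g d0)}.Infinite :=
    Set.infinite_of_injective_forall_mem b2 b1
  show Nat.nth (· ∈ Ps c (g d)) m = Nat.nth (· ∈ Ps c (g d0)) m
  refine blc_nth m (Nat.pair m 0) hinf (b5 m) ?_
  intro p hp
  have h2 := hd p (Finset.mem_range.2 (Nat.lt_succ_of_le hp))
  show p.unpair.2 ∈ Car c (ty (g d0) p.unpair.1) ↔ p.unpair.2 ∈ Car c (ty (g d) p.unpair.1)
  rw [h2]

theorem t_BLC (hB : S_BLP) : S_BLC := by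
  classical
  intro a k f c g hg hex
  have hg1 : ∀ i v, blc_lc fun d => (g d).1 i v := by
    intro i v
    apply blc_of_cont
    exact (continuous_apply v).comp ((continuous_apply i).comp (continuous_fst.comp hg))
  have hg2 : ∀ n j, blc_lc fun d => (g d).2 n j := by
    intro n j
    apply blc_of_cont
    exact (continuous_apply j).comp ((continuous_apply n).comp (continuous_snd.comp hg))
  have hty := blc_ty hg2 hex
  have hen := blc_en hB c hty
  have hbk : ∀ m, blc_lc fun d => bk c (g d) m := by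
    intro m d0
    filter_upwards [hen m d0] with d hd
    show (en c (g d) m).unpair.1 = (en c (g d0) m).unpair.1
    rw [show en c (g d) m = en c (g d0) m from hd]
  have hlc : ∀ m, blc_lc fun d => lc c (g d) m := by
    intro m d0
    filter_upwards [hen m d0] with d hd
    show (en c (g d) m).unpair.2 = (en c (g d0) m).unpair.2
    rw [show en c (g d) m = en c (g d0) m from hd]
  refine Continuous.prodMk ?_ ?_
  · refine continuous_pi fun u => continuous_pi fun v => ?_
    apply blc_to_cont
    intro d0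
    filter_upwards [hbk u d0, hbk v d0] with d h1 h2
    show decide (bk c (g d) u = bk c (g d) v) = decide (bk c (g d0) u = bk c (g d0) v)
    rw [show bk c (g d) u = bk c (g d0) u from h1, show bk c (g d) v = bk c (g d0) v from h2]
  · refine continuous_pi fun i => continuous_pi fun t => ?_
    apply blc_to_cont
    intro d0
    have e1 : ∀ᶠ d in 𝓝 d0, ∀ j, bk c (g d) (t j) = bk c (g d0) (t j) := by
      rw [Filter.eventually_all]
      exact fun j => hbk (t j) d0
    have e2 : ∀ᶠ d in 𝓝 d0, ∀ j, lc c (g d) (t j) = lc c (g d0) (t j) := by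
      rw [Filter.eventually_all]
      exact fun j => hlc (t j) d0
    have e3 : ∀ᶠ d in 𝓝 d0, ∀ j, ty (g d) (bk c (g d0) (t j)) = ty (g d0) (bk c (g d0) (t j)) := by
      rw [Filter.eventually_all]
      exact fun j => hty _ d0
    filter_upwards [e1, e2, e3, hg1 i (fun j => bk c (g d0) (t j)) d0] with d h1 h2 h3 h4
    have h1' : (fun j => bk c (g d) (t j)) = fun j => bk c (g d0) (t j) := funext h1
    have h2' : (fun j => lc c (g d) (t j)) = fun j => lc c (g d0) (t j) := funext h2
    show (if k i = true then (g d).1 i (fun j => bk c (g d) (t j)) else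
        decide ((∀ j l, bk c (g d) (t j) = bk c (g d) (t l)) ∧
          ∃ j, (f (ty (g d) (bk c (g d) (t j)))).2 i (fun l => lc c (g d) (t l)) = true)) =
      (if k i = true then (g d0).1 i (fun j => bk c (g d0) (t j)) else
        decide ((∀ j l, bk c (g d0) (t j) = bk c (g d0) (t l)) ∧
          ∃ j, (f (ty (g d0) (bk c (g d0) (t j)))).2 i (fun l => lc c (g d0) (t l)) = true))
    rw [h1', h2']
    by_cases hk : k i = true
    · rw [if_pos hk, if_pos hk]
      exact h4
    · rw [if_neg hk, if_neg hk]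
      simp only [h1, h3]

end Pool.Agent.H533R2.VS
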