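import Pool.Agent.H533R2.VS.Spec

set_option autoImplicit false

namespace Pool.Agent.H533R2.VS
open Set
open Pool.Agent.H899R2.VP
open Pool.Agent.H533R2.VO (Glu RIso VC Dich put)

private theorem bli_ty {a : ℕ → ℕ} (y y' : US a) (σ : Equiv.Perm ℕ)
    (h2 : ∀ i u, y'.2 i (σ u) = y.2 i u) (j : ℕ) : ty y' (σ j) = ty y j := by
  unfold ty
  by_cases h : ∃ n, y.2 n j = true
  · have h' : ∃ n, y'.2 n (σ j) = true := by
      obtain ⟨n, hn⟩ := h
      exact ⟨n, by rw [h2]; exact hn⟩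
    rw [dif_pos h', dif_pos h]
    apply le_antisymm
    · exact Nat.find_min' h' (by rw [h2]; exact Nat.find_spec h)
    · exact Nat.find_min' h (by rw [← h2]; exact Nat.find_spec h')
  · have h' : ¬ ∃ n, y'.2 n (σ j) = true := by
      rintro ⟨n, hn⟩
      exact h ⟨n, by rw [← h2]; exact hn⟩
    rw [dif_neg h', dif_neg h]

private theorem bli_mem {a : ℕ → ℕ} (c : ℕ → ℕ) (y : US a) (i m : ℕ) :
    Nat.pair i m ∈ Ps c y ↔ m ∈ Car c (ty y i) := by
  unfold Ps
  simp [Nat.unpair_pair]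

private theorem bli_en {a : ℕ → ℕ} (c : ℕ → ℕ) (y : US a) (m : ℕ) :
    en c y m = Nat.pair (bk c y m) (lc c y m) := by
  unfold bk lc
  rw [Nat.pair_unpair]

theorem t_BLI (h : S_BLP) : S_BLI := by
  intro a k f c y y' hu
  obtain ⟨σ, h1, h2⟩ := hu
  obtain ⟨m1, i1, s1, -, -⟩ := h a c y
  obtain ⟨m2, i2, s2, -, -⟩ := h a c y'
  have key : ∀ w : ℕ × ℕ, en c y' w.2 = Nat.pair (σ (bk c y w.1)) (lc c y w.1) →
      bk c y' w.2 = σ (bk c y w.1) ∧ lc c y' w.2 = lc c y w.1 := by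
    intro w hw
    unfold bk lc at *
    rw [hw]
    simp [Nat.unpair_pair]
  refine ⟨{w | en c y' w.2 = Nat.pair (σ (bk c y w.1)) (lc c y w.1)}, by simp, by
    intro w _; simp, ⟨?_, ?_, ?_⟩, ?_, ?_⟩
  · intro u hu v hv
    simp only [mem_ofPred_eq] at hu hv
    constructor
    · intro e
      apply i2
      rw [hu, hv, e]
    · intro e
      apply i1
      rw [bli_en c y u.1, bli_en c y v.1]
      have e2 : Nat.pair (σ (bk c y u.1)) (lc c y u.1)
          = Nat.pair (σ (bk c y v.1)) (lc c y v.1) := by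
        rw [← hu, ← hv, e]
      rw [Nat.pair_eq_pair] at e2
      rw [σ.injective e2.1, e2.2]
  · intro u hu v hv
    have ku := key u hu
    have kv := key v hv
    unfold Bl
    simp only [ku.1, kv.1, EmbeddingLike.apply_eq_iff_eq]
  · intro i t ht
    have kt : ∀ j, bk c y' (t j).2 = σ (bk c y (t j).1) := fun j => (key (t j) (ht j)).1
    have lt : ∀ j, lc c y' (t j).2 = lc c y (t j).1 := fun j => (key (t j) (ht j)).2
    unfold Bl
    simp only [kt, lt, EmbeddingLike.apply_eq_iff_eq, bli_ty y y' σ h2]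
    have e1 : y'.1 i (fun j => σ (bk c y (t j).1)) = y.1 i (fun j => bk c y (t j).1) :=
      h1 i (fun j => bk c y (t j).1)
    rw [e1]
  · intro x _
    have hx := m1 x
    rw [bli_en, bli_mem] at hx
    have : Nat.pair (σ (bk c y x)) (lc c y x) ∈ Ps c y' := by
      rw [bli_mem, bli_ty y y' σ h2]; exact hx
    obtain ⟨m, hm⟩ := s2 _ this
    exact ⟨m, hm⟩
  · intro m _
    have hm := m2 m
    rw [bli_en, bli_mem] at hm
    have e : σ (σ.symm (bk c y' m)) = bk c y' m := σ.apply_symm_apply _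
    have : Nat.pair (σ.symm (bk c y' m)) (lc c y' m) ∈ Ps c y := by
      rw [bli_mem, ← bli_ty y y' σ h2, e]; exact hm
    obtain ⟨x, hx⟩ := s1 _ this
    refine ⟨x, ?_⟩
    have b : bk c y x = σ.symm (bk c y' m) ∧ lc c y x = lc c y' m := by
      unfold bk lc at *
      rw [hx]
      simp [Nat.unpair_pair]
    simp only [mem_ofPred_eq]
    rw [b.1, b.2, e, ← bli_en]

end Pool.Agent.H533R2.VS
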