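import Pool.Agent.H533R2.VS.Spec

set_option autoImplicit false

/-! BLM: the map `Bl` is measurable. -/

namespace Pool.Agent.H533R2.VS

open Set
open Pool.Agent.H899R2.VP (St)
open Pool.Agent.H533R2.VO (RS)

theorem blm_sel {α β γ : Type} [MeasurableSpace α] [Countable β] [MeasurableSpace β]
    [MeasurableSingletonClass β] [MeasurableSpace γ] (F : β → α → γ) (hF : ∀ b, Measurable (F b))
    (g : α → β) (hg : Measurable g) : Measurable (fun x => F (g x) x) := by
  intro s hs
  have h : (fun x => F (g x) x) ⁻¹' s = ⋃ b, (g ⁻¹' {b} ∩ F b ⁻¹' s) := by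
    ext x
    simp
  rw [h]
  exact MeasurableSet.iUnion fun b => (hg (measurableSet_singleton b)).inter (hF b hs)

theorem blm_ty_iff {a : ℕ → ℕ} (y : US a) (j n : ℕ) :
    ty y j = n ↔ (y.2 n j = true ∧ ∀ m < n, ¬ y.2 m j = true) ∨
      (n = 0 ∧ ∀ m, ¬ y.2 m j = true) := by
  classical
  unfold ty
  split_ifs with h
  · rw [Nat.find_eq_iff]
    constructor
    · exact fun h' => Or.inl h'
    · rintro (h' | ⟨_, h'⟩)
      · exact h'
      · obtain ⟨m, hm⟩ := h
        exact absurd hm (h' m)
  · constructor
    · intro h'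
      exact Or.inr ⟨h'.symm, fun m hm => h ⟨m, hm⟩⟩
    · rintro (⟨h', _⟩ | ⟨h', _⟩)
      · exact absurd ⟨n, h'⟩ h
      · exact h'.symm

theorem blm_coord {a : ℕ → ℕ} (m j : ℕ) : MeasurableSet {y : US a | y.2 m j = true} := by
  have h : Measurable (fun y : US a => y.2 m j) :=
    (measurable_pi_apply j).comp ((measurable_pi_apply m).comp measurable_snd)
  exact h (measurableSet_singleton true)

theorem blm_ty {a : ℕ → ℕ} (j : ℕ) : Measurable (fun y : US a => ty y j) := by
  apply measurable_to_countable'
  intro n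
  have e : (fun y : US a => ty y j) ⁻¹' {n} =
      ({y | y.2 n j = true} ∩ ⋂ m, ⋂ (_ : m < n), {y | y.2 m j = true}ᶜ) ∪
        ({_y | n = 0} ∩ ⋂ m, {y | y.2 m j = true}ᶜ) := by
    ext y
    have := blm_ty_iff y j n
    simp only [mem_preimage, mem_singleton_iff, mem_union, mem_inter_iff, mem_iInter,
      mem_compl_iff, mem_setOf_eq]
    exact this
  rw [e]
  refine MeasurableSet.union (MeasurableSet.inter (blm_coord n j) ?_)
    (MeasurableSet.inter (MeasurableSet.const _) ?_)
  · exact MeasurableSet.iInter fun m => MeasurableSet.iInter fun _ => (blm_coord m j).compl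
  · exact MeasurableSet.iInter fun m => (blm_coord m j).compl

theorem blm_Ps {a : ℕ → ℕ} (c : ℕ → ℕ) (p : ℕ) : MeasurableSet {y : US a | p ∈ Ps c y} := by
  have h : MeasurableSet {n : ℕ | p.unpair.2 ∈ Car c n} := MeasurableSet.of_discrete
  exact (blm_ty (a := a) p.unpair.1) h

open Classical in
theorem blm_count {a : ℕ → ℕ} (c : ℕ → ℕ) (n : ℕ) :
    Measurable (fun y : US a => Nat.count (fun q => q ∈ Ps c y) n) := by
  induction n with
  | zero =>
    simp only [Nat.count_zero]
    exact measurable_const
  | succ n ih =>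
    simp only [Nat.count_succ]
    exact ih.add (Measurable.ite (blm_Ps c n) measurable_const measurable_const)

theorem blm_en (h : S_BLP) {a : ℕ → ℕ} (c : ℕ → ℕ) (m : ℕ) :
    Measurable (fun y : US a => en c y m) := by
  classical
  apply measurable_to_countable'
  intro p
  have e : (fun y : US a => en c y m) ⁻¹' {p} =
      {y | p ∈ Ps c y} ∩ {y | Nat.count (fun q => q ∈ Ps c y) p = m} := by
    ext y
    obtain ⟨h1, h2, -⟩ := h a c y
    constructor
    · intro hy
      have hy' : en c y m = p := hy
      have hp : p ∈ Ps c y := hy' ▸ h1 m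
      refine ⟨hp, ?_⟩
      apply h2
      show Nat.nth (· ∈ Ps c y) (Nat.count (fun q => q ∈ Ps c y) p) = en c y m
      rw [hy']
      exact Nat.nth_count (p := fun q => q ∈ Ps c y) hp
    · rintro ⟨hp, hc⟩
      have hc' : Nat.count (fun q => q ∈ Ps c y) p = m := hc
      show Nat.nth (· ∈ Ps c y) m = p
      rw [← hc']
      exact Nat.nth_count (p := fun q => q ∈ Ps c y) hp
  rw [e]
  refine MeasurableSet.inter (blm_Ps c p) ?_
  have h3 := (blm_count (a := a) c p) (measurableSet_singleton m)
  exact h3

theorem blm_bk (h : S_BLP) {a : ℕ → ℕ} (c : ℕ → ℕ) (m : ℕ) :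
    Measurable (fun y : US a => bk c y m) := by
  have h1 : Measurable (fun n : ℕ => n.unpair.1) := measurable_of_countable _
  exact h1.comp (blm_en h c m)

theorem blm_lc (h : S_BLP) {a : ℕ → ℕ} (c : ℕ → ℕ) (m : ℕ) :
    Measurable (fun y : US a => lc c y m) := by
  have h1 : Measurable (fun n : ℕ => n.unpair.2) := measurable_of_countable _
  exact h1.comp (blm_en h c m)

theorem t_BLM (h : S_BLP) : S_BLM := by
  intro a k f c
  classical
  have hbk : ∀ (n : ℕ) (t : Fin n → ℕ), Measurable (fun y : US a => fun j => bk c y (t j)) :=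
    fun n t => measurable_pi_lambda _ fun j => blm_bk h c (t j)
  have hlc : ∀ (n : ℕ) (t : Fin n → ℕ), Measurable (fun y : US a => fun j => lc c y (t j)) :=
    fun n t => measurable_pi_lambda _ fun j => blm_lc h c (t j)
  have hty : ∀ (n : ℕ) (t : Fin n → ℕ),
      Measurable (fun y : US a => fun j => ty y (bk c y (t j))) := by
    intro n t
    refine measurable_pi_lambda _ fun j => ?_
    exact blm_sel (fun (b : ℕ) (y : US a) => ty y b) (fun b => blm_ty b)
      (fun y => bk c y (t j)) (blm_bk h c (t j))
  have h1 : Measurable (fun y : US a => (Bl k f c y).1) := by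
    refine measurable_pi_lambda _ fun u => measurable_pi_lambda _ fun v => ?_
    have h2 : Measurable (fun b : ℕ × ℕ => decide (b.1 = b.2)) := measurable_of_countable _
    have h3 := h2.comp ((blm_bk h (a := a) c u).prodMk (blm_bk h (a := a) c v))
    convert h3 using 1
    funext y
    simp [Bl]
  have h2 : Measurable (fun y : US a => (Bl k f c y).2) := by
    refine measurable_pi_lambda _ fun i => measurable_pi_lambda _ fun t => ?_
    by_cases hk : k i = true
    · have h3 : Measurable (fun y : US a => y.1 i (fun j => bk c y (t j))) := by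
        refine blm_sel (fun (b : Fin (a i) → ℕ) (y : US a) => y.1 i b) (fun b => ?_)
          (fun y => fun j => bk c y (t j)) (hbk _ t)
        exact (measurable_pi_apply b).comp ((measurable_pi_apply i).comp measurable_fst)
      convert h3 using 1
      funext y
      simp [Bl, hk]
    · have h4 : Measurable (fun b : ((Fin (a i) → ℕ) × (Fin (a i) → ℕ)) × (Fin (a i) → ℕ) =>
          decide ((∀ j l, b.1.1 j = b.1.1 l) ∧ ∃ j, (f (b.2 j)).2 i b.1.2 = true)) :=
        measurable_of_countable _
      have h5 := h4.comp (((hbk _ t).prodMk (hlc _ t)).prodMk (hty _ t))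
      convert h5 using 1
      funext y
      simp [Bl, hk]
  exact h1.prodMk h2

end Pool.Agent.H533R2.VS
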