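import Pool.Agent.H533R2.VS.Spec

set_option autoImplicit false

/-! Task BLP: facts on the coding (helper944) -/

namespace Pool.Agent.H533R2.VS

open Set
open Pool.Agent.H899R2.VP
open Pool.Agent.H533R2.VO (Glu RIso VC Dich put)

theorem blp_zero (c : ℕ → ℕ) (n : ℕ) : 0 ∈ Car c n := by
  show c n = 0 ∨ 0 < c n
  omega

theorem blp_pair {a : ℕ → ℕ} (c : ℕ → ℕ) (y : US a) (j : ℕ) : Nat.pair j 0 ∈ Ps c y := by
  show (Nat.pair j 0).unpair.2 ∈ Car c (ty y (Nat.pair j 0).unpair.1)
  rw [Nat.unpair_pair]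
  exact blp_zero c _

theorem blp_inf {a : ℕ → ℕ} (c : ℕ → ℕ) (y : US a) : (Ps c y).Infinite := by
  refine Set.infinite_of_injective_forall_mem (f := fun j : ℕ => Nat.pair j 0) ?_
    (fun j => blp_pair c y j)
  intro i j h
  have := Nat.pair_eq_pair.1 h
  exact this.1

theorem t_BLP : S_BLP := by
  intro a c y
  have hinf := blp_inf c y
  refine ⟨fun m => ?_, ?_, ?_, fun j => blp_pair c y j, ?_⟩
  · exact Nat.nth_mem_of_infinite hinf m
  · exact Nat.nth_injective hinf
  · intro p hp
    classical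
    exact ⟨Nat.count (· ∈ Ps c y) p, Nat.nth_count hp⟩
  · intro m
    classical
    have h1 : ∀ m : ℕ, m ≤ Nat.count (· ∈ Ps c y) (Nat.pair m 0) := by
      intro m
      induction m with
      | zero => exact Nat.zero_le _
      | succ m ih =>
        have h2 : Nat.pair m 0 + 1 ≤ Nat.pair (m + 1) 0 := Nat.pair_lt_pair_left 0 (Nat.lt_succ_self m)
        have h3 := Nat.count_monotone (· ∈ Ps c y) h2
        have h4 : Nat.count (· ∈ Ps c y) (Nat.pair m 0 + 1) =
            Nat.count (· ∈ Ps c y) (Nat.pair m 0) + 1 := by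
          rw [Nat.count_succ, if_pos (blp_pair c y m)]
        omega
    calc en c y m ≤ Nat.nth (· ∈ Ps c y) (Nat.count (· ∈ Ps c y) (Nat.pair m 0)) :=
          (Nat.nth_strictMono hinf).monotone (h1 m)
      _ = Nat.pair m 0 := Nat.nth_count (blp_pair c y m)

end Pool.Agent.H533R2.VS
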