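import Pool.Agent.H533R2.VS.Spec
import Pool.Agent.H533R2.VO.Lib

set_option autoImplicit false

/-! Task BLR: the index structure is recovered from the sum. -/

namespace Pool.Agent.H533R2.VS

open Set
open Pool.Agent.H899R2.VP
open Pool.Agent.H533R2.VO (Glu RIso VC Dich put iso_symm0 iso_trans0)

theorem blr_ty_true {a : ℕ → ℕ} {A : Set ℕ} {y : US a} (hy : Gd A y) (j : ℕ) :
    y.2 (ty y j) j = true := by
  obtain ⟨n, _, hn⟩ := hy.ex j
  have h : ∃ n, y.2 n j = true := ⟨n, hn⟩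
  have e : ty y j = Nat.find h := by
    unfold ty
    rw [dif_pos h]
  rw [e]
  exact Nat.find_spec h

theorem blr_ty_iff {a : ℕ → ℕ} {A : Set ℕ} {y : US a} (hy : Gd A y) (j n : ℕ) :
    y.2 n j = true ↔ n = ty y j := by
  constructor
  · intro h
    exact hy.un j n _ h (blr_ty_true hy j)
  · rintro rfl
    exact blr_ty_true hy j

theorem blr_ty_mem {a : ℕ → ℕ} {A : Set ℕ} {y : US a} (hy : Gd A y) (j : ℕ) : ty y j ∈ A := by
  obtain ⟨n, hnA, hn⟩ := hy.ex j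
  rw [← (blr_ty_iff hy j n).1 hn]
  exact hnA

theorem blr_rep (h1 : S_BLP) {a : ℕ → ℕ} (c : ℕ → ℕ) (y : US a) : ∃ r : ℕ → ℕ,
    ∀ j, bk c y (r j) = j := by
  obtain ⟨_, _, h3, h4, _⟩ := h1 a c y
  choose r hr using fun j => h3 _ (h4 j)
  refine ⟨r, fun j => ?_⟩
  unfold bk
  rw [hr j, Nat.unpair_pair]

theorem blr_adj {a : ℕ → ℕ} (k : ℕ → Bool) (f : ℕ → St a) (c : ℕ → ℕ) (y : US a) (u v : ℕ) :
    (Bl k f c y).1 u v = true ↔ bk c y u = bk c y v := by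
  simp [Bl]

theorem blr_rel {a : ℕ → ℕ} (k : ℕ → Bool) (f : ℕ → St a) (c : ℕ → ℕ) (y : US a) (i : ℕ)
    (hi : k i = true) (t : Fin (a i) → ℕ) :
    (Bl k f c y).2 i t = y.1 i (fun j => bk c y (t j)) := by
  simp [Bl, hi]

theorem blr_false {a : ℕ → ℕ} (k : ℕ → Bool) (y : RS a) (h : rst k true y = y) (i : ℕ)
    (hi : k i = false) (v : Fin (a i) → ℕ) : y i v = false := by
  rw [← h]
  simp [rst, hi]

/-- Restriction of an isomorphism to a block. -/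
theorem blr_block {a : ℕ → ℕ} (k : ℕ → Bool) {M N : St a} {q : Set (ℕ × ℕ)} (hq : PIso M N q)
    (h1 : ∀ x, ∃ y, (x, y) ∈ q) (h2 : ∀ y, ∃ x, (x, y) ∈ q) {u u' : ℕ} (hu : (u, u') ∈ q) :
    IsoOn (bl k M) (bl k N) (Bk M u) (Bk N u') ∅ := by
  have key : ∀ x x', (x, x') ∈ q → (x ∈ Bk M u ↔ x' ∈ Bk N u') := by
    intro x x' hx
    have := hq.2.1 _ hu _ hx
    simp only at this
    show M.1 u x = true ↔ N.1 u' x' = true
    rw [this]
  refine ⟨{w | w ∈ q ∧ w.1 ∈ Bk M u}, empty_subset _, ?_, ?_, ?_, ?_⟩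
  · rintro ⟨x, x'⟩ ⟨hx, hx'⟩
    exact ⟨hx', (key x x' hx).1 hx'⟩
  · have h3 : PIso M N {w | w ∈ q ∧ w.1 ∈ Bk M u} := hq.mono fun w hw => hw.1
    refine ⟨h3.1, h3.2.1, ?_⟩
    intro i t ht
    have h4 := h3.2.2 i t ht
    simp only [bl, rst]
    rw [h4]
  · intro x hx
    obtain ⟨x', hx'⟩ := h1 x
    exact ⟨x', hx', hx⟩
  · intro x' hx'
    obtain ⟨x, hx⟩ := h2 x'
    exact ⟨x, hx, (key x x' hx).2 hx'⟩

theorem t_BLR (h1 : S_BLP) (h2 : S_BLB) : S_BLR := by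
  intro a k K f c A y y' ha hS hy hy' hr hr' hiso
  obtain ⟨q, _, _, hq, hq1, hq2⟩ := hiso
  have hq1' : ∀ x, ∃ x', (x, x') ∈ q := fun x => hq1 x (mem_univ x)
  have hq2' : ∀ x', ∃ x, (x, x') ∈ q := fun x => hq2 x (mem_univ x)
  choose φ hφ using hq1'
  choose ψ hψ using hq2'
  obtain ⟨r, hrr⟩ := blr_rep h1 c y
  obtain ⟨r', hrr'⟩ := blr_rep h1 c y'
  have key : ∀ u u' v v', (u, u') ∈ q → (v, v') ∈ q →
      (bk c y u = bk c y v ↔ bk c y' u' = bk c y' v') := by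
    intro u u' v v' hu hv
    have h3 := hq.2.1 _ hu _ hv
    simp only at h3
    rw [← blr_adj k f c y u v, ← blr_adj k f c y' u' v', h3]
  -- the bijection
  have hl : ∀ j, bk c y (ψ (r' (bk c y' (φ (r j))))) = j := by
    intro j
    have h3 := (key _ _ _ _ (hψ (r' (bk c y' (φ (r j))))) (hφ (r j))).2 (hrr' _)
    rw [h3, hrr]
  have hrr2 : ∀ j, bk c y' (φ (r (bk c y (ψ (r' j))))) = j := by
    intro j
    have h3 := (key _ _ _ _ (hφ (r (bk c y (ψ (r' j))))) (hψ (r' j))).1 (hrr _)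
    rw [h3, hrr']
  let σ : Equiv.Perm ℕ := ⟨fun j => bk c y' (φ (r j)), fun j => bk c y (ψ (r' j)), hl, hrr2⟩
  have hσ : ∀ j, σ j = bk c y' (φ (r j)) := fun j => rfl
  refine ⟨σ, ?_, ?_⟩
  · intro i v
    by_cases hi : k i = true
    · have h3 := hq.2.2 i (fun l => (r (v l), φ (r (v l)))) (fun l => hφ _)
      rw [blr_rel k f c y i hi, blr_rel k f c y' i hi] at h3
      have e1 : (fun j => bk c y (r (v j))) = v := funext fun j => hrr (v j)
      have e2 : (fun j => bk c y' (φ (r (v j)))) = ⇑σ ∘ v := rfl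
      simp only at h3
      rw [e1, e2] at h3
      exact h3.symm
    · have hi' : k i = false := by simpa using hi
      rw [blr_false k y.1 hr i hi', blr_false k y'.1 hr' i hi']
  · intro n j
    have h3 : IsoOn (f (ty y j)) (f (ty y' (σ j))) (Car c (ty y j)) (Car c (ty y' (σ j))) ∅ := by
      have e1 := h2 a k f c y ha hS.tot hS.rel (r j)
      rw [hrr j] at e1
      have e2 := h2 a k f c y' ha hS.tot hS.rel (φ (r j))
      rw [← hσ j] at e2
      have e3 := blr_block k hq (fun x => ⟨φ x, hφ x⟩) (fun x => ⟨ψ x, hψ x⟩) (hφ (r j))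
      exact iso_trans0 (iso_trans0 e1 e3) (iso_symm0 e2)
    have h4 := hS.uni _ (blr_ty_mem hy j) _ (blr_ty_mem hy' (σ j)) h3
    rw [Bool.eq_iff_iff, blr_ty_iff hy', blr_ty_iff hy, h4]

end Pool.Agent.H533R2.VS
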