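import Pool.Agent.H533R2.VS.Spec

set_option autoImplicit false

/-!
# The index structure of `Bl` is in `V1`
-/

namespace Pool.Agent.H533R2.VS

open Set
open Pool.Agent.H899R2.VP
open Pool.Agent.H533R2.VO (Glu RIso VC Dich put)

theorem t_BLV (h : S_BLP) : S_BLV := by
  intro a k V1 f c y hIV hy
  obtain ⟨-, -, hsur, hpair, -⟩ := h a c y
  choose e he using fun j => hsur (Nat.pair j 0) (hpair j)
  have hbk : ∀ j, bk c y (e j) = j := by
    intro j
    unfold bk
    rw [he j, Nat.unpair_pair]
  have h1 : ∀ u v, (Bl k f c y).1 u v = true ↔ bk c y u = bk c y v := by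
    intro u v
    unfold Bl
    simp only [decide_eq_true_eq]
  have h2 := hIV e (fun m n => by rw [h1, hbk, hbk]) (fun z => ⟨bk c y z, by rw [h1, hbk]⟩)
  have h3 : (rst k true fun i v => (Bl k f c y).2 i (e ∘ v)) = y.1 := by
    rw [← hy]
    funext i v
    unfold rst
    by_cases hk : k i = true
    · rw [if_pos hk, if_pos hk]
      have h4 : (Bl k f c y).2 i (e ∘ v) = y.1 i (fun j => bk c y (e (v j))) := by
        unfold Bl
        simp only [if_pos hk]
        rfl
      show (Bl k f c y).2 i (e ∘ v) = y.1 i v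
      rw [h4]
      have h5 : (fun j => bk c y (e (v j))) = v := funext fun j => hbk (v j)
      rw [h5]
    · rw [if_neg hk, if_neg hk]
  rw [h3] at h2
  exact h2

end Pool.Agent.H533R2.VS
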