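import Pool.Agent.H533R2.VS.Spec
import Pool.Agent.H533R2.VO.Lib

/-! Task BLX (helper314): every member is of the form `Bl`. -/

set_option autoImplicit false

namespace Pool.Agent.H533R2.VS

open Set
open Pool.Agent.H899R2.VP
open Pool.Agent.H533R2.VO (Glu RIso VC Dich put iso_symm0 iso_trans0)

theorem blx_rst {a : ℕ → ℕ} (k : ℕ → Bool) (R : VO.RS a) :
    rst k true (rst k true R) = rst k true R := by
  funext i v
  unfold rst
  by_cases h : k i = true
  · simp [h]
  · simp [h]

theorem t_BLX (h : S_BLP) : S_BLX := by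
  classical
  intro a k K f c A hpos hS M hM hE e he
  set y : US a := (rst k true (fun i v => M.2 i (e ∘ v)),
    fun n j => decide (n ∈ A ∧ IsoOn (f n) (bl k M) (Car c n) (Bk M (e j)) ∅)) with hy
  have hy2 : ∀ n j, y.2 n j = true ↔ n ∈ A ∧ IsoOn (f n) (bl k M) (Car c n) (Bk M (e j)) ∅ := by
    intro n j
    rw [hy]
    simp only [decide_eq_true_eq]
  have hex : ∀ j, ∃ n, y.2 n j = true := by
    intro j
    obtain ⟨n, hn, hn'⟩ := hS.ex M hM (e j)
    exact ⟨n, (hy2 n j).2 ⟨hn, hn'⟩⟩
  have hty : ∀ j, y.2 (ty y j) j = true := by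
    intro j
    unfold ty
    rw [dif_pos (hex j)]
    exact Nat.find_spec (hex j)
  have hq : ∀ j, ∃ q : Set (ℕ × ℕ), q ⊆ Car c (ty y j) ×ˢ Bk M (e j) ∧
      PIso (f (ty y j)) (bl k M) q ∧ (∀ x ∈ Car c (ty y j), ∃ z, (x, z) ∈ q) ∧
      (∀ z ∈ Bk M (e j), ∃ x, (x, z) ∈ q) := by
    intro j
    obtain ⟨-, q, -, h1, h2, h3, h4⟩ := (hy2 _ j).1 (hty j)
    exact ⟨q, h1, h2, h3, h4⟩
  choose q q1 q2 q3 q4 using hq
  obtain ⟨p1, p2, p3, p4, p5⟩ := h a c y
  -- blocks
  have hsame : ∀ b b' z z', z ∈ Bk M (e b) → z' ∈ Bk M (e b') → (M.1 z z' = true ↔ b = b') := by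
    intro b b' z z' hz hz'
    have hz1 : M.1 (e b) z = true := hz
    have hz2 : M.1 (e b') z' = true := hz'
    rw [← he.1 b b']
    constructor
    · intro h1
      exact hE.trans _ _ _ (hE.trans _ _ _ hz1 h1) (hE.symm _ _ hz2)
    · intro h1
      exact hE.trans _ _ _ (hE.symm _ _ hz1) (hE.trans _ _ _ h1 hz2)
  have hbk : ∀ w : ℕ × ℕ, (lc c y w.1, w.2) ∈ q (bk c y w.1) → w.2 ∈ Bk M (e (bk c y w.1)) :=
    fun w hw => (q1 _ hw).2
  have h2 : ∀ u v : ℕ × ℕ, (lc c y u.1, u.2) ∈ q (bk c y u.1) →
      (lc c y v.1, v.2) ∈ q (bk c y v.1) → (M.1 u.2 v.2 = true ↔ bk c y u.1 = bk c y v.1) :=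
    fun u v hu hv => hsame _ _ _ _ (hbk u hu) (hbk v hv)
  refine ⟨y, ⟨fun j => ?_, fun j m n hm hn => ?_⟩, ?_, ?_⟩
  · obtain ⟨n, hn⟩ := hex j
    exact ⟨n, ((hy2 n j).1 hn).1, hn⟩
  · obtain ⟨m1, m2⟩ := (hy2 m j).1 hm
    obtain ⟨n1, n2⟩ := (hy2 n j).1 hn
    exact hS.uni m m1 n n1 (iso_trans0 m2 (iso_symm0 n2))
  · rw [hy]
    exact blx_rst k _
  · refine ⟨{w | (lc c y w.1, w.2) ∈ q (bk c y w.1)}, empty_subset _,
      fun w _ => ⟨mem_univ _, mem_univ _⟩, ⟨?_, ?_, ?_⟩, ?_, ?_⟩
    · intro u hu v hv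
      rw [mem_ofPred_eq] at hu hv
      constructor
      · intro e1
        rw [← e1] at hv
        exact ((q2 _).1 _ hu _ hv).1 rfl
      · intro e1
        have hb : bk c y u.1 = bk c y v.1 := by
          rw [← h2 u v hu hv, e1]
          exact hE.refl _
        rw [← hb] at hv
        have hl : lc c y u.1 = lc c y v.1 := ((q2 _).1 _ hu _ hv).2 e1
        apply p2
        have h3 : (en c y u.1).unpair = (en c y v.1).unpair := Prod.ext hb hl
        rw [← Nat.pair_unpair (en c y u.1), ← Nat.pair_unpair (en c y v.1), h3]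
    · intro u hu v hv
      rw [mem_ofPred_eq] at hu hv
      rw [Bool.eq_iff_iff, h2 u v hu hv]
      show decide (bk c y u.1 = bk c y v.1) = true ↔ _
      rw [decide_eq_true_eq]
    · intro i t ht
      by_cases hk : k i = true
      · show (if k i = true then y.1 i (fun j => bk c y (t j).1) else _) = _
        rw [if_pos hk]
        show rst k true (fun i v => M.2 i (e ∘ v)) i (fun j => bk c y (t j).1) = _
        unfold rst
        rw [if_pos hk]
        exact hE.across i hk _ _ fun j => hbk (t j) (ht j)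
      · have hk' : k i = false := by simpa using hk
        show (if k i = true then y.1 i (fun j => bk c y (t j).1) else
          decide ((∀ j l, bk c y (t j).1 = bk c y (t l).1) ∧
            ∃ j, (f (ty y (bk c y (t j).1))).2 i (fun l => lc c y (t l).1) = true)) = _
        rw [if_neg hk, Bool.eq_iff_iff, decide_eq_true_eq]
        by_cases hc : ∀ j l, bk c y (t j).1 = bk c y (t l).1
        · have key : ∀ j, (f (ty y (bk c y (t j).1))).2 i (fun l => lc c y (t l).1) =
              M.2 i (fun l => (t l).2) := by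
            intro j
            have h3 := (q2 (bk c y (t j).1)).2.2 i (fun l => (lc c y (t l).1, (t l).2)) (by
              intro l
              have := ht l
              rw [mem_ofPred_eq, hc l j] at this
              exact this)
            refine h3.trans ?_
            show rst k false M.2 i _ = _
            unfold rst
            rw [if_pos hk']
          constructor
          · rintro ⟨-, j, hj⟩
            rw [key j] at hj
            exact hj
          · intro h3
            exact ⟨hc, ⟨0, hpos i⟩, by rw [key]; exact h3⟩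
        · constructor
          · intro h3
            exact absurd h3.1 hc
          · intro h3
            exfalso
            apply hc
            intro j l
            rw [← h2 (t j) (t l) (ht j) (ht l)]
            exact hE.inside i hk' _ h3 j l
    · intro x _
      have h3 : lc c y x ∈ Car c (ty y (bk c y x)) := p1 x
      obtain ⟨z, hz⟩ := q3 _ _ h3
      exact ⟨z, hz⟩
    · intro z _
      obtain ⟨n, hn⟩ := he.2 z
      obtain ⟨x, hx⟩ := q4 n z hn
      have hx' : x ∈ Car c (ty y n) := (q1 n hx).1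
      obtain ⟨m, hm⟩ := p3 (Nat.pair n x) (by
        show (Nat.pair n x).unpair.2 ∈ Car c (ty y (Nat.pair n x).unpair.1)
        rw [Nat.unpair_pair]
        exact hx')
      refine ⟨m, ?_⟩
      have hb : bk c y m = n := by unfold bk; rw [hm, Nat.unpair_pair]
      have hl : lc c y m = x := by unfold lc; rw [hm, Nat.unpair_pair]
      show (lc c y m, z) ∈ q (bk c y m)
      rw [hb, hl]
      exact hx

end Pool.Agent.H533R2.VS
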