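import Pool.Agent.H533R2.VS.Spec2
import Pool.Agent.H533R2.VD.Spec

set_option autoImplicit false

/-!
# CDG: decomposable structures in any language
-/

namespace Pool.Agent.H533R2.VS

open Set
open Pool.Agent.H899R2.VP
open Pool.Agent.H533R2.VO (Glu RIso VC Dich put)
open Pool.Agent.H533R2.VD (R2 RIso2 ce)

/-- coding by binary relations -/
def cdg_enc {a : ℕ → ℕ} (y : Pool.Agent.H533R2.VS.US a) : R2 := fun n u v =>
  if n % 2 = 0 then (if a (n / 2) = 2 then y.1 (n / 2) (p2 u v) else false)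
  else decide (u = v) && y.2 (n / 2) u

/-- decoding -/
def cdg_dec {a : ℕ → ℕ} (z : R2) : Pool.Agent.H533R2.VS.US a :=
  (fun i t => if h : a i = 2 then z (2 * i) (t ⟨0, by omega⟩) (t ⟨1, by omega⟩) else false,
   fun i u => z (2 * i + 1) u u)

theorem cdg_p2 {a : ℕ → ℕ} {i : ℕ} (h : a i = 2) (t : Fin (a i) → ℕ) :
    p2 (t ⟨0, by omega⟩) (t ⟨1, by omega⟩) = t := by
  funext j
  unfold p2
  have hj : j.val = 0 ∨ j.val = 1 := by
    have := j.2
    omega
  rcases hj with hj | hj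
  · rw [if_pos hj]
    congr 1
    exact Fin.ext hj.symm
  · rw [if_neg (by omega)]
    congr 1
    exact Fin.ext hj.symm

theorem cdg_dec_enc {a : ℕ → ℕ} (y : Pool.Agent.H533R2.VS.US a)
    (h : ∀ i, a i ≠ 2 → ∀ t, y.1 i t = false) : cdg_dec (cdg_enc y) = y := by
  have e1 : ∀ i : ℕ, (2 * i) % 2 = 0 := fun i => by omega
  have e2 : ∀ i : ℕ, (2 * i) / 2 = i := fun i => by omega
  have e3 : ∀ i : ℕ, ¬ (2 * i + 1) % 2 = 0 := fun i => by omega
  have e4 : ∀ i : ℕ, (2 * i + 1) / 2 = i := fun i => by omega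
  apply Prod.ext
  · funext i t
    simp only [cdg_dec, cdg_enc]
    by_cases hi : a i = 2
    · rw [dif_pos hi, if_pos (e1 i)]
      have key : ∀ m : ℕ, m = i → ∀ u v : ℕ,
          (if a m = 2 then y.1 m (p2 u v) else false) = y.1 i (p2 u v) := by
        intro m hm u v
        subst hm
        rw [if_pos hi]
      rw [key _ (e2 i), cdg_p2 hi]
    · rw [dif_neg hi, h i hi t]
  · funext i u
    simp only [cdg_dec, cdg_enc]
    rw [if_neg (e3 i), e4 i]
    simp

theorem cdg_enc_equiv {a : ℕ → ℕ} (x y : Pool.Agent.H533R2.VS.US a) (σ : Equiv.Perm ℕ)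
    (h1 : ∀ (i : ℕ) (v : Fin (a i) → ℕ), y.1 i (⇑σ ∘ v) = x.1 i v)
    (h2 : ∀ i u, y.2 i (σ u) = x.2 i u) (n u v : ℕ) :
    cdg_enc y n (σ u) (σ v) = cdg_enc x n u v := by
  unfold cdg_enc
  by_cases hn : n % 2 = 0
  · rw [if_pos hn, if_pos hn]
    by_cases ha : a (n / 2) = 2
    · rw [if_pos ha, if_pos ha, ← h1]
      have hp : (p2 (σ u) (σ v) : Fin (a (n / 2)) → ℕ) = ⇑σ ∘ p2 u v := by
        funext j
        simp only [p2, Function.comp]
        split_ifs <;> rfl
      rw [hp]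
    · rw [if_neg ha, if_neg ha]
  · rw [if_neg hn, if_neg hn, h2]
    simp

theorem cdg_dec_equiv {a : ℕ → ℕ} (z w : R2) (σ : Equiv.Perm ℕ)
    (h : ∀ i u v, w i (σ u) (σ v) = z i u v) :
    (∀ (i : ℕ) (v : Fin (a i) → ℕ),
      (cdg_dec w : Pool.Agent.H533R2.VS.US a).1 i (⇑σ ∘ v) = (cdg_dec z).1 i v) ∧
    (∀ i u, (cdg_dec w : Pool.Agent.H533R2.VS.US a).2 i (σ u) =
      (cdg_dec z : Pool.Agent.H533R2.VS.US a).2 i u) := by
  refine ⟨?_, ?_⟩
  · intro i v
    simp only [cdg_dec, Function.comp]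
    split_ifs
    · exact h _ _ _
    · rfl
  · intro i u
    simp only [cdg_dec]
    exact h _ _ _

theorem cdg_cont_dec {a : ℕ → ℕ} :
    Continuous (cdg_dec : R2 → Pool.Agent.H533R2.VS.US a) := by
  refine Continuous.prodMk ?_ ?_
  · refine continuous_pi fun i => continuous_pi fun t => ?_
    by_cases hi : a i = 2
    · simp only [hi, dite_true]
      exact (continuous_apply _).comp ((continuous_apply _).comp (continuous_apply _))
    · simp only [hi, dite_false]
      exact continuous_const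
  · refine continuous_pi fun i => continuous_pi fun u => ?_
    exact (continuous_apply _).comp ((continuous_apply _).comp (continuous_apply _))

theorem cdg_cont_enc {a : ℕ → ℕ} :
    Continuous (cdg_enc : Pool.Agent.H533R2.VS.US a → R2) := by
  refine continuous_pi fun n => continuous_pi fun u => continuous_pi fun v => ?_
  unfold cdg_enc
  by_cases hn : n % 2 = 0
  · simp only [hn, if_true]
    by_cases ha : a (n / 2) = 2
    · simp only [ha, if_true]
      exact (continuous_apply _).comp ((continuous_apply _).comp continuous_fst)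
    · simp only [ha, if_false]
      exact continuous_const
  · simp only [hn, if_false]
    by_cases huv : u = v
    · simp only [huv, decide_true, Bool.true_and]
      exact (continuous_apply _).comp ((continuous_apply _).comp continuous_snd)
    · simp only [huv, decide_false, Bool.false_and]
      exact continuous_const

theorem t_CDG (hF : VD.S_FINAL3) : S_CDG := by
  intro a B hB hinv hV
  have e1 : ∀ i : ℕ, (2 * i) % 2 = 0 := fun i => by omega
  have e2 : ∀ i : ℕ, (2 * i) / 2 = i := fun i => by omega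
  -- the coded class
  have hmeas : MeasurableSet {z : R2 | (cdg_dec z : Pool.Agent.H533R2.VS.US a) ∈ B ∧
      z = cdg_enc (cdg_dec z : Pool.Agent.H533R2.VS.US a)} := by
    apply MeasurableSet.inter
    · exact cdg_cont_dec.measurable hB
    · exact (isClosed_eq continuous_id (cdg_cont_enc.comp cdg_cont_dec)).measurableSet
  have hriso : ∀ z w : R2, RIso2 z w →
      z = cdg_enc (cdg_dec z : Pool.Agent.H533R2.VS.US a) →
      w = cdg_enc (cdg_dec w : Pool.Agent.H533R2.VS.US a) := by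
    intro z w hzw hz
    obtain ⟨σ, hσ⟩ := hzw
    obtain ⟨h1, h2⟩ := cdg_dec_equiv (a := a) z w σ hσ
    funext n u v
    obtain ⟨u', rfl⟩ := σ.surjective u
    obtain ⟨v', rfl⟩ := σ.surjective v
    rw [hσ, cdg_enc_equiv _ _ σ h1 h2, ← hz]
  have hsymm : ∀ z w : R2, RIso2 z w → RIso2 w z := by
    rintro z w ⟨σ, hσ⟩
    refine ⟨σ.symm, fun i u v => ?_⟩
    rw [← hσ, Equiv.apply_symm_apply, Equiv.apply_symm_apply]
  have huiso : ∀ z w : R2, RIso2 z w →
      UIso (cdg_dec z : Pool.Agent.H533R2.VS.US a) (cdg_dec w) := by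
    rintro z w ⟨σ, hσ⟩
    obtain ⟨h1, h2⟩ := cdg_dec_equiv (a := a) z w σ hσ
    exact ⟨σ, h1, h2⟩
  have hinv' : ∀ z w : R2, RIso2 z w →
      (z ∈ {z : R2 | (cdg_dec z : Pool.Agent.H533R2.VS.US a) ∈ B ∧
        z = cdg_enc (cdg_dec z : Pool.Agent.H533R2.VS.US a)} ↔
      w ∈ {z : R2 | (cdg_dec z : Pool.Agent.H533R2.VS.US a) ∈ B ∧
        z = cdg_enc (cdg_dec z : Pool.Agent.H533R2.VS.US a)}) := by
    intro z w hzw
    constructor
    · rintro ⟨h1, h2⟩
      exact ⟨(hinv _ _ (huiso z w hzw)).1 h1, hriso z w hzw h2⟩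
    · rintro ⟨h1, h2⟩
      exact ⟨(hinv _ _ (huiso w z (hsymm z w hzw))).1 h1, hriso w z (hsymm z w hzw) h2⟩
  have hdec : ∀ z ∈ {z : R2 | (cdg_dec z : Pool.Agent.H533R2.VS.US a) ∈ B ∧
        z = cdg_enc (cdg_dec z : Pool.Agent.H533R2.VS.US a)}, VD.Dec z := by
    rintro z ⟨h1, h2⟩ F hF'
    obtain ⟨h3, h4⟩ := hV _ h1
    obtain ⟨X, hX1, hX2, hX3, hX4⟩ := h4 F hF'
    refine ⟨X, hX1, hX2, hX3, ?_⟩
    intro u hu v hv w hw hwX
    have huw : u ≠ w := fun h => hwX (h ▸ hu)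
    have hvw : v ≠ w := fun h => hwX (h ▸ hv)
    have h5 := hX4 u hu v hv w hw hwX
    intro n
    rw [h2]
    by_cases hn : n % 2 = 0
    · have h6 := h5 (n / 2)
      simp only [cdg_enc, hn, if_true]
      exact h6
    · simp only [cdg_enc, hn, if_false]
      simp [huw, hvw, huw.symm, hvw.symm]
  rcases hF _ hmeas hinv' hdec with ⟨f, hf⟩ | ⟨g, hg1, hg2, hg3⟩
  · left
    refine ⟨fun n => cdg_dec (f n), fun y hy => ?_⟩
    have h1 := cdg_dec_enc y (hV y hy).1
    have h2 : cdg_enc y ∈ {z : R2 | (cdg_dec z : Pool.Agent.H533R2.VS.US a) ∈ B ∧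
        z = cdg_enc (cdg_dec z : Pool.Agent.H533R2.VS.US a)} := by
      refine ⟨?_, ?_⟩
      · rw [h1]; exact hy
      · rw [h1]
    obtain ⟨n, hn⟩ := hf _ h2
    refine ⟨n, ?_⟩
    have h3 := huiso _ _ hn
    rw [h1] at h3
    exact h3
  · right
    refine ⟨fun c => cdg_dec (g c), cdg_cont_dec.comp hg1, fun c => (hg2 c).1, ?_⟩
    rintro c d ⟨σ, h1, h2⟩
    apply hg3 c d
    refine ⟨σ, fun i u v => ?_⟩
    rw [(hg2 d).2, (hg2 c).2]
    exact cdg_enc_equiv _ _ σ h1 h2 i u v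

end Pool.Agent.H533R2.VS
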