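import Pool.Agent.H533R2.VS.Spec2

set_option autoImplicit false

/-!
# Coding with unary predicates as odd relations (helper55)
-/

namespace Pool.Agent.H533R2.VS

open Set
open Pool.Agent.H899R2.VP (St Adj PIso BF IsoOn idOn inv comp zipSet gaifman HasCliqueSubdivision)
open Pool.Agent.H533R2.VO (Glu RS RIso VC Dich put)

theorem cmb_aux {a : ℕ → ℕ} (x : RS a) {N m i : ℕ} (h : m = i) (t : Fin N → ℕ)
    (h1 : a m = N) (h2 : a i = N) :
    x m (fun j => t (Fin.cast h1 j)) = x i (fun j => t (Fin.cast h2 j)) := by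
  subst h
  rfl

theorem cmb_even {a : ℕ → ℕ} (x : RS a) (U : ℕ → ℕ → Bool) (i : ℕ)
    (t : Fin (a1 a (2 * i)) → ℕ) :
    cmb x U (2 * i) t = x i (fun j => t (Fin.cast (a1_even a i).symm j)) := by
  unfold cmb
  rw [dif_pos (show 2 * i % 2 = 0 by omega)]
  exact cmb_aux x (by omega) t _ _

theorem cmb_odd {a : ℕ → ℕ} (x : RS a) (U : ℕ → ℕ → Bool) (i : ℕ)
    (t : Fin (a1 a (2 * i + 1)) → ℕ) :
    cmb x U (2 * i + 1) t = U i (t ⟨0, a1_odd' a (by omega)⟩) := by
  unfold cmb
  rw [dif_neg (show ¬ (2 * i + 1) % 2 = 0 by omega)]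
  rw [show (2 * i + 1) / 2 = i by omega]

theorem cmb_evn {a : ℕ → ℕ} (x : RS a) (U : ℕ → ℕ → Bool) : evn (cmb x U) = x := by
  funext i v
  unfold evn
  rw [cmb_even]
  rfl

theorem cmb_odd_eq {a : ℕ → ℕ} (x : RS a) (U : ℕ → ℕ → Bool) : odd (cmb x U) = U := by
  funext i u
  unfold odd
  rw [cmb_odd]

theorem cmb_eta {a : ℕ → ℕ} (R : RS (a1 a)) : cmb (evn R) (odd R) = R := by
  funext n t
  obtain ⟨i, hi | hi⟩ := Nat.even_or_odd' n
  · subst hi
    rw [cmb_even]
    rfl
  · subst hi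
    rw [cmb_odd]
    unfold odd
    congr 1
    funext j
    congr 1
    apply Fin.ext
    have h := j.isLt
    have h1 := a1_odd a i
    show 0 = j.val
    omega

theorem cmb_cont_evn {a : ℕ → ℕ} : Continuous (evn : RS (a1 a) → RS a) := by
  refine continuous_pi fun i => continuous_pi fun v => ?_
  exact (continuous_apply (fun j => v (Fin.cast (a1_even a i) j))).comp
    (continuous_apply (2 * i))

theorem cmb_cont_odd {a : ℕ → ℕ} : Continuous (odd : RS (a1 a) → ℕ → ℕ → Bool) := by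
  refine continuous_pi fun i => continuous_pi fun u => ?_
  exact (continuous_apply (fun _ => u)).comp (continuous_apply (2 * i + 1))

theorem cmb_cont {a : ℕ → ℕ} : Continuous (fun y : US a => cmb y.1 y.2) := by
  refine continuous_pi fun n => continuous_pi fun t => ?_
  by_cases h : n % 2 = 0
  · simp only [cmb, dif_pos h]
    have h1 : Continuous (fun R : RS a => R (n / 2)) := continuous_apply (n / 2)
    have h2 : Continuous (fun S : (Fin (a (n / 2)) → ℕ) → Bool =>
        S (fun j => t (Fin.cast (a1_even' a h) j))) := continuous_apply _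
    exact h2.comp (h1.comp continuous_fst)
  · simp only [cmb, dif_neg h]
    have h1 : Continuous (fun R : ℕ → ℕ → Bool => R (n / 2)) := continuous_apply (n / 2)
    have h2 : Continuous (fun S : ℕ → Bool => S (t ⟨0, a1_odd' a h⟩)) := continuous_apply _
    exact h2.comp (h1.comp continuous_snd)

theorem cmb_iso {a : ℕ → ℕ} (x y : US a) :
    RIso (cmb x.1 x.2) (cmb y.1 y.2) ↔ UIso x y := by
  constructor
  · rintro ⟨σ, hσ⟩
    refine ⟨σ, fun i v => ?_, fun i u => ?_⟩
    · have h := hσ (2 * i) (fun j => v (Fin.cast (a1_even a i) j))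
      rw [cmb_even, cmb_even] at h
      exact h
    · have h := hσ (2 * i + 1) (fun _ => u)
      rw [cmb_odd, cmb_odd] at h
      exact h
  · rintro ⟨σ, h1, h2⟩
    refine ⟨σ, fun n t => ?_⟩
    obtain ⟨i, hi | hi⟩ := Nat.even_or_odd' n
    · subst hi
      rw [cmb_even, cmb_even]
      exact h1 i _
    · subst hi
      rw [cmb_odd, cmb_odd]
      exact h2 i _

theorem t_CMB : S_CMB := fun _ =>
  ⟨fun x U => ⟨cmb_evn x U, cmb_odd_eq x U⟩, cmb_eta, cmb_cont_evn, cmb_cont_odd, cmb_cont,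
    cmb_iso⟩

end Pool.Agent.H533R2.VS
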