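import Pool.Agent.H533R2.VS.Spec2
import Pool.Agent.H533R2.VS.CMB

set_option autoImplicit false

/-!
# The dichotomy for the structures with coded unary predicates
-/

namespace Pool.Agent.H533R2.VS

open Set
open Pool.Agent.H899R2.VP (St Adj PIso BF IsoOn idOn inv comp zipSet gaifman HasCliqueSubdivision)
open Pool.Agent.H533R2.VO (Glu RS RIso VC Dich put)

theorem t_CL1B : S_CL1 := by
  intro a V hV B hBm hBi hBV
  rcases hV {y : US a | cmb y.1 y.2 ∈ B} (cmb_cont.measurable hBm)
    (fun x y h => hBi _ _ ((cmb_iso x y).2 h))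
    (fun y hy => by
      have h1 := hBV _ hy
      simp only [cmb_evn] at h1
      exact h1) with ⟨f, hf⟩ | ⟨g, g1, g2, g3⟩
  · left
    refine ⟨fun n => cmb (f n).1 (f n).2, fun R hR => ?_⟩
    have h1 : ((evn R, odd R) : US a) ∈ {y : US a | cmb y.1 y.2 ∈ B} := by
      show cmb (evn R) (odd R) ∈ B
      rw [cmb_eta]
      exact hR
    obtain ⟨n, hn⟩ := hf _ h1
    refine ⟨n, ?_⟩
    have h2 := (cmb_iso _ _).2 hn
    rwa [cmb_eta] at h2
  · right
    exact ⟨fun c => cmb (g c).1 (g c).2, cmb_cont.comp g1, g2,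
      fun c d h => g3 c d ((cmb_iso _ _).1 h)⟩

end Pool.Agent.H533R2.VS
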