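import Pool.Agent.H533R2.VS.Spec2

set_option autoImplicit false

/-! CL2: structures without odd relations. -/

namespace Pool.Agent.H533R2.VS

open Set
open Pool.Agent.H899R2.VP (St)
open Pool.Agent.H533R2.VO (RS RIso VC)

/-- The structure without odd relations. -/
def cl2Map {a : ℕ → ℕ} (y : US a) : US (a1 a) := (cmb y.1 (fun _ _ => false), y.2)

theorem cl2_iso {a : ℕ → ℕ} {x y : US a} (h : UIso x y) : UIso (cl2Map x) (cl2Map y) := by
  obtain ⟨σ, h1, h2⟩ := h
  refine ⟨σ, ?_, h2⟩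
  intro n v
  show cmb y.1 (fun _ _ => false) n (⇑σ ∘ v) = cmb x.1 (fun _ _ => false) n v
  unfold cmb
  by_cases h : n % 2 = 0
  · rw [dif_pos h, dif_pos h]
    exact h1 (n / 2) (fun j => v (Fin.cast (a1_even' a h) j))
  · rw [dif_neg h, dif_neg h]

theorem cl2_evn (hc : S_CMB) {a : ℕ → ℕ} (x : US a) : evn (cl2Map x).1 = x.1 :=
  ((hc a).1 x.1 (fun _ _ => false)).1

theorem cl2_iso' (hc : S_CMB) {a : ℕ → ℕ} {x y : US a} (h : UIso (cl2Map x) (cl2Map y)) :
    UIso x y := by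
  obtain ⟨σ, h1, h2⟩ := h
  refine ⟨σ, ?_, h2⟩
  intro i v
  have h3 : y.1 i (⇑σ ∘ v) = evn (cl2Map y).1 i (⇑σ ∘ v) := by rw [cl2_evn hc]
  have h4 : x.1 i v = evn (cl2Map x).1 i v := by rw [cl2_evn hc]
  rw [h3, h4]
  exact h1 (2 * i) (fun j => v (Fin.cast (a1_even a i) j))

theorem cl2_cont (hc : S_CMB) {a : ℕ → ℕ} : Continuous (cl2Map : US a → US (a1 a)) := by
  obtain ⟨-, -, -, -, h5, -⟩ := hc a
  have h6 : Continuous (fun y : US a => ((y.1, fun _ _ => false) : US a)) :=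
    continuous_fst.prodMk continuous_const
  exact (h5.comp h6).prodMk continuous_snd

theorem t_CL2 (hc : S_CMB) : S_CL2 := by
  intro a V hV B hB hinv hBV
  have hsurj : ∀ z ∈ B, cl2Map (evn z.1, z.2) = z := by
    intro z hz
    have h1 := (hBV z hz).2
    have h2 := (hc a).2.1 z.1
    rw [h1] at h2
    unfold cl2Map
    rw [h2]
  have hd : UDich (cl2Map ⁻¹' B : Set (US a)) := by
    apply hV
    · exact (cl2_cont hc).measurable hB
    · intro x y hxy
      exact hinv _ _ (cl2_iso hxy)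
    · intro x hx
      have h1 := (hBV _ hx).1
      rw [cl2_evn hc] at h1
      exact h1
  rcases hd with ⟨f, hf⟩ | ⟨g, hg, hgB, hgi⟩
  · left
    refine ⟨fun n => cl2Map (f n), ?_⟩
    intro z hz
    obtain ⟨n, hn⟩ := hf (evn z.1, z.2) (by
      show cl2Map (evn z.1, z.2) ∈ B
      rw [hsurj z hz]
      exact hz)
    refine ⟨n, ?_⟩
    have h1 := cl2_iso hn
    rw [hsurj z hz] at h1
    exact h1
  · right
    refine ⟨fun c => cl2Map (g c), (cl2_cont hc).comp hg, hgB, ?_⟩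
    intro c d hcd
    exact hgi c d (cl2_iso' hc hcd)

end Pool.Agent.H533R2.VS
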