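import Pool.Agent.H533R2.VS.Spec2
import Pool.Agent.H533R2.VS.CMB

set_option autoImplicit false

/-!
# Transport of the dichotomy to structures with a binary relation and unary predicates coded
-/

namespace Pool.Agent.H533R2.VS

open Set
open Pool.Agent.H899R2.VP (St Adj PIso BF IsoOn idOn inv comp zipSet gaifman HasCliqueSubdivision)
open Pool.Agent.H533R2.VO (Glu RS RIso VC Dich put)

/-- Isomorphism. -/
def OI {a : ℕ → ℕ} (M N : St a) : Prop := ∃ σ : Equiv.Perm ℕ,
  (∀ x y, N.1 (σ x) (σ y) = M.1 x y) ∧ ∀ (i : ℕ) (v : Fin (a i) → ℕ), N.2 i (⇑σ ∘ v) = M.2 i v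

/-- The structure without the relation `ε`. -/
def era {a : ℕ → ℕ} (ε : ℕ) (x : RS a) : RS a := fun i t => if i = ε then false else x i t

/-- The relation `ε` is the distinguished binary relation. -/
def phi {a : ℕ → ℕ} (ε : ℕ) (y : US a) : St (a1 a) :=
  (fun u v => y.1 ε (p2 u v), cmb (era ε y.1) y.2)

/-- The inverse of `phi`. -/
def psi {a : ℕ → ℕ} (ε : ℕ) (hε : a ε = 2) (M : St (a1 a)) : US a :=
  (fun i t => if h : i = ε then
      M.1 (t ⟨0, by rw [h, hε]; exact two_pos⟩) (t ⟨1, by rw [h, hε]; exact one_lt_two⟩)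
    else evn M.2 i t, odd M.2)

variable {a : ℕ → ℕ} {ε : ℕ}

theorem tra_eta (hε : a ε = 2) (t : Fin (a ε) → ℕ) :
    p2 (t ⟨0, by rw [hε]; exact two_pos⟩) (t ⟨1, by rw [hε]; exact one_lt_two⟩) = t := by
  funext j
  have hj : j.val < 2 := by
    have := j.isLt
    omega
  unfold p2
  by_cases h : j.val = 0
  · rw [if_pos h]
    congr 1
    apply Fin.ext
    exact h.symm
  · rw [if_neg h]
    congr 1
    apply Fin.ext
    show 1 = j.val
    omega

theorem tra_psi_phi (hε : a ε = 2) (y : US a) : psi ε hε (phi ε y) = y := by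
  obtain ⟨x, U⟩ := y
  refine Prod.ext ?_ ?_
  · funext i t
    by_cases h : i = ε
    · subst h
      show (if h : i = i then _ else _) = _
      rw [dif_pos rfl]
      show x i (p2 _ _) = x i t
      rw [tra_eta hε t]
    · show (if h : i = ε then _ else _) = _
      rw [dif_neg h]
      show evn (cmb (era ε x) U) i t = x i t
      rw [cmb_evn]
      unfold era
      rw [if_neg h]
  · exact cmb_odd_eq _ _

theorem tra_phi_psi (hε : a ε = 2) (M : St (a1 a)) (hM : ∀ t, M.2 (2 * ε) t = false) :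
    phi ε (psi ε hε M) = M := by
  obtain ⟨A, R⟩ := M
  refine Prod.ext ?_ ?_
  · funext u v
    show (if h : ε = ε then _ else _) = _
    rw [dif_pos rfl]
    rfl
  · show cmb (era ε (psi ε hε (A, R)).1) (odd R) = R
    have h1 : era ε (psi ε hε (A, R)).1 = evn R := by
      funext i t
      unfold era
      by_cases h : i = ε
      · subst h
        rw [if_pos rfl]
        exact (hM _).symm
      · rw [if_neg h]
        show (if h : i = ε then _ else _) = _
        rw [dif_neg h]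
    rw [h1, cmb_eta]

theorem tra_phi_iso {y y' : US a} (h : UIso y y') : OI (phi ε y) (phi ε y') := by
  obtain ⟨σ, h1, h2⟩ := h
  have hp : ∀ {n : ℕ} (u v : ℕ), (p2 (σ u) (σ v) : Fin n → ℕ) = ⇑σ ∘ p2 u v := by
    intro n u v
    funext j
    unfold p2
    show _ = σ (if _ then _ else _)
    split_ifs <;> rfl
  refine ⟨σ, fun u v => ?_, fun n t => ?_⟩
  · show y'.1 ε (p2 (σ u) (σ v)) = y.1 ε (p2 u v)
    rw [hp, h1]
  · show cmb (era ε y'.1) y'.2 n (⇑σ ∘ t) = cmb (era ε y.1) y.2 n t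
    obtain ⟨i, hi | hi⟩ := Nat.even_or_odd' n
    · subst hi
      rw [cmb_even, cmb_even]
      unfold era
      split_ifs with h
      · rfl
      · exact h1 i _
    · subst hi
      rw [cmb_odd, cmb_odd]
      exact h2 i _

theorem tra_psi_iso (hε : a ε = 2) {M N : St (a1 a)} (h : OI M N) :
    UIso (psi ε hε M) (psi ε hε N) := by
  obtain ⟨σ, h1, h2⟩ := h
  refine ⟨σ, fun i t => ?_, fun i u => ?_⟩
  · show (if h : i = ε then _ else _) = (if h : i = ε then _ else _)
    by_cases h : i = ε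
    · rw [dif_pos h, dif_pos h]
      exact h1 _ _
    · rw [dif_neg h, dif_neg h]
      exact h2 (2 * i) _
  · exact h2 (2 * i + 1) (fun _ => u)

theorem tra_psi_cont (hε : a ε = 2) : Continuous (psi ε hε : St (a1 a) → US a) := by
  refine Continuous.prodMk ?_ ?_
  · refine continuous_pi fun i => continuous_pi fun t => ?_
    by_cases h : i = ε
    · simp only [dif_pos h]
      exact (continuous_apply _).comp ((continuous_apply _).comp continuous_fst)
    · simp only [dif_neg h]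
      exact (continuous_apply _).comp ((continuous_apply (2 * i)).comp continuous_snd)
  · refine continuous_pi fun i => continuous_pi fun u => ?_
    exact (continuous_apply _).comp ((continuous_apply (2 * i + 1)).comp continuous_snd)

theorem tra_main (hε : a ε = 2) (B : Set (US a)) (hBm : MeasurableSet B)
    (hBi : ∀ x y, UIso x y → (x ∈ B ↔ y ∈ B))
    (H : ∀ B' : Set (St (a1 a)), MeasurableSet B' →
      (∀ M N : St (a1 a), ∀ σ : Equiv.Perm ℕ, (∀ x y, N.1 (σ x) (σ y) = M.1 x y) →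
        (∀ (i : ℕ) (v : Fin (a1 a i) → ℕ), N.2 i (⇑σ ∘ v) = M.2 i v) → (M ∈ B' ↔ N ∈ B')) →
      (∀ M ∈ B', ∃ y ∈ B, M = phi ε y) →
      (∃ f : ℕ → St (a1 a), ∀ M ∈ B', ∃ n, ∃ σ : Equiv.Perm ℕ,
        (∀ x y, M.1 (σ x) (σ y) = (f n).1 x y) ∧
        ∀ (i : ℕ) (v : Fin (a1 a i) → ℕ), M.2 i (⇑σ ∘ v) = (f n).2 i v) ∨
      (∃ g : (ℕ → Bool) → St (a1 a), Continuous g ∧ (∀ c, g c ∈ B') ∧
        ∀ c d : ℕ → Bool, (∃ σ : Equiv.Perm ℕ, (∀ x y, (g d).1 (σ x) (σ y) = (g c).1 x y) ∧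
          ∀ (i : ℕ) (v : Fin (a1 a i) → ℕ), (g d).2 i (⇑σ ∘ v) = (g c).2 i v) → c = d)) :
    UDich B := by
  let B' : Set (St (a1 a)) := {M | psi ε hε M ∈ B} ∩ {M | ∀ t, M.2 (2 * ε) t = false}
  have hB' : MeasurableSet B' := by
    refine MeasurableSet.inter ((tra_psi_cont hε).measurable hBm) ?_
    have : {M : St (a1 a) | ∀ t, M.2 (2 * ε) t = false} =
        ⋂ t, {M : St (a1 a) | M.2 (2 * ε) t = false} := by
      ext M
      simp
    rw [this]
    refine IsClosed.measurableSet (isClosed_iInter fun t => ?_)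
    exact isClosed_eq ((continuous_apply t).comp ((continuous_apply (2 * ε)).comp continuous_snd))
      continuous_const
  have hinv1 : ∀ M N : St (a1 a), OI M N → M ∈ B' → N ∈ B' := by
    intro M N h hM
    refine ⟨(hBi _ _ (tra_psi_iso hε h)).1 hM.1, ?_⟩
    obtain ⟨σ, -, h2⟩ := h
    intro t
    have h3 := h2 (2 * ε) (⇑σ.symm ∘ t)
    have h4 : ⇑σ ∘ (⇑σ.symm ∘ t) = t := by
      funext j
      exact σ.apply_symm_apply _
    rw [h4] at h3
    rw [h3]
    exact hM.2 _
  have hsymm : ∀ M N : St (a1 a), OI M N → OI N M := by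
    rintro M N ⟨σ, h1, h2⟩
    refine ⟨σ.symm, fun x y => ?_, fun i v => ?_⟩
    · have h3 := h1 (σ.symm x) (σ.symm y)
      rw [σ.apply_symm_apply, σ.apply_symm_apply] at h3
      exact h3.symm
    · have h3 := h2 i (⇑σ.symm ∘ v)
      have h4 : ⇑σ ∘ (⇑σ.symm ∘ v) = v := by
        funext j
        exact σ.apply_symm_apply _
      rw [h4] at h3
      exact h3.symm
  have hphi : ∀ y ∈ B, phi ε y ∈ B' := by
    intro y hy
    refine ⟨?_, ?_⟩
    · show psi ε hε (phi ε y) ∈ B
      rw [tra_psi_phi]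
      exact hy
    · intro t
      show cmb (era ε y.1) y.2 (2 * ε) t = false
      rw [cmb_even]
      unfold era
      rw [if_pos rfl]
  rcases H B' hB' (fun M N σ h1 h2 => ⟨hinv1 M N ⟨σ, h1, h2⟩, hinv1 N M (hsymm M N ⟨σ, h1, h2⟩)⟩)
    (fun M hM => ⟨psi ε hε M, hM.1, (tra_phi_psi hε M hM.2).symm⟩) with ⟨f, hf⟩ | ⟨g, g1, g2, g3⟩
  · left
    refine ⟨fun n => psi ε hε (f n), fun y hy => ?_⟩
    obtain ⟨n, σ, h1, h2⟩ := hf _ (hphi y hy)
    refine ⟨n, ?_⟩
    have h3 : UIso (psi ε hε (f n)) (psi ε hε (phi ε y)) := tra_psi_iso hε ⟨σ, h1, h2⟩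
    rwa [tra_psi_phi] at h3
  · right
    refine ⟨fun c => psi ε hε (g c), (tra_psi_cont hε).comp g1, fun c => (g2 c).1, ?_⟩
    intro c d h
    have h1 : OI (phi ε (psi ε hε (g c))) (phi ε (psi ε hε (g d))) := tra_phi_iso h
    rw [tra_phi_psi hε _ (g2 c).2, tra_phi_psi hε _ (g2 d).2] at h1
    exact g3 c d h1

end Pool.Agent.H533R2.VS
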