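import Pool.Agent.H533R2.VS.Spec3
import Pool.Agent.H533R2.VS.TRA

set_option autoImplicit false

/-!
# Closure under generalised sums
-/

namespace Pool.Agent.H533R2.VS

open Set
open Pool.Agent.H899R2.VP (St Adj PIso BF IsoOn idOn inv comp zipSet gaifman HasCliqueSubdivision)
open Pool.Agent.H533R2.VO (Glu RS RIso VC Dich put)

theorem cls_er {a : ℕ → ℕ} {ε : ℕ} {k : ℕ → Bool} {V1 V2 : RS a → Prop} {y : US a}
    (h : IsSum ε k V1 V2 y.1) :
    ER (fun n => if n % 2 = 0 then k (n / 2) else false) (phi ε y) := by
  refine ⟨h.refl, h.symm, h.trans, ?_, ?_⟩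
  · intro n hn t ht j l
    obtain ⟨i, hi | hi⟩ := Nat.even_or_odd' n
    · subst hi
      have hn' : k i = false := by
        have : (if 2 * i % 2 = 0 then k (2 * i / 2) else false) = false := hn
        rw [if_pos (by omega), show 2 * i / 2 = i by omega] at this
        exact this
      have ht' : cmb (era ε y.1) y.2 (2 * i) t = true := ht
      rw [cmb_even] at ht'
      unfold era at ht'
      by_cases hie : i = ε
      · rw [if_pos hie] at ht'
        exact absurd ht' (by simp)
      · rw [if_neg hie] at ht'
        exact h.inside i hie hn' _ ht' (Fin.cast (a1_even a i) j) (Fin.cast (a1_even a i) l)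
    · subst hi
      have h1 := a1_odd a i
      have hj : j = l := by
        apply Fin.ext
        have := j.isLt
        have := l.isLt
        omega
      rw [hj]
      exact h.refl _
  · intro n hn t t' htt
    obtain ⟨i, hi | hi⟩ := Nat.even_or_odd' n
    · subst hi
      have hn' : k i = true := by
        have : (if 2 * i % 2 = 0 then k (2 * i / 2) else false) = true := hn
        rw [if_pos (by omega), show 2 * i / 2 = i by omega] at this
        exact this
      show cmb (era ε y.1) y.2 (2 * i) t = cmb (era ε y.1) y.2 (2 * i) t'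
      rw [cmb_even, cmb_even]
      unfold era
      by_cases hie : i = ε
      · rw [if_pos hie, if_pos hie]
      · rw [if_neg hie, if_neg hie]
        exact h.across i hie hn' _ _ fun j => htt (Fin.cast (a1_even a i).symm j)
    · subst hi
      have : (if (2 * i + 1) % 2 = 0 then k ((2 * i + 1) / 2) else false) = true := hn
      rw [if_neg (by omega)] at this
      exact absurd this (by simp)

theorem cls_evn {a : ℕ → ℕ} {ε : ℕ} {k : ℕ → Bool} (b : Bool) (y : US a) (e : ℕ → ℕ) :
    evn (rst (fun n => if n % 2 = 0 then k (n / 2) else false) b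
      (fun i v => (phi ε y).2 i (e ∘ v))) =
    (fun i v => if i ≠ ε ∧ k i = b then y.1 i (e ∘ v) else false) := by
  funext i v
  show (if (if 2 * i % 2 = 0 then k (2 * i / 2) else false) = b then
    cmb (era ε y.1) y.2 (2 * i) _ else false) = _
  rw [if_pos (show 2 * i % 2 = 0 by omega), show 2 * i / 2 = i by omega, cmb_even]
  unfold era
  by_cases hie : i = ε
  · rw [if_pos hie]
    rw [if_neg (show ¬ (i ≠ ε ∧ k i = b) from fun hh => hh.1 hie)]
    simp
  · rw [if_neg hie]
    by_cases hk : k i = b
    · rw [if_pos hk, if_pos ⟨hie, hk⟩]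
      rfl
    · rw [if_neg hk, if_neg (fun hh => hk hh.2)]

theorem t_CLS (hS : S_SFINAL) (hCL1 : S_CL1) (hCL2 : S_CL2) : S_CLO := by
  intro a ha ε hε k V1 V2 hV1 hV2 B hBm hBi hBV
  refine tra_main hε B hBm hBi fun B' hm hi hB' => ?_
  have hpos : ∀ n, 0 < a1 a n := by
    intro n
    unfold a1
    split_ifs
    · exact ha _
    · exact one_pos
  refine hS (a1 a) (fun n => if n % 2 = 0 then k (n / 2) else false) hpos
    (fun R => V1 (evn R) ∧ odd R = fun _ _ => false) (fun R => V2 (evn R))
    (hCL2 a V1 hV1) (hCL1 a V2 hV2) B' hm hi ?_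
  intro M hM
  obtain ⟨y, hy, rfl⟩ := hB' M hM
  have h := hBV y hy
  refine ⟨cls_er h, ?_, ?_⟩
  · intro u e he hz
    have h1 := h.blocks u e he hz
    show V2 (evn _)
    rw [cls_evn]
    exact h1
  · intro e h2 h3
    have h1 := h.index e h2 h3
    refine ⟨?_, ?_⟩
    · show V1 (evn _)
      rw [cls_evn]
      exact h1
    · funext i u
      show (if (if (2 * i + 1) % 2 = 0 then k ((2 * i + 1) / 2) else false) = true then
        _ else false) = false
      rw [if_neg (show ¬ ((2 * i + 1) % 2 = 0) by omega)]
      rfl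

end Pool.Agent.H533R2.VS
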