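import Pool.Agent.H533R2.VO.Spec
import Pool.Agent.H533R2.VD.Defs
import Pool.Agent.H899R2.VP.Sub
import Pool.Agent.H899R2.VP.Logic

set_option autoImplicit false

/-!
# Vaught's conjecture and generalised sums: definitions and statements of the steps

`M : St a` is a generalised sum: `M.1` is an equivalence relation, its classes are the blocks; the
relations `i` with `k i = false` live inside the blocks, the relations `i` with `k i = true` are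
relations between blocks.
-/

namespace Pool.Agent.H533R2.VS

open Set
open Pool.Agent.H899R2.VP (St Adj PIso BF IsoOn idOn inv comp zipSet gaifman HasCliqueSubdivision)
open Pool.Agent.H533R2.VO (Glu RS RIso VC Dich put)

/-- Structures with unary predicates. -/
abbrev US (a : ℕ → ℕ) : Type := RS a × (ℕ → ℕ → Bool)

/-- Isomorphism of structures with unary predicates. -/
def UIso {a : ℕ → ℕ} (x y : US a) : Prop :=
  ∃ σ : Equiv.Perm ℕ, (∀ (i : ℕ) (v : Fin (a i) → ℕ), y.1 i (⇑σ ∘ v) = x.1 i v) ∧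
    ∀ i u, y.2 i (σ u) = x.2 i u

/-- The perfect set dichotomy. -/
def UDich {a : ℕ → ℕ} (B : Set (US a)) : Prop :=
  (∃ f : ℕ → US a, ∀ x ∈ B, ∃ n, UIso (f n) x) ∨
  (∃ g : (ℕ → Bool) → US a, Continuous g ∧ (∀ c, g c ∈ B) ∧ ∀ c d, UIso (g c) (g d) → c = d)

/-- Vaught's conjecture for the expansions of structures in `V` by unary predicates. -/
def VCu {a : ℕ → ℕ} (V : RS a → Prop) : Prop := ∀ B : Set (US a), MeasurableSet B →
  (∀ x y, UIso x y → (x ∈ B ↔ y ∈ B)) → (∀ x ∈ B, V x.1) → UDich B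

/-- The block of `x`. -/
def Bk {a : ℕ → ℕ} (M : St a) (x : ℕ) : Set ℕ := {z | M.1 x z = true}

/-- Generalised sums. -/
structure ER {a : ℕ → ℕ} (k : ℕ → Bool) (M : St a) : Prop where
  refl : ∀ x, M.1 x x = true
  symm : ∀ x y, M.1 x y = true → M.1 y x = true
  trans : ∀ x y z, M.1 x y = true → M.1 y z = true → M.1 x z = true
  inside : ∀ i, k i = false → ∀ t, M.2 i t = true → ∀ j l, M.1 (t j) (t l) = true
  across : ∀ i, k i = true → ∀ t t' : Fin (a i) → ℕ, (∀ j, M.1 (t j) (t' j) = true) →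
    M.2 i t = M.2 i t'

/-- Keep the relations with `k i = b`. -/
def rst {a : ℕ → ℕ} (k : ℕ → Bool) (b : Bool) (R : RS a) : RS a :=
  fun i v => if k i = b then R i v else false

/-- All infinite blocks are in `V2`. -/
def BV {a : ℕ → ℕ} (k : ℕ → Bool) (V2 : RS a → Prop) (M : St a) : Prop :=
  ∀ (x : ℕ) (e : ℕ → ℕ), Function.Injective e → (∀ z, z ∈ Bk M x ↔ ∃ n, e n = z) →
    V2 (rst k false fun i v => M.2 i (e ∘ v))

/-- The structure of the blocks, if it is infinite, is in `V1`. -/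
def IV {a : ℕ → ℕ} (k : ℕ → Bool) (V1 : RS a → Prop) (M : St a) : Prop :=
  ∀ e : ℕ → ℕ, (∀ m n, M.1 (e m) (e n) = true ↔ m = n) → (∀ z, ∃ n, M.1 (e n) z = true) →
    V1 (rst k true fun i v => M.2 i (e ∘ v))

/-- The standing hypotheses. -/
structure GK {a : ℕ → ℕ} (k : ℕ → Bool) (α : Ordinal.{0}) (K : Set (St a)) : Prop where
  pos : ∀ i, 0 < a i
  meas : MeasurableSet K
  lt : α < Ordinal.omega 1
  om : Ordinal.omega0 ≤ α
  closed : ∀ M ∈ K, ∀ N : St a, BF M N univ univ α ∅ → N ∈ K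
  er : ∀ M ∈ K, ER k M
  few : ¬ ∃ g : (ℕ → Bool) → St a, Continuous g ∧ (∀ c, g c ∈ K) ∧
    ∀ c d, IsoOn (g c) (g d) univ univ ∅ → c = d

/-- Forget the relations between blocks. -/
def bl {a : ℕ → ℕ} (k : ℕ → Bool) (M : St a) : St a := (M.1, rst k false M.2)

/-- Standard carriers: `ℕ` if `c n = 0`, else `{0, ..., c n - 1}`. -/
def Car (c : ℕ → ℕ) (n : ℕ) : Set ℕ := {m | c n = 0 ∨ m < c n}

/-- `f n` (`n ∈ A`) with carrier `Car c n` are the types of the blocks of the members of `K`. -/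
structure Std {a : ℕ → ℕ} (k : ℕ → Bool) (K : Set (St a)) (f : ℕ → St a) (c : ℕ → ℕ)
    (A : Set ℕ) : Prop where
  ex : ∀ M ∈ K, ∀ x, ∃ n ∈ A, IsoOn (f n) (bl k M) (Car c n) (Bk M x) ∅
  uni : ∀ m ∈ A, ∀ n ∈ A, IsoOn (f m) (f n) (Car c m) (Car c n) ∅ → m = n
  tot : ∀ n u v, (f n).1 u v = true
  rel : ∀ n i t, k i = true → (f n).2 i t = false

/-- Every point has exactly one of the predicates, and it is in `A`. -/
structure Gd {a : ℕ → ℕ} (A : Set ℕ) (y : US a) : Prop where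
  ex : ∀ j, ∃ n ∈ A, y.2 n j = true
  un : ∀ j m n, y.2 m j = true → y.2 n j = true → m = n

open Classical in
/-- The type of the point `j`. -/
noncomputable def ty {a : ℕ → ℕ} (y : US a) (j : ℕ) : ℕ :=
  if h : ∃ n, y.2 n j = true then Nat.find h else 0

/-- The codes of the points of the sum. -/
def Ps {a : ℕ → ℕ} (c : ℕ → ℕ) (y : US a) : Set ℕ :=
  {p | p.unpair.2 ∈ Car c (ty y p.unpair.1)}

/-- Increasing enumeration of the codes. -/
noncomputable def en {a : ℕ → ℕ} (c : ℕ → ℕ) (y : US a) (m : ℕ) : ℕ := Nat.nth (· ∈ Ps c y) m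

/-- The block of the point `m`. -/
noncomputable def bk {a : ℕ → ℕ} (c : ℕ → ℕ) (y : US a) (m : ℕ) : ℕ := (en c y m).unpair.1

/-- The position of the point `m` in its block. -/
noncomputable def lc {a : ℕ → ℕ} (c : ℕ → ℕ) (y : US a) (m : ℕ) : ℕ := (en c y m).unpair.2

open Classical in
/-- The sum over the index structure `y` of the blocks `f n`. -/
noncomputable def Bl {a : ℕ → ℕ} (k : ℕ → Bool) (f : ℕ → St a) (c : ℕ → ℕ) (y : US a) : St a :=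
  (fun u v => decide (bk c y u = bk c y v),
   fun i t => if k i = true then y.1 i (fun j => bk c y (t j)) else
     decide ((∀ j l, bk c y (t j) = bk c y (t l)) ∧
       ∃ j, (f (ty y (bk c y (t j)))).2 i (fun l => lc c y (t l)) = true))

/-- A structure with one block and given values of the index relations. -/
def liftk {a : ℕ → ℕ} (k : ℕ → Bool) (q : ℕ → Bool) (R : RS a) : St a :=
  (fun _ _ => true, fun i t => if k i = true then q i else R i t)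

/-- The same on the range of `e`. -/
noncomputable def putk {a : ℕ → ℕ} (k : ℕ → Bool) (q : ℕ → Bool) (e : ℕ → ℕ) (R : RS a) : St a :=
  (fun _ _ => true, fun i t => if k i = true then q i else (put e R).2 i t)

/-- Enumeration of the blocks. -/
def Eb {a : ℕ → ℕ} (M : St a) (e : ℕ → ℕ) : Prop :=
  (∀ m n, M.1 (e m) (e n) = true ↔ m = n) ∧ ∀ z, ∃ n, M.1 (e n) z = true

/-- The list `s` has one point in every block. -/
def Fb {a : ℕ → ℕ} (M : St a) (s : List ℕ) : Prop :=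
  s.Pairwise (fun x y => M.1 x y = false) ∧ ∀ z, ∃ x ∈ s, M.1 x z = true

/-! ### Statements -/

def S_RPL : Prop := ∀ (a : ℕ → ℕ) (k : ℕ → Bool) (α : Ordinal.{0}) (M T : St a) (x : ℕ),
  (∀ i, 0 < a i) → Ordinal.omega0 ≤ α → ER k M → BF M T (Bk M x) (Bk M x) α ∅ →
  BF M (Glu M (fun _ : Unit => Bk M x) (fun _ => T)) univ univ α ∅

def S_PUTK : Prop := ∀ (a : ℕ → ℕ) (k q : ℕ → Bool) (e : ℕ → ℕ), Function.Injective e →
  (∀ R : RS a, IsoOn (liftk k q R) (putk k q e R) univ (range e) {w | w.2 = e w.1}) ∧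
  (∀ (R : RS a) (i : ℕ) (v : Fin (a i) → ℕ), k i = false →
    (putk k q e R).2 i (e ∘ v) = R i v) ∧
  Continuous (putk k q e : RS a → St a)

/-- Facts on the structure with a replaced block. -/
def S_RPF : Prop := ∀ (a : ℕ → ℕ) (k : ℕ → Bool) (M T : St a) (x : ℕ), (∀ i, 0 < a i) →
  ER k M → (∀ u v, T.1 u v = true) →
  Bk (Glu M (fun _ : Unit => Bk M x) (fun _ => T)) x = Bk M x ∧
  IsoOn T (Glu M (fun _ : Unit => Bk M x) (fun _ => T)) (Bk M x) (Bk M x) (idOn (Bk M x)) ∧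
  ∀ i t, (∀ j, t j ∈ Bk M x) →
    (Glu M (fun _ : Unit => Bk M x) (fun _ => T)).2 i t = T.2 i t

def S_BKV : Prop := ∀ (a : ℕ → ℕ) (k : ℕ → Bool) (α : Ordinal.{0}) (K : Set (St a))
  (V2 : RS a → Prop), GK k α K → VC V2 → (∀ M ∈ K, BV k V2 M) → ∀ M ∈ K, ∀ x,
  (Bk M x).Infinite → ∃ f : ℕ → St a × Set ℕ, ∀ (N : St a) (Y : Set ℕ),
    BF M N (Bk M x) Y α ∅ → ∃ n, IsoOn (f n).1 N (f n).2 Y ∅

def S_BKC : Prop := ∀ (a : ℕ → ℕ) (k : ℕ → Bool) (α : Ordinal.{0}) (K : Set (St a))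
  (V2 : RS a → Prop), GK k α K → VC V2 → (∀ M ∈ K, BV k V2 M) →
  ∃ f : ℕ → St a × Set ℕ, ∀ M ∈ K, ∀ x, ∃ n, IsoOn (f n).1 M (f n).2 (Bk M x) ∅

def S_STD : Prop := ∀ (a : ℕ → ℕ) (k : ℕ → Bool) (K : Set (St a)), (∀ M ∈ K, ER k M) →
  (∃ f : ℕ → St a × Set ℕ, ∀ M ∈ K, ∀ x, ∃ n, IsoOn (f n).1 M (f n).2 (Bk M x) ∅) →
  ∃ f c A, Std k K f c A

/-- Facts on the coding. -/
def S_BLP : Prop := ∀ (a : ℕ → ℕ) (c : ℕ → ℕ) (y : US a), (∀ m, en c y m ∈ Ps c y) ∧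
  Function.Injective (en c y) ∧ (∀ p ∈ Ps c y, ∃ m, en c y m = p) ∧
  (∀ j, Nat.pair j 0 ∈ Ps c y) ∧ ∀ m, en c y m ≤ Nat.pair m 0

def S_BLB : Prop := ∀ (a : ℕ → ℕ) (k : ℕ → Bool) (f : ℕ → St a) (c : ℕ → ℕ) (y : US a),
  (∀ i, 0 < a i) → (∀ n u v, (f n).1 u v = true) → (∀ n i t, k i = true → (f n).2 i t = false) →
  ∀ u, IsoOn (f (ty y (bk c y u))) (bl k (Bl k f c y)) (Car c (ty y (bk c y u)))
    (Bk (Bl k f c y) u) ∅

def S_BLI : Prop := ∀ (a : ℕ → ℕ) (k : ℕ → Bool) (f : ℕ → St a) (c : ℕ → ℕ) (y y' : US a),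
  UIso y y' → IsoOn (Bl k f c y) (Bl k f c y') univ univ ∅

def S_BLR : Prop := ∀ (a : ℕ → ℕ) (k : ℕ → Bool) (K : Set (St a)) (f : ℕ → St a) (c : ℕ → ℕ)
  (A : Set ℕ) (y y' : US a), (∀ i, 0 < a i) → Std k K f c A → Gd A y → Gd A y' →
  rst k true y.1 = y.1 → rst k true y'.1 = y'.1 →
  IsoOn (Bl k f c y) (Bl k f c y') univ univ ∅ → UIso y y'

def S_BLX : Prop := ∀ (a : ℕ → ℕ) (k : ℕ → Bool) (K : Set (St a)) (f : ℕ → St a) (c : ℕ → ℕ)
  (A : Set ℕ), (∀ i, 0 < a i) → Std k K f c A → ∀ M ∈ K, ER k M → ∀ e, Eb M e →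
  ∃ y : US a, Gd A y ∧ rst k true y.1 = y.1 ∧ IsoOn (Bl k f c y) M univ univ ∅

def S_BLV : Prop := ∀ (a : ℕ → ℕ) (k : ℕ → Bool) (V1 : RS a → Prop) (f : ℕ → St a) (c : ℕ → ℕ)
  (y : US a), IV k V1 (Bl k f c y) → rst k true y.1 = y.1 → V1 y.1

def S_BLM : Prop := ∀ (a : ℕ → ℕ) (k : ℕ → Bool) (f : ℕ → St a) (c : ℕ → ℕ),
  Measurable (Bl k f c)

def S_BLC : Prop := ∀ (a : ℕ → ℕ) (k : ℕ → Bool) (f : ℕ → St a) (c : ℕ → ℕ)
  (g : (ℕ → Bool) → US a), Continuous g → (∀ d j, ∃ n, (g d).2 n j = true) →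
  Continuous fun d => Bl k f c (g d)

def S_EFIN : Prop := ∀ (a : ℕ → ℕ) (k : ℕ → Bool) (M : St a), ER k M →
  (∃ e, Eb M e) ∨ ∃ s, Fb M s

def S_FINB : Prop := ∀ (a : ℕ → ℕ) (k : ℕ → Bool) (α : Ordinal.{0}) (K : Set (St a))
  (f : ℕ → St a) (c : ℕ → ℕ) (A : Set ℕ), GK k α K → Std k K f c A →
  ∃ h : ℕ → St a, ∀ M ∈ K, (∃ s, Fb M s) → ∃ n, IsoOn (h n) M univ univ ∅

def S_SMAIN : Prop := ∀ (a : ℕ → ℕ) (k : ℕ → Bool) (α : Ordinal.{0}) (K : Set (St a))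
  (V1 V2 : RS a → Prop), GK k α K → VCu V1 → VC V2 → (∀ M ∈ K, BV k V2 M) →
  (∀ M ∈ K, IV k V1 M) → ∃ h : ℕ → St a, ∀ M ∈ K, ∃ n, IsoOn (h n) M univ univ ∅

def S_SFINAL : Prop := ∀ (a : ℕ → ℕ) (k : ℕ → Bool), (∀ i, 0 < a i) →
  ∀ V1 V2 : RS a → Prop, VCu V1 → VC V2 → ∀ B : Set (St a), MeasurableSet B →
  (∀ M N : St a, ∀ σ : Equiv.Perm ℕ, (∀ x y, N.1 (σ x) (σ y) = M.1 x y) →
    (∀ (i : ℕ) (v : Fin (a i) → ℕ), N.2 i (⇑σ ∘ v) = M.2 i v) → (M ∈ B ↔ N ∈ B)) →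
  (∀ M ∈ B, ER k M ∧ BV k V2 M ∧ IV k V1 M) →
  (∃ f : ℕ → St a, ∀ M ∈ B, ∃ n, ∃ σ : Equiv.Perm ℕ,
    (∀ x y, M.1 (σ x) (σ y) = (f n).1 x y) ∧
    ∀ (i : ℕ) (v : Fin (a i) → ℕ), M.2 i (⇑σ ∘ v) = (f n).2 i v) ∨
  (∃ g : (ℕ → Bool) → St a, Continuous g ∧ (∀ c, g c ∈ B) ∧
    ∀ c d : ℕ → Bool, (∃ σ : Equiv.Perm ℕ, (∀ x y, (g d).1 (σ x) (σ y) = (g c).1 x y) ∧
      ∀ (i : ℕ) (v : Fin (a i) → ℕ), (g d).2 i (⇑σ ∘ v) = (g c).2 i v) → c = d)

/-! ### Corollaries -/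

/-- Structures without an infinite clique subdivision, with unary predicates. -/
def S_CSU : Prop := ∀ a : ℕ → ℕ, VCu (fun x : RS a => ¬ HasCliqueSubdivision (gaifman x)) ∧
  VC (fun x : RS a => ¬ HasCliqueSubdivision (gaifman x))

/-- Completely decomposable structures, with unary predicates. -/
def S_CDU : Prop := VCu (fun x : RS (fun _ => 2) => VD.Dec fun i u v => x i ![u, v]) ∧
  VC (fun x : RS (fun _ => 2) => VD.Dec fun i u v => x i ![u, v])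

end Pool.Agent.H533R2.VS
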