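import Mathlib
import Pool.Agent.H533R2.VS.Spec
import Pool.Agent.H899R2.VP.Borel

set_option autoImplicit false

/-!
# Structures without an infinite clique subdivision, with unary predicates
-/

namespace Pool.Agent.H533R2.VS

open Set
open Pool.Agent.H899R2.VP (St gaifman HasCliqueSubdivision vaught_borel)
open Pool.Agent.H533R2.VO (RS RIso VC Dich)

/-- The arities of the coded structures. -/
def csu_ar (a : ℕ → ℕ) (n : ℕ) : ℕ := if n % 2 = 0 then a (n / 2) else 1

theorem csu_even (a : ℕ → ℕ) (i : ℕ) : csu_ar a (2 * i) = a i := by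
  unfold csu_ar
  rw [if_pos (by omega), show 2 * i / 2 = i by omega]

theorem csu_odd (a : ℕ → ℕ) (i : ℕ) : csu_ar a (2 * i + 1) = 1 := by
  unfold csu_ar
  rw [if_neg (by omega)]

theorem csu_e1 (a : ℕ → ℕ) (n : ℕ) (h : n % 2 = 0) : a (n / 2) = csu_ar a n := by
  unfold csu_ar
  rw [if_pos h]

theorem csu_e2 (a : ℕ → ℕ) (n : ℕ) (h : ¬ n % 2 = 0) : 1 = csu_ar a n := by
  unfold csu_ar
  rw [if_neg h]

/-- decoding -/
def csu_dec {a : ℕ → ℕ} (z : RS (csu_ar a)) : US a :=
  (fun i v => z (2 * i) (fun j => v (Fin.cast (csu_even a i) j)),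
   fun i u => z (2 * i + 1) (fun _ => u))

/-- encoding -/
def csu_enc {a : ℕ → ℕ} (x : US a) : RS (csu_ar a) := fun n t =>
  if h : n % 2 = 0 then x.1 (n / 2) (fun j => t (Fin.cast (csu_e1 a n h) j))
  else x.2 (n / 2) (t (Fin.cast (csu_e2 a n h) 0))

theorem csu_cast {a : ℕ → ℕ} (x : RS a) {n i : ℕ} (h : n = i) (v : Fin (a i) → ℕ) :
    x n (fun j => v (Fin.cast (congrArg a h) j)) = x i v := by
  subst h
  rfl

theorem csu_dec_enc {a : ℕ → ℕ} (x : US a) : csu_dec (csu_enc x) = x := by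
  refine Prod.ext ?_ ?_
  · funext i v
    change csu_enc x (2 * i) (fun j => v (Fin.cast (csu_even a i) j)) = x.1 i v
    unfold csu_enc
    rw [dif_pos (show 2 * i % 2 = 0 by omega)]
    exact csu_cast x.1 (show 2 * i / 2 = i by omega) v
  · funext i u
    change csu_enc x (2 * i + 1) (fun _ => u) = x.2 i u
    unfold csu_enc
    rw [dif_neg (show ¬ (2 * i + 1) % 2 = 0 by omega)]
    change x.2 ((2 * i + 1) / 2) u = x.2 i u
    rw [show (2 * i + 1) / 2 = i by omega]

theorem csu_dec_cont {a : ℕ → ℕ} : Continuous (csu_dec : RS (csu_ar a) → US a) := by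
  refine Continuous.prodMk ?_ ?_
  · exact continuous_pi fun i => continuous_pi fun v =>
      (continuous_apply _).comp (continuous_apply (2 * i))
  · exact continuous_pi fun i => continuous_pi fun u =>
      (continuous_apply _).comp (continuous_apply (2 * i + 1))

theorem csu_dec_meas {a : ℕ → ℕ} : Measurable (csu_dec : RS (csu_ar a) → US a) := by
  refine Measurable.prodMk ?_ ?_
  · exact measurable_pi_lambda _ fun i => measurable_pi_lambda _ fun v =>
      (measurable_pi_apply _).comp (measurable_pi_apply (2 * i))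
  · exact measurable_pi_lambda _ fun i => measurable_pi_lambda _ fun u =>
      (measurable_pi_apply _).comp (measurable_pi_apply (2 * i + 1))

theorem csu_iso_dec {a : ℕ → ℕ} (z z' : RS (csu_ar a)) (σ : Equiv.Perm ℕ)
    (h : ∀ (n : ℕ) (v : Fin (csu_ar a n) → ℕ), z' n (⇑σ ∘ v) = z n v) :
    UIso (csu_dec z) (csu_dec z') :=
  ⟨σ, fun i v => h (2 * i) (fun j => v (Fin.cast (csu_even a i) j)),
    fun i u => h (2 * i + 1) (fun _ => u)⟩

theorem csu_iso_undec {a : ℕ → ℕ} (z z' : RS (csu_ar a)) (h : UIso (csu_dec z) (csu_dec z')) :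
    ∃ σ : Equiv.Perm ℕ, ∀ (n : ℕ) (v : Fin (csu_ar a n) → ℕ), z' n (⇑σ ∘ v) = z n v := by
  obtain ⟨σ, h1, h2⟩ := h
  refine ⟨σ, fun n v => ?_⟩
  obtain ⟨i, rfl | rfl⟩ := Nat.even_or_odd' n
  · exact h1 i (fun j => v (Fin.cast (csu_even a i).symm j))
  · have hv : v = fun _ => v (Fin.cast (csu_odd a i).symm 0) := by
      funext j
      congr 1
      apply Fin.ext
      have := j.2
      have h3 := csu_odd a i
      change (j : ℕ) = 0
      omega
    rw [hv]
    exact h2 i _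

theorem csu_gaifman {a : ℕ → ℕ} (z : RS (csu_ar a)) : gaifman z = gaifman (csu_dec z).1 := by
  ext x y
  constructor
  · rintro ⟨hxy, n, v, hv, ⟨j, hj⟩, ⟨l, hl⟩⟩
    refine ⟨hxy, ?_⟩
    obtain ⟨i, rfl | rfl⟩ := Nat.even_or_odd' n
    · exact ⟨i, fun j => v (Fin.cast (csu_even a i).symm j), hv,
        ⟨Fin.cast (csu_even a i) j, hj⟩, ⟨Fin.cast (csu_even a i) l, hl⟩⟩
    · exfalso
      apply hxy
      rw [← hj, ← hl]
      congr 1
      apply Fin.ext
      have h1 := j.2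
      have h2 := l.2
      have h3 := csu_odd a i
      omega
  · rintro ⟨hxy, i, v, hv, ⟨j, hj⟩, ⟨l, hl⟩⟩
    exact ⟨hxy, 2 * i, fun j => v (Fin.cast (csu_even a i) j), hv,
      ⟨Fin.cast (csu_even a i).symm j, hj⟩, ⟨Fin.cast (csu_even a i).symm l, hl⟩⟩

theorem t_CSU : S_CSU := by
  intro a
  refine ⟨?_, ?_⟩
  · intro B hB hinv hV
    have hmem : ∀ z, z ∈ (csu_dec ⁻¹' B : Set (RS (csu_ar a))) ↔ csu_dec z ∈ B := fun z => Iff.rfl
    rcases vaught_borel (csu_ar a) (csu_dec ⁻¹' B) (csu_dec_meas hB)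
      (fun x y σ h => hinv _ _ (csu_iso_dec x y σ h))
      (fun z hz => by rw [csu_gaifman]; exact hV _ hz) with ⟨f, hf⟩ | ⟨g, hg, hgB, hginj⟩
    · left
      refine ⟨fun n => csu_dec (f n), fun x hx => ?_⟩
      obtain ⟨n, σ, hσ⟩ := hf (csu_enc x) (by rw [hmem, csu_dec_enc]; exact hx)
      refine ⟨n, ?_⟩
      have := csu_iso_dec (f n) (csu_enc x) σ hσ
      rwa [csu_dec_enc] at this
    · right
      exact ⟨fun c => csu_dec (g c), csu_dec_cont.comp hg, hgB,
        fun c d h => hginj c d (csu_iso_undec _ _ h)⟩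
  · intro B hB hinv hV
    exact vaught_borel a B hB (fun x y σ h => hinv x y ⟨σ, h⟩) hV

end Pool.Agent.H533R2.VS
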