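import Pool.Agent.H533R2.VS.Spec
import Pool.Agent.H899R2.VP.Dst

set_option autoImplicit false

/-!
# Members with finitely many blocks
-/

namespace Pool.Agent.H533R2.VS

open Set
open Pool.Agent.H899R2.VP
open Pool.Agent.H533R2.VO (Glu RIso VC Dich put)

theorem finb_pair {a : ℕ → ℕ} {k : ℕ → Bool} {M : St a} (hE : ER k M) {s : List ℕ}
    (hs : s.Pairwise (fun x y => M.1 x y = false)) {i j : ℕ} (hi : i < s.length)
    (hj : j < s.length) (h : M.1 (s.getD i 0) (s.getD j 0) = true) : i = j := by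
  rw [List.pairwise_iff_getElem] at hs
  rw [List.getD_eq_getElem _ _ hi, List.getD_eq_getElem _ _ hj] at h
  rcases lt_trichotomy i j with hij | hij | hij
  · have := hs i j hi hj hij
    rw [this] at h
    exact absurd h (by decide)
  · exact hij
  · have := hs j i hj hi hij
    rw [hE.symm _ _ h] at this
    exact absurd this (by decide)

theorem finb_cov {a : ℕ → ℕ} {M : St a} {s t : List ℕ} (hl : s.length = t.length)
    (hs : ∀ z, ∃ x ∈ s, M.1 x z = true) (z : ℕ) :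
    ∃ w ∈ zipSet s t, M.1 w.1 z = true := by
  obtain ⟨x, hx, hxz⟩ := hs z
  obtain ⟨i, hi, rfl⟩ := List.mem_iff_getElem.1 hx
  refine ⟨(s.getD i 0, t.getD i 0), (Dst.mem_zipSet_iff hl).2 ⟨i, hi, rfl⟩, ?_⟩
  rw [List.getD_eq_getElem _ _ hi]
  exact hxz

theorem finb_cov' {a : ℕ → ℕ} {N : St a} {s t : List ℕ} (hl : s.length = t.length)
    (ht : ∀ z, ∃ x ∈ t, N.1 x z = true) (z : ℕ) :
    ∃ w ∈ zipSet s t, N.1 w.2 z = true := by
  obtain ⟨x, hx, hxz⟩ := ht z
  obtain ⟨i, hi, rfl⟩ := List.mem_iff_getElem.1 hx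
  refine ⟨(s.getD i 0, t.getD i 0), (Dst.mem_zipSet_iff hl).2 ⟨i, hl ▸ hi, rfl⟩, ?_⟩
  show N.1 (t.getD i 0) z = true
  rw [List.getD_eq_getElem _ _ hi]
  exact hxz

/-- glueing of isomorphisms of the blocks -/
theorem finb_glue {a : ℕ → ℕ} {k : ℕ → Bool} {M N : St a} (hpos : ∀ i, 0 < a i) (hM : ER k M)
    (hN : ER k N) {P : Set (ℕ × ℕ)} (hP : PIso M N P)
    (h1 : ∀ w ∈ P, ∀ w' ∈ P, M.1 w.1 w'.1 = true → w = w')
    (h2 : ∀ z, ∃ w ∈ P, M.1 w.1 z = true) (h3 : ∀ z, ∃ w ∈ P, N.1 w.2 z = true)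
    (h4 : ∀ w ∈ P, IsoOn (bl k M) (bl k N) (Bk M w.1) (Bk N w.2) ∅) :
    IsoOn M N univ univ ∅ := by
  classical
  have h1' : ∀ w ∈ P, ∀ w' ∈ P, N.1 w.2 w'.2 = true → w = w' := by
    intro w hw w' hw' h
    apply h1 w hw w' hw'
    rw [hP.2.1 w hw w' hw']
    exact h
  choose! r hr1 hr2 hr3 hr4 hr5 using h4
  -- equality of the values of the equivalence relation
  have eqM : ∀ x y u v, M.1 x u = true → M.1 y v = true → M.1 u v = M.1 x y := by
    intro x y u v hx hy
    rw [Bool.eq_iff_iff]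
    constructor
    · intro h
      exact hM.trans _ _ _ hx (hM.trans _ _ _ h (hM.symm _ _ hy))
    · intro h
      exact hM.trans _ _ _ (hM.symm _ _ hx) (hM.trans _ _ _ h hy)
  have eqN : ∀ x y u v, N.1 x u = true → N.1 y v = true → N.1 u v = N.1 x y := by
    intro x y u v hx hy
    rw [Bool.eq_iff_iff]
    constructor
    · intro h
      exact hN.trans _ _ _ hx (hN.trans _ _ _ h (hN.symm _ _ hy))
    · intro h
      exact hN.trans _ _ _ (hN.symm _ _ hx) (hN.trans _ _ _ h hy)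
  have mM : ∀ w ∈ P, ∀ u ∈ r w, M.1 w.1 u.1 = true := fun w hw u hu => (hr2 w hw hu).1
  have mN : ∀ w ∈ P, ∀ u ∈ r w, N.1 w.2 u.2 = true := fun w hw u hu => (hr2 w hw hu).2
  refine ⟨{u | ∃ w ∈ P, u ∈ r w}, empty_subset _, fun u _ => ⟨mem_univ _, mem_univ _⟩,
    ⟨?_, ?_, ?_⟩, ?_, ?_⟩
  · rintro u ⟨w, hw, hu⟩ v ⟨w', hw', hv⟩
    constructor
    · intro h
      have e1 : M.1 w.1 w'.1 = true := by
        rw [← eqM w.1 w'.1 u.1 v.1 (mM w hw u hu) (mM w' hw' v hv), h]
        exact hM.refl _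
      have e2 := h1 w hw w' hw' e1
      subst e2
      exact ((hr3 w hw).1 u hu v hv).1 h
    · intro h
      have e1 : N.1 w.2 w'.2 = true := by
        rw [← eqN w.2 w'.2 u.2 v.2 (mN w hw u hu) (mN w' hw' v hv), h]
        exact hN.refl _
      have e2 := h1' w hw w' hw' e1
      subst e2
      exact ((hr3 w hw).1 u hu v hv).2 h
  · rintro u ⟨w, hw, hu⟩ v ⟨w', hw', hv⟩
    rw [eqM w.1 w'.1 u.1 v.1 (mM w hw u hu) (mM w' hw' v hv),
      eqN w.2 w'.2 u.2 v.2 (mN w hw u hu) (mN w' hw' v hv)]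
    exact hP.2.1 w hw w' hw'
  · intro i tt htt
    choose w hw hu using htt
    by_cases hk : k i = true
    · have e1 : M.2 i (fun j => (w j).1) = M.2 i (fun j => (tt j).1) :=
        hM.across i hk _ _ fun j => mM (w j) (hw j) (tt j) (hu j)
      have e2 : N.2 i (fun j => (w j).2) = N.2 i (fun j => (tt j).2) :=
        hN.across i hk _ _ fun j => mN (w j) (hw j) (tt j) (hu j)
      rw [← e1, ← e2]
      exact hP.2.2 i w hw
    · have hk' : k i = false := by simpa using hk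
      by_cases hall : ∀ j l, w j = w l
      · have e1 := (hr3 (w ⟨0, hpos i⟩) (hw _)).2.2 i tt (fun j => by
          rw [hall ⟨0, hpos i⟩ j]
          exact hu j)
        simp only [bl, rst, hk', if_true] at e1
        exact e1
      · push Not at hall
        obtain ⟨j, l, hjl⟩ := hall
        have e1 : M.2 i (fun j => (tt j).1) = false := by
          by_contra h
          rw [Bool.not_eq_false] at h
          have h5 := hM.inside i hk' _ h j l
          rw [eqM (w j).1 (w l).1 _ _ (mM _ (hw j) _ (hu j)) (mM _ (hw l) _ (hu l))] at h5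
          exact hjl (h1 _ (hw j) _ (hw l) h5)
        have e2 : N.2 i (fun j => (tt j).2) = false := by
          by_contra h
          rw [Bool.not_eq_false] at h
          have h5 := hN.inside i hk' _ h j l
          rw [eqN (w j).2 (w l).2 _ _ (mN _ (hw j) _ (hu j)) (mN _ (hw l) _ (hu l))] at h5
          exact hjl (h1' _ (hw j) _ (hw l) h5)
        rw [e1, e2]
  · intro x _
    obtain ⟨w, hw, hx⟩ := h2 x
    obtain ⟨y, hy⟩ := hr4 w hw x hx
    exact ⟨y, w, hw, hy⟩
  · intro y _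
    obtain ⟨w, hw, hy⟩ := h3 y
    obtain ⟨x, hx⟩ := hr5 w hw y hy
    exact ⟨x, w, hw, hx⟩

theorem t_FINB : S_FINB := by
  classical
  intro a k α K f c A hK hS
  obtain ⟨L, hL⟩ := labels hK.meas hK.few 0 (by
    exact lt_of_le_of_lt zero_le hK.lt)
  have hex : ∀ (M : St a) (x : ℕ), ∃ n, M ∈ K → IsoOn (f n) (bl k M) (Car c n) (Bk M x) ∅ := by
    intro M x
    by_cases hM : M ∈ K
    · obtain ⟨n, _, hn⟩ := hS.ex M hM x
      exact ⟨n, fun _ => hn⟩
    · exact ⟨0, fun h => absurd h hM⟩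
  choose τ hτ using hex
  have key : ∀ M ∈ K, ∀ N ∈ K, ∀ s t, Fb M s → Fb N t → L M s = L N t →
      s.map (τ M) = t.map (τ N) → IsoOn M N univ univ ∅ := by
    intro M hM N hN s t hs ht hLe hτe
    have hl : s.length = t.length := by
      have := congrArg List.length hτe
      simpa using this
    have hP : PIso M N (zipSet s t) := (hL M hM N hN s t hl hLe).piso
    refine finb_glue hK.pos (hK.er M hM) (hK.er N hN) hP ?_ (finb_cov hl hs.2)
      (finb_cov' hl ht.2) ?_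
    · intro w hw w' hw' h
      obtain ⟨i, hi, rfl⟩ := (Dst.mem_zipSet_iff hl).1 hw
      obtain ⟨j, hj, rfl⟩ := (Dst.mem_zipSet_iff hl).1 hw'
      have := finb_pair (hK.er M hM) hs.1 hi hj h
      subst this
      rfl
    · intro w hw
      obtain ⟨i, hi, rfl⟩ := (Dst.mem_zipSet_iff hl).1 hw
      have e : τ M (s.getD i 0) = τ N (t.getD i 0) := by
        have h5 : (s.map (τ M))[i]? = (t.map (τ N))[i]? := by rw [hτe]
        rw [List.getElem?_map, List.getElem?_map, List.getElem?_eq_getElem hi,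
          List.getElem?_eq_getElem (hl ▸ hi)] at h5
        rw [List.getD_eq_getElem _ _ hi, List.getD_eq_getElem _ _ (hl ▸ hi)]
        simpa using h5
      have i1 := hτ M (s.getD i 0) hM
      have i2 := hτ N (t.getD i 0) hN
      rw [← e] at i2
      have i3 := i1.symm.trans i2
      exact i3.mono (empty_subset _)
  -- representatives
  have hrep : ∀ j : ℕ × List ℕ, ∃ M : St a, (∃ M' ∈ K, ∃ s, Fb M' s ∧ (L M' s, s.map (τ M')) = j) →
      M ∈ K ∧ ∃ s, Fb M s ∧ (L M s, s.map (τ M)) = j := by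
    intro j
    by_cases h : ∃ M' ∈ K, ∃ s, Fb M' s ∧ (L M' s, s.map (τ M')) = j
    · obtain ⟨M', hM', s, hs, hj⟩ := h
      exact ⟨M', fun _ => ⟨hM', s, hs, hj⟩⟩
    · exact ⟨(fun _ _ => false, fun _ _ => false), fun h' => absurd h' h⟩
  choose rep hrep using hrep
  obtain ⟨en', hen'⟩ := exists_surjective_nat (ℕ × List ℕ)
  refine ⟨fun n => rep (en' n), ?_⟩
  rintro M hM ⟨s, hs⟩
  obtain ⟨n, hn⟩ := hen' (L M s, s.map (τ M))
  refine ⟨n, ?_⟩
  obtain ⟨h1, s', hs', h2⟩ := hrep (L M s, s.map (τ M)) ⟨M, hM, s, hs, rfl⟩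
  show IsoOn (rep (en' n)) M univ univ ∅
  rw [hn]
  rw [Prod.mk.injEq] at h2
  exact key _ h1 M hM s' s hs' hs h2.1 h2.2

end Pool.Agent.H533R2.VS
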