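import Pool.Agent.H533R2.VS.Spec3
import Pool.Agent.H533R2.VS.TRA
import Pool.Agent.H533R2.VO.All

set_option autoImplicit false

/-!
# Closure under ordered sums
-/

namespace Pool.Agent.H533R2.VS

open Set
open Pool.Agent.H899R2.VP (St Adj PIso BF IsoOn idOn inv comp zipSet gaifman HasCliqueSubdivision)
open Pool.Agent.H533R2.VO (Glu RS RIso VC Dich put)

theorem t_ORD (hCL1 : S_CL1) : S_ORD := by
  intro a ε hε V hV B hBm hBi hBV
  refine tra_main hε B hBm hBi fun B' hm hi hB' => ?_
  refine Pool.Agent.H533R2.VO.final (a1 a) (fun R => V (evn R)) (hCL1 a V hV) B' hm hi ?_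
  intro M hM
  obtain ⟨y, hy, rfl⟩ := hB' M hM
  have h := hBV y hy
  have key : ∀ u v, ¬ Adj (phi ε y) u v ↔ y.1 ε (p2 u v) = false := by
    intro u v
    unfold Adj
    show ¬ y.1 ε (p2 u v) = true ↔ _
    cases y.1 ε (p2 u v) <;> simp
  have key' : ∀ u v, Adj (phi ε y) u v ↔ y.1 ε (p2 u v) = true := fun u v => Iff.rfl
  refine ⟨⟨fun u => (key u u).2 (h.irrefl u), h.trans, h.weak, ?_⟩, ?_⟩
  · intro n t ht j l
    rw [key]
    obtain ⟨i, hi' | hi'⟩ := Nat.even_or_odd' n
    · subst hi'
      have ht' : cmb (era ε y.1) y.2 (2 * i) t = true := ht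
      rw [cmb_even] at ht'
      unfold era at ht'
      by_cases hie : i = ε
      · rw [if_pos hie] at ht'
        exact absurd ht' (by simp)
      · rw [if_neg hie] at ht'
        exact h.inside i hie _ ht' (Fin.cast (a1_even a i) j) (Fin.cast (a1_even a i) l)
    · subst hi'
      have h1 := a1_odd a i
      have hj : j = l := by
        apply Fin.ext
        have := j.isLt
        have := l.isLt
        omega
      rw [hj]
      exact h.irrefl _
  · intro u e he hz
    have h1 := h.blocks u e he (fun z => by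
      rw [← hz z, Pool.Agent.H533R2.VO.mem_Ic, key, key])
    have h2 : evn (fun i v => (phi ε y).2 i (e ∘ v)) =
        (fun i v => if i ≠ ε then y.1 i (e ∘ v) else false) := by
      funext i v
      show cmb (era ε y.1) y.2 (2 * i) _ = _
      rw [cmb_even]
      unfold era
      by_cases hie : i = ε
      · rw [if_pos hie, if_neg (fun hh => hh hie)]
      · rw [if_neg hie, if_pos hie]
        rfl
    show V (evn (fun i v => (phi ε y).2 i (e ∘ v)))
    rw [h2]
    exact h1

end Pool.Agent.H533R2.VS
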