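import Pool.Agent.H533R2.VS.Spec
import Pool.Agent.H533R2.VO.PUT

set_option autoImplicit false

/-! PUTK: transport of a block (helper415). -/

namespace Pool.Agent.H533R2.VS

open Set
open Pool.Agent.H899R2.VP
open Pool.Agent.H533R2.VO (Glu RIso VC Dich put RS)

theorem t_PUTK : S_PUTK := by
  intro a k q e he
  obtain ⟨_, _, h3, h4⟩ := Pool.Agent.H533R2.VO.t_PUT a e he
  refine ⟨fun R => ?_, fun R i v hk => ?_, ?_⟩
  · refine ⟨{w | w.2 = e w.1}, Subset.rfl, ?_, ⟨?_, ?_, ?_⟩, ?_, ?_⟩
    · rintro ⟨x, y⟩ h
      have h1 : y = e x := h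
      exact ⟨mem_univ _, x, h1.symm⟩
    · rintro ⟨x, y⟩ h ⟨x', y'⟩ h'
      have h1 : y = e x := h
      have h2 : y' = e x' := h'
      subst h1 h2
      exact ⟨fun h => congrArg e h, fun h => he h⟩
    · intro u _ v _
      rfl
    · intro i t ht
      have h1 : (fun j => (t j).2) = e ∘ fun j => (t j).1 := by
        funext j
        exact ht j
      change (if k i = true then q i else R i (fun j => (t j).1)) =
        (if k i = true then q i else (put e R).2 i (fun j => (t j).2))
      rw [h1, h3]
    · intro x _
      exact ⟨e x, rfl⟩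
    · rintro y ⟨x, rfl⟩
      exact ⟨x, rfl⟩
  · change (if k i = true then q i else (put e R).2 i (e ∘ v)) = R i v
    rw [if_neg (by rw [hk]; exact Bool.false_ne_true), h3]
  · refine Continuous.prodMk continuous_const ?_
    refine continuous_pi fun i => continuous_pi fun t => ?_
    by_cases hk : k i = true
    · simp only [hk, if_true]
      exact continuous_const
    · simp only [hk, if_false]
      exact (continuous_apply t).comp ((continuous_apply i).comp (continuous_snd.comp h4))

end Pool.Agent.H533R2.VS
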