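import Pool.Agent.H533R2.VS.Spec

set_option autoImplicit false

namespace Pool.Agent.H533R2.VS

open Set
open Pool.Agent.H899R2.VP
open Pool.Agent.H533R2.VO (Glu iso_congr Glu_adj Glu_adj' Glu_rel)

theorem t_RPF : S_RPF := by
  intro a k M T x hpos hER hT
  have hJ : ∀ i j : Unit, i ≠ j → Disjoint ((fun _ : Unit => Bk M x) i)
      ((fun _ : Unit => Bk M x) j) := fun i j h => absurd (Subsingleton.elim i j) h
  have hxx : x ∈ Bk M x := hER.refl x
  have hadj : ∀ u ∈ Bk M x, ∀ v ∈ Bk M x,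
      (Glu M (fun _ : Unit => Bk M x) (fun _ => T)).1 u v = T.1 u v := by
    intro u hu v hv
    have h1 := Glu_adj (M := M) (T := fun _ : Unit => T) hJ (j := ()) hu hv
    exact Bool.eq_iff_iff.2 h1
  have hrel : ∀ i t, (∀ j, t j ∈ Bk M x) →
      (Glu M (fun _ : Unit => Bk M x) (fun _ => T)).2 i t = T.2 i t := by
    intro i t ht
    exact Glu_rel (M := M) (T := fun _ : Unit => T) hJ (j := ()) ⟨⟨0, hpos i⟩⟩ ht
  refine ⟨?_, ?_, hrel⟩
  · ext z
    by_cases hz : z ∈ Bk M x
    · refine ⟨fun _ => hz, fun _ => ?_⟩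
      show (Glu M (fun _ : Unit => Bk M x) (fun _ => T)).1 x z = true
      rw [hadj x hxx z hz]
      exact hT x z
    · refine ⟨fun h => ?_, fun h => absurd h hz⟩
      have h1 := (Glu_adj' (M := M) (J := fun _ : Unit => Bk M x) (T := fun _ : Unit => T)
        (x := x) (y := z) (fun _ _ => hz)).1 h
      exact absurd h1 hz
  · exact iso_congr (fun u hu v hv => (hadj u hu v hv).symm) (fun i t ht => (hrel i t ht).symm)

end Pool.Agent.H533R2.VS
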