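import Pool.Agent.H533R2.VS.Spec
import Pool.Agent.H533R2.VO.FINAL

set_option autoImplicit false

/-! Task SFINAL. -/

namespace Pool.Agent.H533R2.VS

open Set
open Pool.Agent.H899R2.VP (St Adj PIso BF IsoOn idOn inv comp zipSet gaifman HasCliqueSubdivision)
open Pool.Agent.H533R2.VO (Glu RS RIso VC Dich put)

theorem t_SFINAL (h : S_SMAIN) : S_SFINAL := by
  intro a k hpos V1 V2 hV1 hV2 B hBm hBi hB
  by_cases hg : ∃ g : (ℕ → Bool) → St a, Continuous g ∧ (∀ c, g c ∈ B) ∧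
    ∀ c d : ℕ → Bool, (∃ σ : Equiv.Perm ℕ, (∀ x y, (g d).1 (σ x) (σ y) = (g c).1 x y) ∧
      ∀ (i : ℕ) (v : Fin (a i) → ℕ), (g d).2 i (⇑σ ∘ v) = (g c).2 i v) → c = d
  · exact Or.inr hg
  left
  have hKinv : ∀ M ∈ B, ∀ N : St a, IsoOn M N univ univ ∅ → N ∈ B := by
    intro M hM N hMN
    obtain ⟨σ, hσ1, hσ2⟩ := VO.final_perm_of_iso hMN
    exact (hBi M N σ hσ1 hσ2).1 hM
  obtain ⟨α₀, hα₀, hcl⟩ := Pool.Agent.H899R2.VP.closed_rank hBm hKinv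
  have hω : Ordinal.omega0 < Ordinal.omega.{0} 1 := by
    rw [← Ordinal.omega_zero]; exact Ordinal.omega_lt_omega.2 one_pos
  have hG : GK k (max α₀ Ordinal.omega0) B := by
    refine ⟨hpos, hBm, max_lt hα₀ hω, le_max_right _ _, ?_, fun M hM => (hB M hM).1, ?_⟩
    · exact fun M hM N hb => hcl M hM N (hb.mono (le_max_left _ _))
    · rintro ⟨g, hgc, hg1, hg2⟩
      refine hg ⟨g, hgc, hg1, ?_⟩
      rintro c d ⟨σ, hσ1, hσ2⟩
      exact hg2 c d (VO.final_iso_of_perm σ hσ1 hσ2)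
  obtain ⟨f, hf⟩ := h a k _ B V1 V2 hG hV1 hV2 (fun M hM => (hB M hM).2.1)
    (fun M hM => (hB M hM).2.2)
  refine ⟨f, fun M hM => ?_⟩
  obtain ⟨n, hn⟩ := hf M hM
  obtain ⟨σ, hσ1, hσ2⟩ := VO.final_perm_of_iso hn
  exact ⟨n, σ, hσ1, hσ2⟩

end Pool.Agent.H533R2.VS
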