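import Pool.Agent.H533R2.VS.Spec

set_option autoImplicit false

/-! Task SMAIN: countably many types. -/

namespace Pool.Agent.H533R2.VS

open Set
open Pool.Agent.H899R2.VP
open Pool.Agent.H533R2.VO (Glu RIso VC Dich put iso_symm0 iso_trans0 iso_refl0)

theorem smain_meas_coord {a : ℕ → ℕ} (n j : ℕ) :
    MeasurableSet {y : US a | y.2 n j = true} := by
  have h1 : Measurable fun y : US a => y.2 n j :=
    (measurable_pi_apply j).comp ((measurable_pi_apply n).comp measurable_snd)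
  exact h1 (measurableSet_singleton true)

theorem smain_meas_coord1 {a : ℕ → ℕ} (i : ℕ) (v : Fin (a i) → ℕ) (b : Bool) :
    MeasurableSet {y : US a | y.1 i v = b} := by
  have h1 : Measurable fun y : US a => y.1 i v :=
    (measurable_pi_apply v).comp ((measurable_pi_apply i).comp measurable_fst)
  exact h1 (measurableSet_singleton b)

theorem smain_meas_Gd {a : ℕ → ℕ} (A : Set ℕ) : MeasurableSet {y : US a | Gd A y} := by
  have h : {y : US a | Gd A y} = (⋂ j : ℕ, ⋃ n : ℕ, ⋃ (_ : n ∈ A), {y : US a | y.2 n j = true}) ∩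
      (⋂ j : ℕ, ⋂ m : ℕ, ⋂ n : ℕ,
        ({y : US a | y.2 m j = true}ᶜ ∪ ({y : US a | y.2 n j = true}ᶜ ∪ {_y : US a | m = n}))) := by
    ext y
    simp only [mem_inter_iff, mem_iInter, mem_iUnion, mem_union, mem_compl_iff, mem_ofPred_eq]
    constructor
    · intro hy
      refine ⟨fun j => ?_, fun j m n => ?_⟩
      · obtain ⟨n, h1, h2⟩ := hy.ex j
        exact ⟨n, h1, h2⟩
      · by_cases h1 : y.2 m j = true
        · by_cases h2 : y.2 n j = true
          · exact Or.inr (Or.inr (hy.un j m n h1 h2))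
          · exact Or.inr (Or.inl h2)
        · exact Or.inl h1
    · rintro ⟨h1, h2⟩
      refine ⟨fun j => ?_, fun j m n h3 h4 => ?_⟩
      · obtain ⟨n, h3, h4⟩ := h1 j
        exact ⟨n, h3, h4⟩
      · rcases h2 j m n with h5 | h5 | h5
        · exact absurd h3 h5
        · exact absurd h4 h5
        · exact h5
  rw [h]
  refine MeasurableSet.inter ?_ ?_
  · refine MeasurableSet.iInter fun j => MeasurableSet.iUnion fun n => MeasurableSet.iUnion fun _ => ?_
    exact smain_meas_coord n j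
  · refine MeasurableSet.iInter fun j => MeasurableSet.iInter fun m => MeasurableSet.iInter fun n => ?_
    exact ((smain_meas_coord m j).compl).union
      (((smain_meas_coord n j).compl).union (MeasurableSet.const _))

theorem smain_meas_rst {a : ℕ → ℕ} (k : ℕ → Bool) :
    MeasurableSet {y : US a | rst k true y.1 = y.1} := by
  have h : {y : US a | rst k true y.1 = y.1} =
      ⋂ i : ℕ, ⋂ v : Fin (a i) → ℕ, ({_y : US a | k i = true} ∪ {y : US a | y.1 i v = false}) := by
    ext y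
    simp only [mem_iInter, mem_union, mem_ofPred_eq]
    constructor
    · intro hy i v
      by_cases hk : k i = true
      · exact Or.inl hk
      · right
        have h1 := congrFun (congrFun hy i) v
        rw [← h1]
        unfold rst
        rw [if_neg hk]
    · intro h1
      funext i v
      unfold rst
      by_cases hk : k i = true
      · rw [if_pos hk]
      · rw [if_neg hk]
        rcases h1 i v with h2 | h2
        · exact absurd h2 hk
        · exact h2.symm
  rw [h]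
  refine MeasurableSet.iInter fun i => MeasurableSet.iInter fun v => ?_
  exact (MeasurableSet.const _).union (smain_meas_coord1 i v false)

theorem smain_symm {a : ℕ → ℕ} {x y : US a} (h : UIso x y) : UIso y x := by
  obtain ⟨σ, h1, h2⟩ := h
  refine ⟨σ.symm, fun i v => ?_, fun i u => ?_⟩
  · have hc : ⇑σ ∘ (⇑σ.symm ∘ v) = v := by
      funext j
      simp
    rw [← h1 i (⇑σ.symm ∘ v), hc]
  · rw [← h2 i (σ.symm u)]
    simp

theorem smain_inv {a : ℕ → ℕ} {k : ℕ → Bool} {A : Set ℕ} {x y : US a} (h : UIso x y)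
    (hx : Gd A x) (hr : rst k true x.1 = x.1) : Gd A y ∧ rst k true y.1 = y.1 := by
  obtain ⟨σ, h1, h2⟩ := h
  have e2 : ∀ n j, y.2 n j = x.2 n (σ.symm j) := by
    intro n j
    rw [← h2 n (σ.symm j), Equiv.apply_symm_apply]
  have e1 : ∀ i v, y.1 i v = x.1 i (⇑σ.symm ∘ v) := by
    intro i v
    have hc : ⇑σ ∘ (⇑σ.symm ∘ v) = v := by
      funext j
      simp
    rw [← h1 i (⇑σ.symm ∘ v), hc]
  refine ⟨⟨fun j => ?_, fun j m n h3 h4 => ?_⟩, ?_⟩
  · obtain ⟨n, h3, h4⟩ := hx.ex (σ.symm j)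
    exact ⟨n, h3, by rw [e2]; exact h4⟩
  · rw [e2] at h3 h4
    exact hx.un _ m n h3 h4
  · funext i v
    unfold rst
    by_cases hk : k i = true
    · rw [if_pos hk]
    · rw [if_neg hk, e1, ← hr]
      unfold rst
      rw [if_neg hk]

theorem t_SMAIN (h1 : S_BKC) (h2 : S_STD) (h3 : S_BLI) (h4 : S_BLR) (h5 : S_BLX) (h6 : S_BLV)
    (h7 : S_BLM) (h8 : S_BLC) (h9 : S_EFIN) (h10 : S_FINB) : S_SMAIN := by
  intro a k α K V1 V2 hG hV1 hV2 hBV hIV
  obtain ⟨f, c, A, hS⟩ := h2 a k K hG.er (h1 a k α K V2 hG hV2 hBV)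
  have hinv : ∀ x y : US a, UIso x y → (Gd A x ∧ rst k true x.1 = x.1 ∧ Bl k f c x ∈ K) →
      (Gd A y ∧ rst k true y.1 = y.1 ∧ Bl k f c y ∈ K) := by
    rintro x y hxy ⟨g1, g2, g3⟩
    obtain ⟨g4, g5⟩ := smain_inv hxy g1 g2
    exact ⟨g4, g5, hG.closed _ g3 _ ((h3 a k f c x y hxy).bf α)⟩
  have hmeas : MeasurableSet {y : US a | Gd A y ∧ rst k true y.1 = y.1 ∧ Bl k f c y ∈ K} :=
    (smain_meas_Gd A).inter ((smain_meas_rst k).inter (h7 a k f c hG.meas))
  have hD := hV1 {y : US a | Gd A y ∧ rst k true y.1 = y.1 ∧ Bl k f c y ∈ K} hmeas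
    (fun x y hxy => ⟨hinv x y hxy, hinv y x (smain_symm hxy)⟩)
    (fun x hx => h6 a k V1 f c x (hIV _ hx.2.2) hx.2.1)
  rcases hD with ⟨F, hF⟩ | ⟨g, hg1, hg2, hg3⟩
  · obtain ⟨hf, hfin⟩ := h10 a k α K f c A hG hS
    refine ⟨fun n => if n % 2 = 0 then Bl k f c (F (n / 2)) else hf (n / 2), fun M hM => ?_⟩
    rcases h9 a k M (hG.er M hM) with ⟨e, he⟩ | hs
    · obtain ⟨y, y1, y2, y3⟩ := h5 a k K f c A hG.pos hS M hM (hG.er M hM) e he
      have y4 : Bl k f c y ∈ K := hG.closed M hM _ ((iso_symm0 y3).bf α)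
      obtain ⟨n, hn⟩ := hF y ⟨y1, y2, y4⟩
      refine ⟨2 * n, ?_⟩
      have e1 : 2 * n % 2 = 0 := by omega
      have e2 : 2 * n / 2 = n := by omega
      simp only [e1, e2, if_true]
      exact iso_trans0 (h3 a k f c _ _ hn) y3
    · obtain ⟨n, hn⟩ := hfin M hM hs
      refine ⟨2 * n + 1, ?_⟩
      have e1 : ¬ (2 * n + 1) % 2 = 0 := by omega
      have e2 : (2 * n + 1) / 2 = n := by omega
      simp only [e1, e2, if_false]
      exact hn
  · exfalso
    refine hG.few ⟨fun d => Bl k f c (g d), h8 a k f c g hg1 (fun d j => ?_), fun d => (hg2 d).2.2,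
      fun d d' hdd => ?_⟩
    · obtain ⟨n, -, hn⟩ := (hg2 d).1.ex j
      exact ⟨n, hn⟩
    · exact hg3 d d' (h4 a k K f c A (g d) (g d') hG.pos hS (hg2 d).1 (hg2 d').1 (hg2 d).2.1
        (hg2 d').2.1 hdd)

end Pool.Agent.H533R2.VS
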