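import Pool.Agent.H533R2.VS.Spec
import Pool.Agent.H533R2.VO.Lib

set_option autoImplicit false

namespace Pool.Agent.H533R2.VS

open Set
open Pool.Agent.H899R2.VP
open Pool.Agent.H533R2.VO (Glu RIso VC Dich iso_symm0 iso_trans0 iso_refl0)

/-- Standard enumeration of a nonempty set of natural numbers. -/
theorem std_enum (B : Set ℕ) (hB : B.Nonempty) : ∃ (c : ℕ) (e : ℕ → ℕ),
    (∀ m, (c = 0 ∨ m < c) → e m ∈ B) ∧
    (∀ m m', (c = 0 ∨ m < c) → (c = 0 ∨ m' < c) → e m = e m' → m = m') ∧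
    (∀ b ∈ B, ∃ m, (c = 0 ∨ m < c) ∧ e m = b) := by
  classical
  set p : ℕ → Prop := fun n => n ∈ B with hp
  have hpB : Set.ofPred p = B := by
    ext x
    simp [hp, Set.mem_ofPred_eq]
  rcases (Set.ofPred p).finite_or_infinite with hf | hf
  · have hpos : 0 < hf.toFinset.card := by
      rw [Finset.card_pos]
      obtain ⟨b, hb⟩ := hB
      refine ⟨b, ?_⟩
      rw [Set.Finite.mem_toFinset, hpB]
      exact hb
    refine ⟨hf.toFinset.card, Nat.nth p, ?_, ?_, ?_⟩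
    · intro m hm
      exact Nat.nth_mem_of_lt_card hf (by omega)
    · intro m m' hm hm' h
      exact Nat.nth_injOn hf (show m ∈ Set.Iio _ from Set.mem_Iio.mpr (by omega))
        (Set.mem_Iio.mpr (by omega)) h
    · intro b hb
      obtain ⟨n, hn, h⟩ := Nat.exists_lt_card_finite_nth_eq hf (x := b) hb
      exact ⟨n, Or.inr hn, h⟩
  · refine ⟨0, Nat.nth p, ?_, ?_, ?_⟩
    · intro m _
      exact Nat.nth_mem_of_infinite hf m
    · intro m m' _ _ h
      exact Nat.nth_injective hf h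
    · intro b hb
      have h1 := Nat.range_nth_of_infinite hf
      have h2 : b ∈ Set.range (Nat.nth p) := by
        rw [h1, hpB]
        exact hb
      obtain ⟨n, hn⟩ := h2
      exact ⟨n, Or.inl rfl, hn⟩

/-- Isomorphisms of blocks are isomorphisms of the restricted structures. -/
theorem std_bl {a : ℕ → ℕ} (k : ℕ → Bool) {M N : St a} {X Y : Set ℕ} (h : IsoOn M N X Y ∅) :
    IsoOn (bl k M) (bl k N) X Y ∅ := by
  obtain ⟨q, h1, h2, ⟨p1, p2, p3⟩, h4, h5⟩ := h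
  refine ⟨q, h1, h2, ⟨p1, p2, ?_⟩, h4, h5⟩
  intro i t ht
  show (if k i = false then M.2 i (fun j => (t j).1) else false) =
    if k i = false then N.2 i (fun j => (t j).2) else false
  rw [p3 i t ht]

/-- The standard copy of a block. -/
theorem std_copy {a : ℕ → ℕ} (k : ℕ → Bool) (M : St a) (hM : ER k M) (x : ℕ) :
    ∃ (F : St a) (c : ℕ), (∀ u v, F.1 u v = true) ∧ (∀ i t, k i = true → F.2 i t = false) ∧
      IsoOn F (bl k M) {m | c = 0 ∨ m < c} (Bk M x) ∅ := by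
  obtain ⟨c, e, he1, he2, he3⟩ := std_enum (Bk M x) ⟨x, hM.refl x⟩
  refine ⟨(fun _ _ => true, fun i t => if k i = true then false else M.2 i (e ∘ t)), c,
    fun _ _ => rfl, fun i t hi => if_pos hi, ?_⟩
  refine ⟨{w | (c = 0 ∨ w.1 < c) ∧ w.2 = e w.1}, empty_subset _, ?_, ⟨?_, ?_, ?_⟩, ?_, ?_⟩
  · rintro ⟨u, v⟩ ⟨h1, h2⟩
    simp only at h1 h2
    subst h2
    exact ⟨h1, he1 u h1⟩
  · rintro ⟨u, u'⟩ ⟨h1, h2⟩ ⟨v, v'⟩ ⟨h3, h4⟩
    simp only at h1 h2 h3 h4
    subst h2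
    subst h4
    exact ⟨fun h => congrArg e h, fun h => he2 u v h1 h3 h⟩
  · rintro ⟨u, u'⟩ ⟨h1, h2⟩ ⟨v, v'⟩ ⟨h3, h4⟩
    simp only at h1 h2 h3 h4
    subst h2
    subst h4
    show true = M.1 (e u) (e v)
    exact (hM.trans _ _ _ (hM.symm _ _ (he1 u h1)) (he1 v h3)).symm
  · intro i t ht
    have h1 : (fun j => (t j).2) = e ∘ fun j => (t j).1 := by
      funext j
      exact (ht j).2
    show (if k i = true then false else M.2 i (e ∘ fun j => (t j).1)) =
      if k i = false then M.2 i (fun j => (t j).2) else false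
    rw [h1]
    cases k i <;> simp
  · intro m hm
    exact ⟨e m, hm, rfl⟩
  · intro b hb
    obtain ⟨m, hm, h⟩ := he3 b hb
    exact ⟨m, hm, h.symm⟩

theorem t_STD : S_STD := by
  intro a k K hK hg
  classical
  obtain ⟨g, hg⟩ := hg
  -- realised types
  have key : ∀ n : ℕ, ∃ (F : St a) (c : ℕ), (∀ u v, F.1 u v = true) ∧
      (∀ i t, k i = true → F.2 i t = false) ∧
      (∀ M ∈ K, ∀ x, IsoOn (g n).1 M (g n).2 (Bk M x) ∅ →
        IsoOn F (bl k M) {m | c = 0 ∨ m < c} (Bk M x) ∅) := by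
    intro n
    by_cases hr : ∃ M ∈ K, ∃ x, IsoOn (g n).1 M (g n).2 (Bk M x) ∅
    · obtain ⟨M, hM, x, hx⟩ := hr
      obtain ⟨F, c, h1, h2, h3⟩ := std_copy k M (hK M hM) x
      refine ⟨F, c, h1, h2, fun N hN y hy => ?_⟩
      exact iso_trans0 h3 (std_bl k (iso_trans0 (iso_symm0 hx) hy))
    · refine ⟨(fun _ _ => true, fun _ _ => false), 0, fun _ _ => rfl, fun _ _ _ => rfl,
        fun N hN y hy => absurd ⟨N, hN, y, hy⟩ hr⟩
  choose f c h1 h2 h3 using key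
  set R : ℕ → Prop := fun n => ∃ M ∈ K, ∃ x, IsoOn (g n).1 M (g n).2 (Bk M x) ∅ with hR
  refine ⟨f, c, {n | R n ∧ ∀ n' < n, R n' → ¬ IsoOn (f n') (f n) (Car c n') (Car c n) ∅},
    ⟨?_, ?_, h1, h2⟩⟩
  · intro M hM x
    obtain ⟨n, hn⟩ := hg M hM x
    have hRn : R n := ⟨M, hM, x, hn⟩
    have hex : ∃ n', R n' ∧ IsoOn (f n') (f n) (Car c n') (Car c n) ∅ := ⟨n, hRn, iso_refl0⟩
    have hspec := Nat.find_spec hex
    refine ⟨Nat.find hex, ⟨hspec.1, fun n' hn' hRn' h => ?_⟩, ?_⟩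
    · exact Nat.find_min hex hn' ⟨hRn', iso_trans0 h hspec.2⟩
    · exact iso_trans0 hspec.2 (h3 n M hM x hn)
  · intro m hm n hn h
    rcases lt_trichotomy m n with hlt | heq | hgt
    · exact absurd h (hn.2 m hlt hm.1)
    · exact heq
    · exact absurd (iso_symm0 h) (hm.2 n hgt hn.1)

end Pool.Agent.H533R2.VS
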