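import Pool.Agent.H533R2.VS.RPL
import Pool.Agent.H533R2.VS.PUTK
import Pool.Agent.H533R2.VS.RPF
import Pool.Agent.H533R2.VS.BKV
import Pool.Agent.H533R2.VS.BKC
import Pool.Agent.H533R2.VS.STD
import Pool.Agent.H533R2.VS.BLP
import Pool.Agent.H533R2.VS.BLB
import Pool.Agent.H533R2.VS.BLI
import Pool.Agent.H533R2.VS.BLR
import Pool.Agent.H533R2.VS.BLX
import Pool.Agent.H533R2.VS.BLV
import Pool.Agent.H533R2.VS.BLM
import Pool.Agent.H533R2.VS.BLC
import Pool.Agent.H533R2.VS.EFINB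
import Pool.Agent.H533R2.VS.FINB
import Pool.Agent.H533R2.VS.SMAIN
import Pool.Agent.H533R2.VS.SFINAL
import Pool.Agent.H533R2.VS.CSU
import Pool.Agent.H533R2.VS.CDG
import Pool.Agent.H533R2.VS.CL1B
import Pool.Agent.H533R2.VS.CL2
import Pool.Agent.H533R2.VS.CLS
import Pool.Agent.H533R2.VS.ORD
import Pool.Agent.H533R2.VD.All

set_option autoImplicit false

/-!
# Vaught's conjecture and generalised sums: all steps together
-/

namespace Pool.Agent.H533R2.VS

open Pool.Agent.H899R2.VP (gaifman HasCliqueSubdivision)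
open Pool.Agent.H533R2.VO (RS)

theorem vs_sfinal : S_SFINAL := by
  have bkv := t_BKV t_RPL t_PUTK t_RPF
  have bkc := t_BKC bkv
  have blb := t_BLB t_BLP
  have bli := t_BLI t_BLP
  have blr := t_BLR t_BLP blb
  have blx := t_BLX t_BLP
  have blv := t_BLV t_BLP
  have blm := t_BLM t_BLP
  have blc := t_BLC t_BLP
  exact t_SFINAL (t_SMAIN bkc t_STD bli blr blx blv blm blc t_EFINB t_FINB)

theorem vs_clo : S_CLO := t_CLS vs_sfinal t_CL1B (t_CL2 t_CMB)

theorem vs_ord : S_ORD := t_ORD t_CL1B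

theorem vs_sparse (a : ℕ → ℕ) : VCu (fun x : RS a => ¬ HasCliqueSubdivision (gaifman x)) :=
  (t_CSU a).1

theorem vs_dec (a : ℕ → ℕ) : VCu (DecG : RS a → Prop) := t_CDG VD.final3 a

end Pool.Agent.H533R2.VS
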