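import Pool.Agent.H533R2.VS.Spec4

set_option autoImplicit false

/-!
# Closure under canonical expansions
-/

namespace Pool.Agent.H533R2.VS

open Set
open Pool.Agent.H899R2.VP
open Pool.Agent.H533R2.VO (Glu RIso VC Dich put)

theorem exc_iso_iff {a : ℕ → ℕ} (x y : US a) : UIso x y ↔
    ∃ σ : Equiv.Perm ℕ, y.1 = act σ x.1 ∧ ∀ i u, y.2 i (σ u) = x.2 i u := by
  constructor
  · rintro ⟨σ, h1, h2⟩
    refine ⟨σ, ?_, h2⟩
    funext i v
    have h := h1 i (⇑σ.symm ∘ v)
    have e : ⇑σ ∘ (⇑σ.symm ∘ v) = v := by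
      funext j
      exact σ.apply_symm_apply (v j)
    rw [e] at h
    exact h
  · rintro ⟨σ, h1, h2⟩
    refine ⟨σ, ?_, h2⟩
    intro i v
    rw [h1]
    show x.1 i (⇑σ.symm ∘ (⇑σ ∘ v)) = x.1 i v
    have e : ⇑σ.symm ∘ (⇑σ ∘ v) = v := by
      funext j
      exact σ.symm_apply_apply (v j)
    rw [e]

theorem exc_act_inj {a : ℕ → ℕ} (σ : Equiv.Perm ℕ) (x y : Pool.Agent.H533R2.VO.RS a)
    (h : act σ x = act σ y) : x = y := by
  funext i v
  have h1 := congrFun (congrFun h i) (⇑σ ∘ v)
  have e : ⇑σ.symm ∘ (⇑σ ∘ v) = v := by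
    funext j
    exact σ.symm_apply_apply (v j)
  have h2 : x i (⇑σ.symm ∘ (⇑σ ∘ v)) = y i (⇑σ.symm ∘ (⇑σ ∘ v)) := h1
  rw [e] at h2
  exact h2

theorem t_EXC : S_EXC := by
  intro a b c d hcd V hV B hB hinv hBV
  have hdm : Measurable d := hcd.cont.measurable
  let B1 : Set (US b) := {z | (d z.1, z.2) ∈ B ∧ z.1 = c (d z.1)}
  have hm : MeasurableSet B1 := by
    refine MeasurableSet.inter ?_ ?_
    · have hf : Measurable (fun z : US b => ((d z.1, z.2) : US a)) :=
        (hdm.comp measurable_fst).prodMk measurable_snd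
      exact hf hB
    · have e : {z : US b | z.1 = c (d z.1)} =
          ⋂ i, ⋂ v, {z : US b | z.1 i v = c (d z.1) i v} := by
        ext z
        rw [mem_iInter₂]
        constructor
        · intro h i v
          exact congrFun (congrFun h i) v
        · intro h
          show z.1 = c (d z.1)
          funext i v
          exact h i v
      have hcm : Measurable (fun z : US b => c (d z.1)) :=
        hcd.meas.comp (hdm.comp measurable_fst)
      show MeasurableSet {z : US b | z.1 = c (d z.1)}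
      rw [e]
      refine MeasurableSet.iInter fun i => MeasurableSet.iInter fun v => ?_
      have m1 : Measurable (fun z : US b => z.1 i v) :=
        (measurable_pi_apply v).comp ((measurable_pi_apply i).comp measurable_fst)
      have m2 : Measurable (fun z : US b => c (d z.1) i v) :=
        (measurable_pi_apply v).comp ((measurable_pi_apply i).comp hcm)
      have e2 : {z : US b | z.1 i v = c (d z.1) i v} =
          (fun z : US b => (z.1 i v, c (d z.1) i v)) ⁻¹' {p : Bool × Bool | p.1 = p.2} := rfl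
      rw [e2]
      exact (m1.prodMk m2) (Set.toFinite _).measurableSet
  have key : ∀ x y : US b, UIso x y → UIso (a := a) (d x.1, x.2) (d y.1, y.2) := by
    intro x y h
    rw [exc_iso_iff] at h ⊢
    obtain ⟨σ, h1, h2⟩ := h
    refine ⟨σ, ?_, h2⟩
    show d y.1 = act σ (d x.1)
    rw [h1, hcd.dact]
  have hinv1 : ∀ x y : US b, UIso x y → (x ∈ B1 ↔ y ∈ B1) := by
    intro x y h
    have hk := hinv _ _ (key x y h)
    rw [exc_iso_iff] at h
    obtain ⟨σ, h1, h2⟩ := h
    have e : x.1 = c (d x.1) ↔ y.1 = c (d y.1) := by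
      rw [h1, hcd.dact, hcd.cact]
      constructor
      · intro h
        rw [← h]
      · intro h
        exact exc_act_inj σ _ _ h
    exact and_congr hk e
  have hV1 : ∀ z ∈ B1, V z.1 := by
    rintro z ⟨h1, h2⟩
    have h3 := (hBV _ h1).1
    rw [h2]
    exact h3
  rcases hV B1 hm hinv1 hV1 with ⟨f, hf⟩ | ⟨g, hg, hgB, hgi⟩
  · left
    refine ⟨fun n => (d (f n).1, (f n).2), ?_⟩
    intro y hy
    have hy2 : d (c y.1) = y.1 := (hBV y hy).2
    have hy1 : ((c y.1, y.2) : US b) ∈ B1 := by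
      refine ⟨?_, ?_⟩
      · show ((d (c y.1), y.2) : US a) ∈ B
        rw [hy2]
        exact hy
      · show c y.1 = c (d (c y.1))
        rw [hy2]
    obtain ⟨n, hn⟩ := hf _ hy1
    refine ⟨n, ?_⟩
    have h := key _ _ hn
    have e : ((d (c y.1), y.2) : US a) = y := by rw [hy2]
    have h' : UIso (a := a) (d (f n).1, (f n).2) (d (c y.1), y.2) := h
    rw [e] at h'
    exact h'
  · right
    refine ⟨fun s => (d (g s).1, (g s).2), ?_, fun s => (hgB s).1, ?_⟩
    · exact (hcd.cont.comp (continuous_fst.comp hg)).prodMk (continuous_snd.comp hg)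
    · intro s t h
      apply hgi
      rw [exc_iso_iff] at h ⊢
      obtain ⟨σ, h1, h2⟩ := h
      refine ⟨σ, ?_, h2⟩
      have h3 : d (g t).1 = act σ (d (g s).1) := h1
      rw [(hgB t).2, h3, hcd.cact, ← (hgB s).2]

end Pool.Agent.H533R2.VS
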