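import Pool.Agent.H533R2.VS.Spec4

set_option autoImplicit false

/-! EXK: canonical expansions: coanalytic and invariant. -/

namespace Pool.Agent.H533R2.VS

open Set
open MeasureTheory (AnalyticSet)
open Pool.Agent.H899R2.VP (St Adj PIso BF IsoOn idOn inv comp zipSet gaifman HasCliqueSubdivision)
open Pool.Agent.H533R2.VO (Glu RS RIso VC Dich put)

theorem exk_polish {X : Type} [TopologicalSpace X] [h1 : SecondCountableTopology X]
    [h2 : TopologicalSpace.IsCompletelyMetrizableSpace X] : PolishSpace X := { h1, h2 with }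

theorem exk_pre {X Y : Type} [t : TopologicalSpace X] [PolishSpace X] [MeasurableSpace X]
    [BorelSpace X] [TopologicalSpace Y] [T2Space Y] [SecondCountableTopology Y]
    [MeasurableSpace Y] [OpensMeasurableSpace Y] {s : Set Y} (hs : AnalyticSet s) {f : X → Y}
    (hf : Measurable f) : AnalyticSet (f ⁻¹' s) := by
  rcases hf.exists_continuous with ⟨τ', hle, hfc, hτ'⟩
  have h1 : @AnalyticSet X τ' (f ⁻¹' s) :=
    @MeasureTheory.AnalyticSet.preimage X Y τ' _ hτ' _ s hs f hfc
  have h2 : @Continuous X X τ' t id := continuous_id_of_le hle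
  have h3 := @MeasureTheory.AnalyticSet.image_of_continuous X τ' X t _ h1 id h2
  rwa [image_id] at h3

theorem exk_act {a : ℕ → ℕ} {x y : RS a} (h : RIso x y) : ∃ σ : Equiv.Perm ℕ, y = act σ x := by
  obtain ⟨σ, hσ⟩ := h
  refine ⟨σ, ?_⟩
  funext i v
  have h1 := hσ i (⇑σ.symm ∘ v)
  have h2 : (⇑σ ∘ (⇑σ.symm ∘ v)) = v := by
    funext k
    simp
  rw [h2] at h1
  exact h1

theorem exk_riso {a : ℕ → ℕ} (σ : Equiv.Perm ℕ) (x : RS a) : RIso x (act σ x) := by
  refine ⟨σ, ?_⟩
  intro i v
  have h2 : (⇑σ.symm ∘ (⇑σ ∘ v)) = v := by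
    funext k
    simp
  change x i (⇑σ.symm ∘ (⇑σ ∘ v)) = x i v
  rw [h2]

theorem t_EXK : S_EXK := by
  intro a b c d hcd V hV hI
  have b5 : PolishSpace (RS a) := exk_polish
  constructor
  · have h1 : {x : RS a | ¬ (V (c x) ∧ d (c x) = x)} =
        ⋃ k : Bool, (if k then c ⁻¹' {z | ¬ V z} else {x | ¬ d (c x) = x}) := by
      ext x
      simp only [mem_iUnion, Bool.exists_bool, Bool.false_eq_true, if_false, if_true,
        mem_ofPred_eq, mem_preimage]
      tauto
    unfold Coan
    rw [h1]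
    refine AnalyticSet.iUnion ?_
    intro k
    cases k
    · rw [if_neg (by simp)]
      refine MeasurableSet.analyticSet ?_
      exact (measurableSet_eq_fun (hcd.cont.measurable.comp hcd.meas) measurable_id).compl
    · rw [if_pos rfl]
      exact exk_pre hV hcd.meas
  · intro x y hxy h
    obtain ⟨σ, rfl⟩ := exk_act hxy
    constructor
    · rw [hcd.cact]
      exact hI _ _ (exk_riso σ (c x)) h.1
    · rw [hcd.cact, hcd.dact, h.2]

end Pool.Agent.H533R2.VS
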