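import Pool.Agent.H533R2.VS.Spec4

set_option autoImplicit false

/-!
# Decomposable structures form a Borel class
-/

namespace Pool.Agent.H533R2.VS

open Set
open MeasureTheory (AnalyticSet)
open Pool.Agent.H899R2.VP (St Adj PIso BF IsoOn idOn inv comp zipSet gaifman HasCliqueSubdivision)
open Pool.Agent.H533R2.VO (Glu RS RIso VC Dich put)

/-- the binary structure of `x` -/
def kdeB {a : ℕ → ℕ} (x : RS a) : VD.R2 := fun i u v => if a i = 2 then x i (p2 u v) else false

theorem kde_cont {a : ℕ → ℕ} (i u v : ℕ) : Continuous fun x : RS a => kdeB x i u v := by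
  unfold kdeB
  by_cases h : a i = 2
  · simp only [h, if_true]; fun_prop
  · simp only [h, if_false]; fun_prop

theorem kde_ce {a : ℕ → ℕ} (u v w t : ℕ) :
    Measurable fun x : RS a => VD.ce (kdeB x) u v w t := by
  unfold VD.ce
  refine Measurable.forall fun i => ?_
  refine Measurable.and ?_ ?_
  · exact measurableSet_setOfPred.1 (isClosed_eq (kde_cont i u v) (kde_cont i w t)).measurableSet
  · exact measurableSet_setOfPred.1 (isClosed_eq (kde_cont i v u) (kde_cont i t w)).measurableSet

theorem kde_dec {a : ℕ → ℕ} : Measurable fun x : RS a => VD.Dec (kdeB x) := by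
  unfold VD.Dec
  refine Measurable.forall fun F => ?_
  refine Measurable.imp measurable_const ?_
  refine Measurable.exists fun X => ?_
  refine Measurable.and measurable_const (Measurable.and measurable_const
    (Measurable.and measurable_const ?_))
  refine Measurable.forall fun u => Measurable.imp measurable_const ?_
  refine Measurable.forall fun v => Measurable.imp measurable_const ?_
  refine Measurable.forall fun w => Measurable.imp measurable_const ?_
  exact Measurable.imp measurable_const (kde_ce u w v w)

theorem kde_zero {a : ℕ → ℕ} :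
    Measurable fun x : RS a => ∀ i, a i ≠ 2 → ∀ t, x i t = false := by
  refine Measurable.forall fun i => Measurable.imp measurable_const ?_
  refine Measurable.forall fun t => ?_
  have h1 : Continuous fun x : RS a => x i t := by fun_prop
  exact measurableSet_setOfPred.1 (isClosed_eq h1 continuous_const).measurableSet

theorem kde_iso {a : ℕ → ℕ} (x y : RS a) (σ : Equiv.Perm ℕ)
    (h : ∀ (i : ℕ) (v : Fin (a i) → ℕ), y i (⇑σ ∘ v) = x i v) (i u v : ℕ) :
    kdeB y i (σ u) (σ v) = kdeB x i u v := by
  unfold kdeB
  split_ifs with h2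
  · rw [← h]
    congr 1
    funext j
    unfold p2
    simp only [Function.comp]
    split_ifs <;> rfl
  · rfl

theorem kde_ce_iso {a : ℕ → ℕ} (x y : RS a) (σ : Equiv.Perm ℕ)
    (h : ∀ (i : ℕ) (v : Fin (a i) → ℕ), y i (⇑σ ∘ v) = x i v) (u v w t : ℕ)
    (hc : VD.ce (kdeB x) u v w t) : VD.ce (kdeB y) (σ u) (σ v) (σ w) (σ t) := by
  intro i
  have h1 := hc i
  rw [kde_iso x y σ h, kde_iso x y σ h, kde_iso x y σ h, kde_iso x y σ h]
  exact h1

theorem kde_polish (a : ℕ → ℕ) : PolishSpace (RS a) := by
  have h0 : PolishSpace Bool := inferInstance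
  have h1 : ∀ i, PolishSpace ((Fin (a i) → ℕ) → Bool) := fun i => inferInstance
  have h2 : PolishSpace (∀ i, (Fin (a i) → ℕ) → Bool) := inferInstance
  exact h2

theorem t_KDE : S_KDE := by
  intro a
  refine ⟨?_, ?_⟩
  · have hP : PolishSpace (RS a) := kde_polish a
    have h : Measurable fun x : RS a => ¬ DecG x := by
      refine Measurable.not ?_
      exact Measurable.and kde_zero kde_dec
    exact (measurableSet_setOfPred.2 h).analyticSet
  · intro x y ⟨σ, h⟩ ⟨hx0, hx⟩
    refine ⟨?_, ?_⟩
    · intro i hi t
      have h1 := h i (⇑σ.symm ∘ t)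
      have h2 : ⇑σ ∘ (⇑σ.symm ∘ t) = t := by
        funext j; simp
      rw [h2] at h1
      rw [h1]
      exact hx0 i hi _
    · intro F hF
      obtain ⟨X, hX, h1, h2, h3⟩ := hx (F.map σ.symm.toEmbedding) (by
        rw [Finset.card_map]; exact hF)
      refine ⟨X.map σ.toEmbedding, ?_, ?_, ?_, ?_⟩
      · intro z hz
        rw [Finset.mem_map] at hz
        obtain ⟨u, hu, rfl⟩ := hz
        have := hX hu
        rw [Finset.mem_map] at this
        obtain ⟨w, hw, hw2⟩ := this
        have h4 : σ u = w := by rw [← hw2]; simp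
        change σ u ∈ F
        rw [h4]; exact hw
      · rw [Finset.card_map]; exact h1
      · rw [Finset.card_map]
        rw [Finset.card_map] at h2
        exact h2
      · intro u hu v hv w hw hwX
        rw [Finset.mem_map] at hu hv
        obtain ⟨u', hu', rfl⟩ := hu
        obtain ⟨v', hv', rfl⟩ := hv
        have h4 := h3 u' hu' v' hv' (σ.symm w) (by
          rw [Finset.mem_map]; exact ⟨w, hw, rfl⟩) (by
          intro h5
          apply hwX
          rw [Finset.mem_map]
          exact ⟨_, h5, by simp⟩)
        have h5 := kde_ce_iso x y σ h _ _ _ _ h4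
        rw [Equiv.apply_symm_apply] at h5
        exact h5

end Pool.Agent.H533R2.VS
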