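import Pool.Agent.H533R2.VS.Spec3
import Mathlib.MeasureTheory.Constructions.Polish.Basic

set_option autoImplicit false

/-!
# Unions and canonical expansions
-/

namespace Pool.Agent.H533R2.VS

open Set
open MeasureTheory (AnalyticSet)
open Pool.Agent.H899R2.VP (St Adj PIso BF IsoOn idOn inv comp zipSet gaifman HasCliqueSubdivision)
open Pool.Agent.H533R2.VO (Glu RS RIso VC Dich put)

/-- The class `V` is coanalytic. -/
def Coan {a : ℕ → ℕ} (V : RS a → Prop) : Prop := AnalyticSet {x : RS a | ¬ V x}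

/-- The class `V` is invariant. -/
def Inv {a : ℕ → ℕ} (V : RS a → Prop) : Prop := ∀ x y : RS a, RIso x y → V x → V y

/-- Relabelling. -/
def act {a : ℕ → ℕ} (σ : Equiv.Perm ℕ) (x : RS a) : RS a := fun i v => x i (⇑σ.symm ∘ v)

/-- Equivariant maps in both directions. -/
structure Canon {a b : ℕ → ℕ} (c : RS a → RS b) (d : RS b → RS a) : Prop where
  meas : Measurable c
  cont : Continuous d
  cact : ∀ σ x, c (act σ x) = act σ (c x)
  dact : ∀ σ z, d (act σ z) = act σ (d z)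

def S_SAT : Prop := ∀ (a : ℕ → ℕ) (D : Set (US a)), AnalyticSet D →
  AnalyticSet {y : US a | ∃ x ∈ D, UIso x y}

/-- Invariant separation. -/
def S_PSEP : Prop := ∀ (a : ℕ → ℕ) (A A' : Set (US a)), AnalyticSet A → AnalyticSet A' →
  (∀ x y, UIso x y → x ∈ A → y ∈ A) → (∀ x y, UIso x y → x ∈ A' → y ∈ A') → Disjoint A A' →
  ∃ D : Set (US a), MeasurableSet D ∧ (∀ x y, UIso x y → (x ∈ D ↔ y ∈ D)) ∧ A ⊆ D ∧
    Disjoint D A'

def S_UNI : Prop := ∀ (a : ℕ → ℕ) (V W : RS a → Prop), VCu V → VCu W → Coan V → Coan W →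
  Inv V → Inv W → VCu fun x => V x ∨ W x

def S_KSP : Prop := ∀ a : ℕ → ℕ, Coan (fun x : RS a => ¬ HasCliqueSubdivision (gaifman x)) ∧
  Inv (fun x : RS a => ¬ HasCliqueSubdivision (gaifman x))

def S_KDE : Prop := ∀ a : ℕ → ℕ, Coan (DecG : RS a → Prop) ∧ Inv (DecG : RS a → Prop)

def S_KIS : Prop := ∀ (a : ℕ → ℕ) (ε : ℕ) (k : ℕ → Bool) (V1 V2 : RS a → Prop),
  Coan V1 → Coan V2 → Coan (IsSum ε k V1 V2)

def S_NIS : Prop := ∀ (a : ℕ → ℕ) (ε : ℕ) (k : ℕ → Bool) (V1 V2 : RS a → Prop),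
  Inv (IsSum ε k V1 V2)

def S_KOS : Prop := ∀ (a : ℕ → ℕ) (ε : ℕ) (V : RS a → Prop), Coan V →
  Coan (IsOSum ε V) ∧ Inv (IsOSum ε V)

def S_KUN : Prop := ∀ (a : ℕ → ℕ) (V W : RS a → Prop), Coan V → Coan W → Inv V → Inv W →
  Coan (fun x => V x ∨ W x) ∧ Inv fun x => V x ∨ W x

def S_EXC : Prop := ∀ (a b : ℕ → ℕ) (c : RS a → RS b) (d : RS b → RS a), Canon c d →
  ∀ V : RS b → Prop, VCu V → VCu fun x => V (c x) ∧ d (c x) = x

def S_EXK : Prop := ∀ (a b : ℕ → ℕ) (c : RS a → RS b) (d : RS b → RS a), Canon c d →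
  ∀ V : RS b → Prop, Coan V → Inv V → Coan (fun x => V (c x) ∧ d (c x) = x) ∧
    Inv fun x => V (c x) ∧ d (c x) = x

end Pool.Agent.H533R2.VS
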