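import Mathlib
import Pool.Agent.H533R2.VS.Spec4

set_option autoImplicit false

/-!
# Task KIS (helper483): generalised sums of coanalytic classes are coanalytic
-/

namespace Pool.Agent.H533R2.VS

open Set Filter
open scoped Topology
open MeasureTheory (AnalyticSet)
open Pool.Agent.H533R2.VO (RS)

theorem kis_atom {Z W : Type*} [TopologicalSpace Z] [MeasurableSpace Z] [OpensMeasurableSpace Z]
    [TopologicalSpace W] [T2Space W] {f g : Z → W} (hf : Continuous f) (hg : Continuous g) :
    Measurable (fun z => f z = g z) :=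
  measurableSet_setOfPred.1 (isClosed_eq hf hg).measurableSet

theorem kis_eval {W : Type*} [TopologicalSpace W] [DiscreteTopology W] :
    Continuous (fun p : (W → Bool) × W => p.1 p.2) := by
  rw [continuous_iff_continuousAt]
  rintro ⟨f, w⟩
  have h1 : (fun p : (W → Bool) × W => p.1 p.2) =ᶠ[𝓝 (f, w)] fun p => p.1 w := by
    have h2 : {p : (W → Bool) × W | p.2 = w} ∈ 𝓝 (f, w) := by
      apply IsOpen.mem_nhds
      · exact (isOpen_discrete ({w} : Set W)).preimage continuous_snd
      · rfl
    filter_upwards [h2] with p hp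
    have hp' : p.2 = w := hp
    rw [hp']
  exact (((continuous_apply w).comp continuous_fst).continuousAt).congr h1.symm

theorem kis_union {Z : Type*} [TopologicalSpace Z] {s t : Set Z} (hs : AnalyticSet s)
    (ht : AnalyticSet t) : AnalyticSet (s ∪ t) := by
  rw [Set.union_eq_iUnion]
  exact AnalyticSet.iUnion fun b => by cases b <;> assumption

theorem kis_inter {Z : Type*} [TopologicalSpace Z] [T2Space Z] {s t : Set Z}
    (hs : AnalyticSet s) (ht : AnalyticSet t) : AnalyticSet (s ∩ t) := by
  rw [Set.inter_eq_iInter]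
  exact AnalyticSet.iInter fun b => by cases b <;> assumption

theorem kis_pB (W : Type) [Countable W] : PolishSpace (W → Bool) := by
  have h1 : SecondCountableTopology (W → Bool) := inferInstance
  have h2 : TopologicalSpace.SeparableSpace (W → Bool) := inferInstance
  have h3 : TopologicalSpace.IsCompletelyMetrizableSpace (W → Bool) := inferInstance
  infer_instance

theorem kis_pRS (a : ℕ → ℕ) : PolishSpace (RS a) := by
  have h0 : ∀ i, PolishSpace ((Fin (a i) → ℕ) → Bool) := fun i => kis_pB _
  have h1 : SecondCountableTopology (∀ i : ℕ, (Fin (a i) → ℕ) → Bool) := inferInstance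
  have h2 : TopologicalSpace.SeparableSpace (∀ i : ℕ, (Fin (a i) → ℕ) → Bool) := inferInstance
  have h3 : TopologicalSpace.IsCompletelyMetrizableSpace (∀ i : ℕ, (Fin (a i) → ℕ) → Bool) :=
    inferInstance
  infer_instance

theorem kis_pN : PolishSpace (ℕ → ℕ) := by
  have h1 : SecondCountableTopology (ℕ → ℕ) := inferInstance
  have h2 : TopologicalSpace.SeparableSpace (ℕ → ℕ) := inferInstance
  have h3 : TopologicalSpace.IsCompletelyMetrizableSpace (ℕ → ℕ) := inferInstance
  infer_instance

theorem kis_pP (a : ℕ → ℕ) : PolishSpace (RS a × (ℕ → ℕ)) := by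
  have h0 := kis_pRS a
  have h00 := kis_pN
  have h1 : SecondCountableTopology (RS a × (ℕ → ℕ)) := inferInstance
  have h2 : TopologicalSpace.SeparableSpace (RS a × (ℕ → ℕ)) := inferInstance
  have h3 : TopologicalSpace.IsCompletelyMetrizableSpace (RS a × (ℕ → ℕ)) := inferInstance
  infer_instance

/-- the coordinates -/
theorem kis_coord {a : ℕ → ℕ} (i : ℕ) (t : Fin (a i) → ℕ) :
    Continuous (fun x : RS a => x i t) :=
  (continuous_apply t).comp (continuous_apply i)

open Classical in
theorem kis_F {a : ℕ → ℕ} (P : ℕ → Prop) :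
    Continuous (fun p : RS a × (ℕ → ℕ) =>
      (fun i v => if P i then p.1 i (p.2 ∘ v) else false : RS a)) := by
  refine continuous_pi fun i => continuous_pi fun v => ?_
  by_cases h : P i
  · simp only [if_pos h]
    have h1 : Continuous (fun p : RS a × (ℕ → ℕ) => ((p.1 i, p.2 ∘ v) :
        ((Fin (a i) → ℕ) → Bool) × (Fin (a i) → ℕ))) := by
      refine ((continuous_apply i).comp continuous_fst).prodMk ?_
      exact continuous_pi fun j => (continuous_apply (v j)).comp continuous_snd
    exact kis_eval.comp h1
  · simp only [if_neg h]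
    exact continuous_const

theorem t_KIS : S_KIS := by
  intro a ε k V1 V2 hV1 hV2
  unfold Coan at *
  have P1 : PolishSpace (RS a) := kis_pRS a
  have P2 : PolishSpace (RS a × (ℕ → ℕ)) := kis_pP a
  have hc : ∀ (i : ℕ) (t : Fin (a i) → ℕ) (b : Bool),
      Measurable (fun x : RS a => x i t = b) := fun i t b =>
    kis_atom (kis_coord i t) continuous_const
  have hcc : ∀ (i : ℕ) (t t' : Fin (a i) → ℕ),
      Measurable (fun x : RS a => x i t = x i t') := fun i t t' =>
    kis_atom (kis_coord i t) (kis_coord i t')
  have hp : ∀ (i : ℕ) (t : Fin (a i) → ℕ) (b : Bool),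
      Measurable (fun p : RS a × (ℕ → ℕ) => p.1 i t = b) := fun i t b =>
    kis_atom ((kis_coord i t).comp continuous_fst) continuous_const
  have hq : ∀ (n z : ℕ), Measurable (fun p : RS a × (ℕ → ℕ) => p.2 n = z) := fun n z =>
    kis_atom ((continuous_apply n).comp continuous_snd) continuous_const
  have hqq : ∀ (n z : ℕ), Measurable (fun p : RS a × (ℕ → ℕ) => p.2 n = p.2 z) := fun n z =>
    kis_atom ((continuous_apply n).comp continuous_snd) ((continuous_apply z).comp continuous_snd)
  -- the Borel conditions
  have m1 : MeasurableSet {x : RS a | ¬ ∀ u, x ε (p2 u u) = true} :=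
    measurableSet_setOfPred.2 (Measurable.not (Measurable.forall fun u => hc _ _ _))
  have m2 : MeasurableSet {x : RS a | ¬ ∀ u v, x ε (p2 u v) = true → x ε (p2 v u) = true} :=
    measurableSet_setOfPred.2 (Measurable.not (Measurable.forall fun u => Measurable.forall fun v =>
      (hc _ _ _).imp (hc _ _ _)))
  have m3 : MeasurableSet {x : RS a | ¬ ∀ u v w, x ε (p2 u v) = true → x ε (p2 v w) = true →
      x ε (p2 u w) = true} :=
    measurableSet_setOfPred.2 (Measurable.not (Measurable.forall fun u => Measurable.forall fun v =>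
      Measurable.forall fun w => (hc _ _ _).imp ((hc _ _ _).imp (hc _ _ _))))
  have m4 : MeasurableSet {x : RS a | ¬ ∀ i, i ≠ ε → k i = false → ∀ t, x i t = true →
      ∀ j l, x ε (p2 (t j) (t l)) = true} :=
    measurableSet_setOfPred.2 (Measurable.not (Measurable.forall fun i => measurable_const.imp
      (measurable_const.imp (Measurable.forall fun t => (hc _ _ _).imp
        (Measurable.forall fun j => Measurable.forall fun l => hc _ _ _)))))
  have m5 : MeasurableSet {x : RS a | ¬ ∀ i, i ≠ ε → k i = true → ∀ t t' : Fin (a i) → ℕ,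
      (∀ j, x ε (p2 (t j) (t' j)) = true) → x i t = x i t'} :=
    measurableSet_setOfPred.2 (Measurable.not (Measurable.forall fun i => measurable_const.imp
      (measurable_const.imp (Measurable.forall fun t => Measurable.forall fun t' =>
        (Measurable.forall fun j => hc _ _ _).imp (hcc _ _ _)))))
  have a6 : AnalyticSet {x : RS a | ¬ ∀ (u : ℕ) (e : ℕ → ℕ), Function.Injective e →
      (∀ z, x ε (p2 u z) = true ↔ ∃ n, e n = z) →
      V2 (fun i v => if i ≠ ε ∧ k i = false then x i (e ∘ v) else false)} := by
    have e1 : {x : RS a | ¬ ∀ (u : ℕ) (e : ℕ → ℕ), Function.Injective e →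
        (∀ z, x ε (p2 u z) = true ↔ ∃ n, e n = z) →
        V2 (fun i v => if i ≠ ε ∧ k i = false then x i (e ∘ v) else false)} =
        ⋃ u : ℕ, Prod.fst '' ({p : RS a × (ℕ → ℕ) | (∀ m n, p.2 m = p.2 n → m = n) ∧
          ∀ z, (p.1 ε (p2 u z) = true ↔ ∃ n, p.2 n = z)} ∩
          (fun p : RS a × (ℕ → ℕ) =>
            (fun i v => if i ≠ ε ∧ k i = false then p.1 i (p.2 ∘ v) else false : RS a)) ⁻¹'
              {x : RS a | ¬ V2 x}) := by
      ext x
      simp only [Set.mem_ofPred_eq, Set.mem_iUnion, Set.mem_image, Set.mem_inter_iff,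
        Set.mem_preimage]
      constructor
      · intro h
        by_contra hcon
        apply h
        intro u e he hz
        by_contra hv
        exact hcon ⟨u, (x, e), ⟨⟨fun m n hmn => he hmn, hz⟩, hv⟩, rfl⟩
      · rintro ⟨u, ⟨x', e⟩, ⟨⟨he, hz⟩, hv⟩, rfl⟩ h
        exact hv (h u e (fun m n hmn => he m n hmn) hz)
    rw [e1]
    refine AnalyticSet.iUnion fun u => ?_
    refine AnalyticSet.image_of_continuous (kis_inter ?_ ?_) continuous_fst
    · refine MeasurableSet.analyticSet ?_
      refine measurableSet_setOfPred.2 (Measurable.and ?_ ?_)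
      · exact Measurable.forall fun m => Measurable.forall fun n =>
          (hqq m n).imp measurable_const
      · exact Measurable.forall fun z => (hp _ _ _).iff (Measurable.exists fun n => hq n z)
    · have hF := kis_F (a := a) (fun i => i ≠ ε ∧ k i = false)
      have := hV2.preimage hF
      convert this using 6
  have a7 : AnalyticSet {x : RS a | ¬ ∀ e : ℕ → ℕ, (∀ m n, x ε (p2 (e m) (e n)) = true ↔ m = n) →
      (∀ z, ∃ n, x ε (p2 (e n) z) = true) →
      V1 (fun i v => if i ≠ ε ∧ k i = true then x i (e ∘ v) else false)} := by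
    have e1 : {x : RS a | ¬ ∀ e : ℕ → ℕ, (∀ m n, x ε (p2 (e m) (e n)) = true ↔ m = n) →
        (∀ z, ∃ n, x ε (p2 (e n) z) = true) →
        V1 (fun i v => if i ≠ ε ∧ k i = true then x i (e ∘ v) else false)} =
        Prod.fst '' ({p : RS a × (ℕ → ℕ) | (∀ m n, (p.1 ε (p2 (p.2 m) (p.2 n)) = true ↔ m = n)) ∧
          ∀ z, ∃ n, p.1 ε (p2 (p.2 n) z) = true} ∩
          (fun p : RS a × (ℕ → ℕ) =>
            (fun i v => if i ≠ ε ∧ k i = true then p.1 i (p.2 ∘ v) else false : RS a)) ⁻¹'
              {x : RS a | ¬ V1 x}) := by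
      ext x
      simp only [Set.mem_ofPred_eq, Set.mem_image, Set.mem_inter_iff, Set.mem_preimage]
      constructor
      · intro h
        by_contra hcon
        apply h
        intro e he hz
        by_contra hv
        exact hcon ⟨(x, e), ⟨⟨he, hz⟩, hv⟩, rfl⟩
      · rintro ⟨⟨x', e⟩, ⟨⟨he, hz⟩, hv⟩, rfl⟩ h
        exact hv (h e he hz)
    rw [e1]
    refine AnalyticSet.image_of_continuous (kis_inter ?_ ?_) continuous_fst
    · refine MeasurableSet.analyticSet ?_
      have hr : ∀ (f g : (ℕ → ℕ) → ℕ), Continuous f → Continuous g →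
          Measurable (fun p : RS a × (ℕ → ℕ) => p.1 ε (p2 (f p.2) (g p.2)) = true) := by
        intro f g hf hg
        refine kis_atom ?_ continuous_const
        have h1 : Continuous (fun p : RS a × (ℕ → ℕ) => ((p.1 ε, p2 (f p.2) (g p.2)) :
            ((Fin (a ε) → ℕ) → Bool) × (Fin (a ε) → ℕ))) := by
          refine ((continuous_apply ε).comp continuous_fst).prodMk ?_
          refine continuous_pi fun j => ?_
          unfold p2
          by_cases hj : j.val = 0
          · simp only [if_pos hj]
            exact hf.comp continuous_snd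
          · simp only [if_neg hj]
            exact hg.comp continuous_snd
        exact kis_eval.comp h1
      refine measurableSet_setOfPred.2 (Measurable.and ?_ ?_)
      · exact Measurable.forall fun m => Measurable.forall fun n =>
          (hr (fun e => e m) (fun e => e n) (continuous_apply m) (continuous_apply n)).iff
            measurable_const
      · exact Measurable.forall fun z => Measurable.exists fun n =>
          hr (fun e => e n) (fun _ => z) (continuous_apply n) continuous_const
    · have hF := kis_F (a := a) (fun i => i ≠ ε ∧ k i = true)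
      have := hV1.preimage hF
      convert this using 6
  have e0 : {x : RS a | ¬ IsSum ε k V1 V2 x} =
      {x : RS a | ¬ ∀ u, x ε (p2 u u) = true} ∪
      ({x : RS a | ¬ ∀ u v, x ε (p2 u v) = true → x ε (p2 v u) = true} ∪
      ({x : RS a | ¬ ∀ u v w, x ε (p2 u v) = true → x ε (p2 v w) = true →
        x ε (p2 u w) = true} ∪
      ({x : RS a | ¬ ∀ i, i ≠ ε → k i = false → ∀ t, x i t = true →
        ∀ j l, x ε (p2 (t j) (t l)) = true} ∪
      ({x : RS a | ¬ ∀ i, i ≠ ε → k i = true → ∀ t t' : Fin (a i) → ℕ,
        (∀ j, x ε (p2 (t j) (t' j)) = true) → x i t = x i t'} ∪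
      ({x : RS a | ¬ ∀ (u : ℕ) (e : ℕ → ℕ), Function.Injective e →
        (∀ z, x ε (p2 u z) = true ↔ ∃ n, e n = z) →
        V2 (fun i v => if i ≠ ε ∧ k i = false then x i (e ∘ v) else false)} ∪
      {x : RS a | ¬ ∀ e : ℕ → ℕ, (∀ m n, x ε (p2 (e m) (e n)) = true ↔ m = n) →
        (∀ z, ∃ n, x ε (p2 (e n) z) = true) →
        V1 (fun i v => if i ≠ ε ∧ k i = true then x i (e ∘ v) else false)}))))) := by
    ext x
    simp only [Set.mem_union, Set.mem_ofPred_eq]
    constructor
    · intro h
      by_contra hcon
      simp only [not_or, not_not] at hcon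
      obtain ⟨h1, h2, h3, h4, h5, h6, h7⟩ := hcon
      exact h ⟨h1, h2, h3, h4, h5, h6, h7⟩
    · rintro (h | h | h | h | h | h | h) hs
      · exact h hs.refl
      · exact h hs.symm
      · exact h hs.trans
      · exact h hs.inside
      · exact h hs.across
      · exact h hs.blocks
      · exact h hs.index
  rw [e0]
  exact kis_union m1.analyticSet (kis_union m2.analyticSet (kis_union m3.analyticSet
    (kis_union m4.analyticSet (kis_union m5.analyticSet (kis_union a6 a7)))))

end Pool.Agent.H533R2.VS
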