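import Pool.Agent.H533R2.VS.Spec4

/-!
# Ordered sums form a coanalytic invariant class
-/

set_option autoImplicit false

namespace Pool.Agent.H533R2.VS

open Set
open MeasureTheory
open Pool.Agent.H899R2.VP
open Pool.Agent.H533R2.VO (RIso)

/-! ### coanalytic -/

private theorem kos_cont {a : ℕ → ℕ} (i : ℕ) (v : Fin (a i) → ℕ) :
    Continuous fun p : VO.RS a × (ℕ → ℕ) => p.1 i (p.2 ∘ v) := by
  rw [continuous_iff_continuousAt]
  intro p
  have h1 : ∀ᶠ q in nhds p, q.2 ∘ v = p.2 ∘ v := by
    have h0 : ∀ j : Fin (a i), ∀ᶠ q : VO.RS a × (ℕ → ℕ) in nhds p, q.2 (v j) = p.2 (v j) := by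
      intro j
      have hc : Continuous fun q : VO.RS a × (ℕ → ℕ) => q.2 (v j) :=
        (continuous_apply (v j)).comp continuous_snd
      exact hc.continuousAt.preimage_mem_nhds ((isOpen_discrete {p.2 (v j)}).mem_nhds rfl)
    filter_upwards [Filter.eventually_all.2 h0] with q hq
    funext j
    exact hq j
  have h2 : ∀ᶠ q : VO.RS a × (ℕ → ℕ) in nhds p, q.1 i (p.2 ∘ v) = p.1 i (p.2 ∘ v) := by
    have hc : Continuous fun q : VO.RS a × (ℕ → ℕ) => q.1 i (p.2 ∘ v) :=
      (continuous_apply (p.2 ∘ v)).comp ((continuous_apply i).comp continuous_fst)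
    exact hc.continuousAt.preimage_mem_nhds ((isOpen_discrete {p.1 i (p.2 ∘ v)}).mem_nhds rfl)
  refine (continuousAt_const (y := p.1 i (p.2 ∘ v))).congr_of_eventuallyEq ?_
  filter_upwards [h1, h2] with q hq1 hq2
  rw [hq1, hq2]

private theorem kos_contF {a : ℕ → ℕ} (ε : ℕ) :
    Continuous fun p : VO.RS a × (ℕ → ℕ) =>
      ((fun i v => if i ≠ ε then p.1 i (p.2 ∘ v) else false : VO.RS a)) := by
  refine continuous_pi fun i => continuous_pi fun v => ?_
  by_cases h : i ≠ ε
  · simp only [h, ne_eq, not_false_eq_true, if_true]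
    exact kos_cont i v
  · simp only [h, if_false]
    exact continuous_const

private theorem kos_at {a : ℕ → ℕ} (i : ℕ) (v : Fin (a i) → ℕ) (b : Bool) :
    Measurable fun x : VO.RS a => x i v = b := by
  rw [← measurableSet_setOfPred]
  have hm : Measurable fun x : VO.RS a => x i v :=
    (measurable_pi_apply v).comp (measurable_pi_apply i)
  exact hm (measurableSet_singleton b)

private theorem kos_pol (a : ℕ → ℕ) : PolishSpace (VO.RS a) := by
  have h2 : ∀ i, SecondCountableTopology ((Fin (a i) → ℕ) → Bool) := fun i => inferInstance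
  have h3 : ∀ i, TopologicalSpace.IsCompletelyMetrizableSpace ((Fin (a i) → ℕ) → Bool) :=
    fun i => inferInstance
  exact {}

private theorem kos_Coan {a : ℕ → ℕ} (ε : ℕ) (V : VO.RS a → Prop) (hV : Coan V) :
    Coan (IsOSum ε V) := by
  have hpol := kos_pol a
  have hA1 : MeasurableSet {x : VO.RS a | ¬ ((∀ u, x ε (p2 u u) = false) ∧
      (∀ u v w, x ε (p2 u v) = true → x ε (p2 v w) = true → x ε (p2 u w) = true) ∧
      (∀ u v w, x ε (p2 u w) = true → x ε (p2 u v) = true ∨ x ε (p2 v w) = true) ∧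
      (∀ i, i ≠ ε → ∀ t, x i t = true → ∀ j l, x ε (p2 (t j) (t l)) = false))} := by
    rw [measurableSet_setOfPred]
    refine Measurable.not ?_
    refine Measurable.and (Measurable.forall fun u => kos_at _ _ _) ?_
    refine Measurable.and (Measurable.forall fun u => Measurable.forall fun v =>
      Measurable.forall fun w => (kos_at _ _ _).imp ((kos_at _ _ _).imp (kos_at _ _ _))) ?_
    refine Measurable.and (Measurable.forall fun u => Measurable.forall fun v =>
      Measurable.forall fun w => (kos_at _ _ _).imp ((kos_at _ _ _).or (kos_at _ _ _))) ?_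
    refine Measurable.forall fun i => Measurable.imp measurable_const ?_
    exact Measurable.forall fun t => (kos_at _ _ _).imp (Measurable.forall fun j =>
      Measurable.forall fun l => kos_at _ _ _)
  have hB : ∀ u : ℕ, MeasurableSet {p : VO.RS a × (ℕ → ℕ) | Function.Injective p.2 ∧
      ∀ z, (p.1 ε (p2 z u) = false ∧ p.1 ε (p2 u z) = false) ↔ ∃ n, p.2 n = z} := by
    intro u
    have he : ∀ n z : ℕ, Measurable fun p : VO.RS a × (ℕ → ℕ) => p.2 n = z := by
      intro n z
      rw [← measurableSet_setOfPred]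
      have hm : Measurable fun p : VO.RS a × (ℕ → ℕ) => p.2 n :=
        (measurable_pi_apply n).comp measurable_snd
      exact hm (measurableSet_singleton z)
    have he2 : ∀ n m : ℕ, Measurable fun p : VO.RS a × (ℕ → ℕ) => p.2 n = p.2 m := by
      intro n m
      rw [← measurableSet_setOfPred]
      exact measurableSet_eq_fun ((measurable_pi_apply n).comp measurable_snd)
        ((measurable_pi_apply m).comp measurable_snd)
    rw [measurableSet_setOfPred]
    refine Measurable.and ?_ ?_
    · unfold Function.Injective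
      exact Measurable.forall fun n => Measurable.forall fun m =>
        (he2 n m).imp measurable_const
    · refine Measurable.forall fun z => Measurable.iff ?_ (Measurable.exists fun n => he n z)
      exact ((kos_at _ _ _).comp measurable_fst).and ((kos_at _ _ _).comp measurable_fst)
  have hA2 : AnalyticSet (⋃ u : ℕ, (Prod.fst : VO.RS a × (ℕ → ℕ) → VO.RS a) ''
      ({p : VO.RS a × (ℕ → ℕ) | Function.Injective p.2 ∧
      ∀ z, (p.1 ε (p2 z u) = false ∧ p.1 ε (p2 u z) = false) ↔ ∃ n, p.2 n = z} ∩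
      (fun p : VO.RS a × (ℕ → ℕ) =>
      ((fun i v => if i ≠ ε then p.1 i (p.2 ∘ v) else false : VO.RS a))) ⁻¹' {x | ¬ V x})) := by
    refine AnalyticSet.iUnion fun u => AnalyticSet.image_of_continuous ?_ continuous_fst
    rw [Set.inter_eq_iInter]
    refine AnalyticSet.iInter fun b => ?_
    cases b
    · exact AnalyticSet.preimage hV (kos_contF ε)
    · exact (hB u).analyticSet
  have hU : {x : VO.RS a | ¬ IsOSum ε V x} =
      {x : VO.RS a | ¬ ((∀ u, x ε (p2 u u) = false) ∧
      (∀ u v w, x ε (p2 u v) = true → x ε (p2 v w) = true → x ε (p2 u w) = true) ∧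
      (∀ u v w, x ε (p2 u w) = true → x ε (p2 u v) = true ∨ x ε (p2 v w) = true) ∧
      (∀ i, i ≠ ε → ∀ t, x i t = true → ∀ j l, x ε (p2 (t j) (t l)) = false))} ∪
      (⋃ u : ℕ, (Prod.fst : VO.RS a × (ℕ → ℕ) → VO.RS a) ''
      ({p : VO.RS a × (ℕ → ℕ) | Function.Injective p.2 ∧
      ∀ z, (p.1 ε (p2 z u) = false ∧ p.1 ε (p2 u z) = false) ↔ ∃ n, p.2 n = z} ∩
      (fun p : VO.RS a × (ℕ → ℕ) =>
      ((fun i v => if i ≠ ε then p.1 i (p.2 ∘ v) else false : VO.RS a))) ⁻¹' {x | ¬ V x})) := by
    apply Set.Subset.antisymm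
    · intro x hx
      by_contra hn
      apply hx
      rw [Set.mem_union, not_or] at hn
      obtain ⟨hn1, hn2⟩ := hn
      have hn1' := not_not.1 hn1
      refine ⟨hn1'.1, hn1'.2.1, hn1'.2.2.1, hn1'.2.2.2, ?_⟩
      intro u e he hz
      by_contra hv
      apply hn2
      rw [Set.mem_iUnion]
      exact ⟨u, (x, e), ⟨⟨he, hz⟩, hv⟩, rfl⟩
    · rintro x (hx | hx)
      · intro h
        exact hx ⟨h.irrefl, h.trans, h.weak, h.inside⟩
      · rw [Set.mem_iUnion] at hx
        obtain ⟨u, ⟨y, e⟩, ⟨⟨he, hz⟩, hv⟩, rfl⟩ := hx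
        intro h
        exact hv (h.blocks u e he hz)
  unfold Coan
  rw [hU, Set.union_eq_iUnion]
  refine AnalyticSet.iUnion fun b => ?_
  cases b
  · exact hA2
  · exact hA1.analyticSet

/-! ### invariant -/

private theorem kos_Inv {a : ℕ → ℕ} (ε : ℕ) (V : VO.RS a → Prop) : Inv (IsOSum ε V) := by
  rintro x y ⟨σ, hσ⟩ hx
  have hp : ∀ u v : ℕ, y ε (p2 u v) = x ε (p2 (σ.symm u) (σ.symm v)) := by
    intro u v
    rw [← hσ]
    congr 1
    funext j
    simp only [p2, Function.comp]
    split_ifs <;> simp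
  have hq : ∀ (i : ℕ) (t : Fin (a i) → ℕ), y i t = x i (⇑σ.symm ∘ t) := by
    intro i t
    rw [← hσ]
    congr 1
    funext j
    simp [Function.comp]
  refine ⟨?_, ?_, ?_, ?_, ?_⟩
  · intro u
    rw [hp]; exact hx.irrefl _
  · intro u v w h1 h2
    rw [hp] at h1 h2 ⊢
    exact hx.trans _ _ _ h1 h2
  · intro u v w h1
    rw [hp] at h1
    rw [hp, hp]
    exact hx.weak _ _ _ h1
  · intro i hi t ht j l
    rw [hp]
    rw [hq] at ht
    exact hx.inside i hi _ ht j l
  · intro u e he hz
    have h := hx.blocks (σ.symm u) (⇑σ.symm ∘ e) (σ.symm.injective.comp he) ?_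
    · have hf : (fun i v => if i ≠ ε then x i ((⇑σ.symm ∘ e) ∘ v) else false : VO.RS a) =
          (fun i v => if i ≠ ε then y i (e ∘ v) else false) := by
        funext i v
        rw [hq]
        rfl
      rw [← hf]
      exact h
    · intro z
      have h := hz (σ z)
      rw [hp, hp, Equiv.symm_apply_apply] at h
      rw [h]
      constructor
      · rintro ⟨n, hn⟩
        exact ⟨n, by simp [Function.comp, hn]⟩
      · rintro ⟨n, hn⟩
        refine ⟨n, ?_⟩
        rw [← hn]
        simp [Function.comp]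

theorem t_KOS : S_KOS := fun _ ε V hV => ⟨kos_Coan ε V hV, kos_Inv ε V⟩

end Pool.Agent.H533R2.VS
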