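import Pool.Agent.H533R2.VS.Spec4

set_option autoImplicit false

/-! KSP: the structures without infinite clique subdivision form a coanalytic invariant class. -/

namespace Pool.Agent.H533R2.VS

open Set
open MeasureTheory (AnalyticSet)
open Pool.Agent.H899R2.VP (St gaifman HasCliqueSubdivision)
open Pool.Agent.H533R2.VO (RS RIso VC)

namespace KSPAux

theorem sel {α β γ : Type} [MeasurableSpace α] [Countable β] [MeasurableSpace β]
    [MeasurableSingletonClass β] [MeasurableSpace γ] (F : β → α → γ) (hF : ∀ b, Measurable (F b))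
    (g : α → β) (hg : Measurable g) : Measurable (fun x => F (g x) x) := by
  intro s hs
  have h : (fun x => F (g x) x) ⁻¹' s = ⋃ b, (g ⁻¹' {b} ∩ F b ⁻¹' s) := by
    ext x
    simp
  rw [h]
  exact MeasurableSet.iUnion fun b => (hg (measurableSet_singleton b)).inter (hF b hs)

theorem adj_meas {a : ℕ → ℕ} (u w : ℕ) : Measurable (fun x : RS a => (gaifman x).Adj u w) := by
  have h : ∀ x : RS a, (gaifman x).Adj u w ↔
      (u ≠ w ∧ ∃ i, ∃ t : Fin (a i) → ℕ, x i t = true ∧ (u ∈ range t ∧ w ∈ range t)) :=
    fun x => Iff.rfl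
  have h2 : (fun x : RS a => (gaifman x).Adj u w) = fun x : RS a =>
      (u ≠ w ∧ ∃ i, ∃ t : Fin (a i) → ℕ, x i t = true ∧ (u ∈ range t ∧ w ∈ range t)) := by
    funext x
    exact propext (h x)
  rw [h2]
  refine Measurable.and measurable_const (Measurable.exists fun i => Measurable.exists fun t => ?_)
  refine Measurable.and ?_ measurable_const
  have h3 : Measurable (fun x : RS a => x i t) := (measurable_pi_apply t).comp (measurable_pi_apply i)
  exact (measurable_of_countable (fun b : Bool => b = true)).comp h3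

/-- The list is the support of a walk. -/
def IsW (G : SimpleGraph ℕ) (u w : ℕ) (l : List ℕ) : Prop := ∃ p : G.Walk u w, p.support = l

theorem isW_nil (G : SimpleGraph ℕ) (u w : ℕ) : ¬ IsW G u w [] := by
  rintro ⟨p, hp⟩
  exact p.support_ne_nil hp

theorem isW_cons (G : SimpleGraph ℕ) (u w c : ℕ) (l : List ℕ) :
    IsW G u w (c :: l) ↔ (u = c ∧ ((u = w ∧ l = []) ∨ ∃ b, G.Adj u b ∧ IsW G b w l)) := by
  constructor
  · rintro ⟨p, hp⟩
    cases p with
    | nil =>
      simp only [SimpleGraph.Walk.support_nil, List.cons.injEq] at hp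
      exact ⟨hp.1, Or.inl ⟨rfl, hp.2.symm⟩⟩
    | cons h q =>
      simp only [SimpleGraph.Walk.support_cons, List.cons.injEq] at hp
      exact ⟨hp.1, Or.inr ⟨_, h, q, hp.2⟩⟩
  · rintro ⟨rfl, ⟨rfl, rfl⟩ | ⟨b, hb, q, hq⟩⟩
    · exact ⟨SimpleGraph.Walk.nil, by simp⟩
    · exact ⟨SimpleGraph.Walk.cons hb q, by simp [hq]⟩

theorem isW_meas {a : ℕ → ℕ} (w : ℕ) (l : List ℕ) : ∀ u : ℕ,
    Measurable (fun x : RS a => IsW (gaifman x) u w l) := by
  induction l with
  | nil =>
    intro u
    have h : (fun x : RS a => IsW (gaifman x) u w []) = fun _ => False := by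
      funext x
      exact propext ⟨fun h => isW_nil _ _ _ h, False.elim⟩
    rw [h]
    exact measurable_const
  | cons c l ih =>
    intro u
    have h : (fun x : RS a => IsW (gaifman x) u w (c :: l)) = fun x : RS a =>
        (u = c ∧ ((u = w ∧ l = []) ∨ ∃ b, (gaifman x).Adj u b ∧ IsW (gaifman x) b w l)) := by
      funext x
      exact propext (isW_cons _ _ _ _ _)
    rw [h]
    refine Measurable.and measurable_const (Measurable.or measurable_const
      (Measurable.exists fun b => Measurable.and (adj_meas u b) (ih b)))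

/-- decoding of lists -/
def dec (n : ℕ) : List ℕ := Denumerable.ofNat (List ℕ) n

theorem dec_encode (l : List ℕ) : dec (Encodable.encode l) = l := Denumerable.ofNat_encode l

/-- the space of the codes -/
abbrev E (a : ℕ → ℕ) : Type := RS a × (ℕ → ℕ) × (ℕ → ℕ → ℕ)

/-- the conditions -/
def Q {a : ℕ → ℕ} (e : E a) : Prop :=
  (∀ i j, e.2.1 i = e.2.1 j → i = j) ∧
  (∀ i j, i < j → IsW (gaifman e.1) (e.2.1 i) (e.2.1 j) (dec (e.2.2 i j))) ∧
  (∀ i j, i < j → (dec (e.2.2 i j)).Nodup) ∧
  (∀ i j k, i < j → e.2.1 k ∈ dec (e.2.2 i j) → k = i ∨ k = j) ∧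
  (∀ i j i' j', i < j → i' < j' → (i, j) ≠ (i', j') → ∀ x, x ∈ dec (e.2.2 i j) →
    x ∈ dec (e.2.2 i' j') → ∃ k, x = e.2.1 k)

theorem v_meas {a : ℕ → ℕ} (i : ℕ) : Measurable (fun e : E a => e.2.1 i) :=
  (measurable_pi_apply i).comp (measurable_fst.comp measurable_snd)

theorem L_meas {a : ℕ → ℕ} (i j : ℕ) : Measurable (fun e : E a => e.2.2 i j) :=
  (measurable_pi_apply j).comp ((measurable_pi_apply i).comp (measurable_snd.comp measurable_snd))

theorem Q_meas {a : ℕ → ℕ} : Measurable (fun e : E a => Q e) := by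
  unfold Q
  refine Measurable.and ?_ (Measurable.and ?_ (Measurable.and ?_ (Measurable.and ?_ ?_)))
  · refine Measurable.forall fun i => Measurable.forall fun j => ?_
    exact (measurable_of_countable (fun b : ℕ × ℕ => b.1 = b.2 → i = j)).comp
      ((v_meas i).prodMk (v_meas j))
  · refine Measurable.forall fun i => Measurable.forall fun j => Measurable.imp measurable_const ?_
    exact sel (fun (b : ℕ × ℕ × ℕ) (e : E a) => IsW (gaifman e.1) b.1 b.2.1 (dec b.2.2))
      (fun b => (isW_meas b.2.1 (dec b.2.2) b.1).comp measurable_fst)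
      (fun e => (e.2.1 i, e.2.1 j, e.2.2 i j))
      ((v_meas i).prodMk ((v_meas j).prodMk (L_meas i j)))
  · refine Measurable.forall fun i => Measurable.forall fun j => Measurable.imp measurable_const ?_
    exact (measurable_of_countable (fun b : ℕ => (dec b).Nodup)).comp (L_meas i j)
  · refine Measurable.forall fun i => Measurable.forall fun j => Measurable.forall fun k =>
      Measurable.imp measurable_const ?_
    exact (measurable_of_countable (fun b : ℕ × ℕ => b.1 ∈ dec b.2 → k = i ∨ k = j)).comp
      ((v_meas k).prodMk (L_meas i j))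
  · refine Measurable.forall fun i => Measurable.forall fun j => Measurable.forall fun i' =>
      Measurable.forall fun j' => Measurable.imp measurable_const (Measurable.imp measurable_const
      (Measurable.imp measurable_const (Measurable.forall fun x => Measurable.imp ?_
      (Measurable.imp ?_ (Measurable.exists fun k => ?_)))))
    · exact (measurable_of_countable (fun b : ℕ => x ∈ dec b)).comp (L_meas i j)
    · exact (measurable_of_countable (fun b : ℕ => x ∈ dec b)).comp (L_meas i' j')
    · exact (measurable_of_countable (fun b : ℕ => x = b)).comp (v_meas k)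

theorem proj {a : ℕ → ℕ} : {x : RS a | HasCliqueSubdivision (gaifman x)} =
    Prod.fst '' {e : E a | Q e} := by
  classical
  ext x
  constructor
  · rintro ⟨v, hv, P, h1, h2, h3⟩
    refine ⟨(x, v, fun i j => Encodable.encode (P i j).support), ?_, rfl⟩
    refine ⟨fun i j hij => hv hij, ?_, ?_, ?_, ?_⟩
    · intro i j _
      refine ⟨P i j, ?_⟩
      exact (dec_encode _).symm
    · intro i j hij
      show (dec (Encodable.encode (P i j).support)).Nodup
      rw [dec_encode]
      exact (SimpleGraph.Walk.isPath_def _).1 (h1 i j hij)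
    · intro i j k hij hk
      have hk' : v k ∈ dec (Encodable.encode (P i j).support) := hk
      rw [dec_encode] at hk'
      exact h2 i j k hij hk'
    · intro i j i' j' hij hij' hne z hz hz'
      have hz1 : z ∈ dec (Encodable.encode (P i j).support) := hz
      have hz2 : z ∈ dec (Encodable.encode (P i' j').support) := hz'
      rw [dec_encode] at hz1 hz2
      exact h3 i j i' j' hij hij' hne z hz1 hz2
  · rintro ⟨⟨x', v, L⟩, ⟨h0, h1, h2, h3, h4⟩, rfl⟩
    have hP : ∀ i j, ∃ p : (gaifman x').Walk (v i) (v j), i < j → p.support = dec (L i j) := by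
      intro i j
      rcases lt_trichotomy i j with h | h | h
      · obtain ⟨p, hp⟩ := h1 i j h
        exact ⟨p, fun _ => hp⟩
      · subst h
        exact ⟨SimpleGraph.Walk.nil, fun h => absurd h (lt_irrefl _)⟩
      · obtain ⟨p, _⟩ := h1 j i h
        exact ⟨p.reverse, fun h' => absurd h (lt_asymm h')⟩
    choose P hP using hP
    refine ⟨v, fun i j hij => h0 i j hij, P, ?_, ?_, ?_⟩
    · intro i j hij
      rw [SimpleGraph.Walk.isPath_def, hP i j hij]
      exact h2 i j hij
    · intro i j k hij hk
      rw [hP i j hij] at hk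
      exact h3 i j k hij hk
    · intro i j i' j' hij hij' hne z hz hz'
      rw [hP i j hij] at hz
      rw [hP i' j' hij'] at hz'
      exact h4 i j i' j' hij hij' hne z hz hz'

theorem polishE (a : ℕ → ℕ) : PolishSpace (E a) :=
  { toSecondCountableTopology := inferInstance, toIsCompletelyMetrizableSpace := inferInstance }

theorem borelE1 (a : ℕ → ℕ) : BorelSpace (RS a) := inferInstance

theorem borelE2 : BorelSpace ((ℕ → ℕ) × (ℕ → ℕ → ℕ)) := inferInstance

theorem borelE (a : ℕ → ℕ) : BorelSpace (E a) := by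
  haveI := borelE1 a
  haveI := borelE2
  haveI : SecondCountableTopology (RS a) := inferInstance
  haveI : SecondCountableTopology ((ℕ → ℕ) × (ℕ → ℕ → ℕ)) := inferInstance
  exact Prod.borelSpace

theorem map_sub {G G' : SimpleGraph ℕ} (φ : G →g G') (hφ : Function.Injective φ)
    (h : HasCliqueSubdivision G) : HasCliqueSubdivision G' := by
  obtain ⟨v, hv, P, h1, h2, h3⟩ := h
  refine ⟨fun i => φ (v i), fun i j hij => hv (hφ hij), fun i j => (P i j).map φ, ?_, ?_, ?_⟩
  · intro i j hij
    exact SimpleGraph.Walk.map_isPath_of_injective hφ (h1 i j hij)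
  · intro i j k hij hk
    rw [SimpleGraph.Walk.support_map, List.mem_map] at hk
    obtain ⟨z, hz, hz'⟩ := hk
    rw [hφ hz'] at hz
    exact h2 i j k hij hz
  · intro i j i' j' hij hij' hne z hz hz'
    rw [SimpleGraph.Walk.support_map, List.mem_map] at hz hz'
    obtain ⟨u, hu, rfl⟩ := hz
    obtain ⟨u', hu', he⟩ := hz'
    rw [hφ he] at hu'
    obtain ⟨k, hk⟩ := h3 i j i' j' hij hij' hne u hu hu'
    exact ⟨k, by rw [hk]⟩

end KSPAux

open KSPAux in
theorem t_KSP : S_KSP := by
  intro a
  constructor
  · unfold Coan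
    have h : {x : RS a | ¬ ¬ HasCliqueSubdivision (gaifman x)} = Prod.fst '' {e : E a | Q e} := by
      rw [← proj]
      ext x
      simp
    rw [h]
    have h2 : MeasurableSet {e : E a | Q e} := Q_meas.setOf
    haveI := polishE a
    haveI := borelE a
    exact h2.analyticSet.image_of_continuous continuous_fst
  · intro x y hxy hx hy
    apply hx
    obtain ⟨σ, hσ⟩ := hxy
    refine map_sub (G := gaifman y) (G' := gaifman x) ⟨fun z => σ.symm z, ?_⟩ σ.symm.injective hy
    rintro u w ⟨hne, i, t, ht, ⟨k, hk⟩, ⟨l, hl⟩⟩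
    refine ⟨fun h => hne (σ.symm.injective h), i, ⇑σ.symm ∘ t, ?_, ⟨k, ?_⟩, ⟨l, ?_⟩⟩
    · rw [← hσ]
      have h3 : ⇑σ ∘ ⇑σ.symm ∘ t = t := by
        funext j
        simp
      rw [h3]
      exact ht
    · show σ.symm (t k) = σ.symm u
      rw [hk]
    · show σ.symm (t l) = σ.symm w
      rw [hl]

end Pool.Agent.H533R2.VS
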