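import Pool.Agent.H533R2.VS.Spec4

set_option autoImplicit false

/-!
# Unions of coanalytic invariant classes
-/

namespace Pool.Agent.H533R2.VS

open Set
open MeasureTheory (AnalyticSet)
open Pool.Agent.H533R2.VO (RS RIso)

theorem t_KUNB : S_KUN := by
  intro a V W hV hW iV iW
  refine ⟨?_, ?_⟩
  · have h1 : AnalyticSet (⋂ b : Bool, (if b = true then {x : RS a | ¬ V x} else
        {x : RS a | ¬ W x})) := by
      refine AnalyticSet.iInter fun b => ?_
      cases b
      · exact hW
      · exact hV
    have h2 : (⋂ b : Bool, (if b = true then {x : RS a | ¬ V x} else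
        {x : RS a | ¬ W x})) = {x : RS a | ¬ (V x ∨ W x)} := by
      ext x
      simp only [mem_iInter, Bool.forall_bool]
      constructor
      · rintro ⟨h3, h4⟩ h5
        rcases h5 with h5 | h5
        · exact h4 h5
        · exact h3 h5
      · intro h3
        exact ⟨fun h4 => h3 (Or.inr h4), fun h4 => h3 (Or.inl h4)⟩
    show AnalyticSet {x : RS a | ¬ (V x ∨ W x)}
    rw [← h2]
    exact h1
  · intro x y h hx
    rcases hx with hx | hx
    · exact Or.inl (iV x y h hx)
    · exact Or.inr (iW x y h hx)

end Pool.Agent.H533R2.VS
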