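import Pool.Agent.H533R2.VS.Spec4

set_option autoImplicit false

/-!
# Generalised sums are an invariant class
-/

namespace Pool.Agent.H533R2.VS

open Set
open Pool.Agent.H899R2.VP (St Adj PIso BF IsoOn idOn inv comp zipSet gaifman HasCliqueSubdivision)
open Pool.Agent.H533R2.VO (Glu RS RIso VC Dich put)

theorem nis_p2 (f : ℕ → ℕ) {n : ℕ} (u v : ℕ) : (p2 (f u) (f v) : Fin n → ℕ) = f ∘ p2 u v := by
  funext j
  unfold p2
  show _ = f (if _ then _ else _)
  split_ifs <;> rfl

theorem t_NIS : S_NIS := by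
  intro a ε k V1 V2 x y hxy hx
  obtain ⟨σ, hσ⟩ := hxy
  have hy : ∀ i (t : Fin (a i) → ℕ), y i t = x i (⇑σ.symm ∘ t) := by
    intro i t
    have h1 := hσ i (⇑σ.symm ∘ t)
    have h2 : ⇑σ ∘ (⇑σ.symm ∘ t) = t := by
      funext j
      exact σ.apply_symm_apply _
    rw [h2] at h1
    exact h1
  have he : ∀ u v, y ε (p2 u v) = x ε (p2 (σ.symm u) (σ.symm v)) := by
    intro u v
    rw [hy, ← nis_p2]
  refine ⟨?_, ?_, ?_, ?_, ?_, ?_, ?_⟩
  · intro u
    rw [he]
    exact hx.refl _
  · intro u v h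
    rw [he] at h ⊢
    exact hx.symm _ _ h
  · intro u v w h1 h2
    rw [he] at h1 h2 ⊢
    exact hx.trans _ _ _ h1 h2
  · intro i hi hk t ht j l
    rw [he]
    rw [hy] at ht
    exact hx.inside i hi hk _ ht j l
  · intro i hi hk t t' h
    rw [hy, hy]
    refine hx.across i hi hk _ _ fun j => ?_
    have h1 := h j
    rw [he] at h1
    exact h1
  · intro u e hinj hz
    have h1 := hx.blocks (σ.symm u) (⇑σ.symm ∘ e) (σ.symm.injective.comp hinj) (by
      intro z
      have h2 := he u (σ z)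
      rw [σ.symm_apply_apply] at h2
      rw [← h2, hz]
      constructor
      · rintro ⟨n, hn⟩
        exact ⟨n, by show σ.symm (e n) = z; rw [hn, σ.symm_apply_apply]⟩
      · rintro ⟨n, hn⟩
        have hn : σ.symm (e n) = z := hn
        exact ⟨n, by rw [← hn, σ.apply_symm_apply]⟩)
    have h3 : (fun (i : ℕ) (v : Fin (a i) → ℕ) => if i ≠ ε ∧ k i = false then y i (e ∘ v) else false) =
        fun (i : ℕ) (v : Fin (a i) → ℕ) =>
          if i ≠ ε ∧ k i = false then x i ((⇑σ.symm ∘ e) ∘ v) else false := by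
      funext i v
      rw [hy]
      rfl
    rw [h3]
    exact h1
  · intro e h1 h2
    have h4 := hx.index (⇑σ.symm ∘ e) (by
      intro m n
      rw [← h1 m n, he]
      rfl) (by
      intro z
      obtain ⟨n, hn⟩ := h2 (σ z)
      rw [he, σ.symm_apply_apply] at hn
      exact ⟨n, hn⟩)
    have h3 : (fun (i : ℕ) (v : Fin (a i) → ℕ) => if i ≠ ε ∧ k i = true then y i (e ∘ v) else false) =
        fun (i : ℕ) (v : Fin (a i) → ℕ) =>
          if i ≠ ε ∧ k i = true then x i ((⇑σ.symm ∘ e) ∘ v) else false := by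
      funext i v
      rw [hy]
      rfl
    rw [h3]
    exact h4

end Pool.Agent.H533R2.VS
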