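import Pool.Agent.H533R2.VS.Spec3
import Pool.Agent.H533R2.VO.All

set_option autoImplicit false

/-!
# The closure theorems for structures without further unary predicates
-/

namespace Pool.Agent.H533R2.VS

open Set
open Pool.Agent.H899R2.VP (St Adj PIso BF IsoOn idOn inv comp zipSet gaifman HasCliqueSubdivision)
open Pool.Agent.H533R2.VO (Glu RS RIso VC Dich put)

/-- Isomorphism. -/
def pln_OI {a : ℕ → ℕ} (M N : St a) : Prop := ∃ σ : Equiv.Perm ℕ,
  (∀ x y, N.1 (σ x) (σ y) = M.1 x y) ∧ ∀ (i : ℕ) (v : Fin (a i) → ℕ), N.2 i (⇑σ ∘ v) = M.2 i v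

/-- The structure without the relation `ε`. -/
def pln_era {a : ℕ → ℕ} (ε : ℕ) (x : RS a) : RS a := fun i t => if i = ε then false else x i t

/-- The relation `ε` is the distinguished binary relation. -/
def pln_phi {a : ℕ → ℕ} (ε : ℕ) (x : RS a) : St a :=
  (fun u v => x ε (p2 u v), pln_era ε x)

/-- The inverse of `pln_phi`. -/
def pln_psi {a : ℕ → ℕ} (ε : ℕ) (hε : a ε = 2) (M : St a) : RS a :=
  fun i t => if h : i = ε then
      M.1 (t ⟨0, by rw [h, hε]; exact two_pos⟩) (t ⟨1, by rw [h, hε]; exact one_lt_two⟩)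
    else M.2 i t

variable {a : ℕ → ℕ} {ε : ℕ}

theorem pln_eta (hε : a ε = 2) (t : Fin (a ε) → ℕ) :
    p2 (t ⟨0, by rw [hε]; exact two_pos⟩) (t ⟨1, by rw [hε]; exact one_lt_two⟩) = t := by
  funext j
  have hj : j.val < 2 := by
    have := j.isLt
    omega
  unfold p2
  by_cases h : j.val = 0
  · rw [if_pos h]
    congr 1
    apply Fin.ext
    exact h.symm
  · rw [if_neg h]
    congr 1
    apply Fin.ext
    show 1 = j.val
    omega

theorem pln_psi_phi (hε : a ε = 2) (x : RS a) : pln_psi ε hε (pln_phi ε x) = x := by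
  funext i t
  by_cases h : i = ε
  · subst h
    show (if h : i = i then _ else _) = _
    rw [dif_pos rfl]
    show x i (p2 _ _) = x i t
    rw [pln_eta hε t]
  · show (if h : i = ε then _ else _) = _
    rw [dif_neg h]
    show pln_era ε x i t = x i t
    unfold pln_era
    rw [if_neg h]

theorem pln_phi_psi (hε : a ε = 2) (M : St a) (hM : ∀ t, M.2 ε t = false) :
    pln_phi ε (pln_psi ε hε M) = M := by
  obtain ⟨A, R⟩ := M
  refine Prod.ext ?_ ?_
  · funext u v
    show (if h : ε = ε then _ else _) = _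
    rw [dif_pos rfl]
    rfl
  · show pln_era ε (pln_psi ε hε (A, R)) = R
    funext i t
    unfold pln_era
    by_cases h : i = ε
    · subst h
      rw [if_pos rfl]
      exact (hM _).symm
    · rw [if_neg h]
      show (if h : i = ε then _ else _) = _
      rw [dif_neg h]

theorem pln_phi_iso {x y : RS a} (h : RIso x y) : pln_OI (pln_phi ε x) (pln_phi ε y) := by
  obtain ⟨σ, h1⟩ := h
  have hp : ∀ {n : ℕ} (u v : ℕ), (p2 (σ u) (σ v) : Fin n → ℕ) = ⇑σ ∘ p2 u v := by
    intro n u v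
    funext j
    unfold p2
    show _ = σ (if _ then _ else _)
    split_ifs <;> rfl
  refine ⟨σ, fun u v => ?_, fun n t => ?_⟩
  · show y ε (p2 (σ u) (σ v)) = x ε (p2 u v)
    rw [hp, h1]
  · show pln_era ε y n (⇑σ ∘ t) = pln_era ε x n t
    unfold pln_era
    split_ifs with h
    · rfl
    · exact h1 n _

theorem pln_psi_iso (hε : a ε = 2) {M N : St a} (h : pln_OI M N) :
    RIso (pln_psi ε hε M) (pln_psi ε hε N) := by
  obtain ⟨σ, h1, h2⟩ := h
  refine ⟨σ, fun i t => ?_⟩
  show (if h : i = ε then _ else _) = (if h : i = ε then _ else _)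
  by_cases h : i = ε
  · rw [dif_pos h, dif_pos h]
    exact h1 _ _
  · rw [dif_neg h, dif_neg h]
    exact h2 i _

theorem pln_psi_cont (hε : a ε = 2) : Continuous (pln_psi ε hε : St a → RS a) := by
  refine continuous_pi fun i => continuous_pi fun t => ?_
  by_cases h : i = ε
  · simp only [pln_psi, dif_pos h]
    exact (continuous_apply _).comp ((continuous_apply _).comp continuous_fst)
  · simp only [pln_psi, dif_neg h]
    exact (continuous_apply _).comp ((continuous_apply i).comp continuous_snd)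

theorem pln_main (hε : a ε = 2) (B : Set (RS a)) (hBm : MeasurableSet B)
    (hBi : ∀ x y, RIso x y → (x ∈ B ↔ y ∈ B))
    (H : ∀ B' : Set (St a), MeasurableSet B' →
      (∀ M N : St a, ∀ σ : Equiv.Perm ℕ, (∀ x y, N.1 (σ x) (σ y) = M.1 x y) →
        (∀ (i : ℕ) (v : Fin (a i) → ℕ), N.2 i (⇑σ ∘ v) = M.2 i v) → (M ∈ B' ↔ N ∈ B')) →
      (∀ M ∈ B', ∃ y ∈ B, M = pln_phi ε y) →
      (∃ f : ℕ → St a, ∀ M ∈ B', ∃ n, ∃ σ : Equiv.Perm ℕ,
        (∀ x y, M.1 (σ x) (σ y) = (f n).1 x y) ∧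
        ∀ (i : ℕ) (v : Fin (a i) → ℕ), M.2 i (⇑σ ∘ v) = (f n).2 i v) ∨
      (∃ g : (ℕ → Bool) → St a, Continuous g ∧ (∀ c, g c ∈ B') ∧
        ∀ c d : ℕ → Bool, (∃ σ : Equiv.Perm ℕ, (∀ x y, (g d).1 (σ x) (σ y) = (g c).1 x y) ∧
          ∀ (i : ℕ) (v : Fin (a i) → ℕ), (g d).2 i (⇑σ ∘ v) = (g c).2 i v) → c = d)) :
    Dich B := by
  let B' : Set (St a) := {M | pln_psi ε hε M ∈ B} ∩ {M | ∀ t, M.2 ε t = false}
  have hB' : MeasurableSet B' := by
    refine MeasurableSet.inter ((pln_psi_cont hε).measurable hBm) ?_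
    have : {M : St a | ∀ t, M.2 ε t = false} =
        ⋂ t, {M : St a | M.2 ε t = false} := by
      ext M
      simp
    rw [this]
    refine IsClosed.measurableSet (isClosed_iInter fun t => ?_)
    exact isClosed_eq ((continuous_apply t).comp ((continuous_apply ε).comp continuous_snd))
      continuous_const
  have hinv1 : ∀ M N : St a, pln_OI M N → M ∈ B' → N ∈ B' := by
    intro M N h hM
    refine ⟨(hBi _ _ (pln_psi_iso hε h)).1 hM.1, ?_⟩
    obtain ⟨σ, -, h2⟩ := h
    intro t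
    have h3 := h2 ε (⇑σ.symm ∘ t)
    have h4 : ⇑σ ∘ (⇑σ.symm ∘ t) = t := by
      funext j
      exact σ.apply_symm_apply _
    rw [h4] at h3
    rw [h3]
    exact hM.2 _
  have hsymm : ∀ M N : St a, pln_OI M N → pln_OI N M := by
    rintro M N ⟨σ, h1, h2⟩
    refine ⟨σ.symm, fun x y => ?_, fun i v => ?_⟩
    · have h3 := h1 (σ.symm x) (σ.symm y)
      rw [σ.apply_symm_apply, σ.apply_symm_apply] at h3
      exact h3.symm
    · have h3 := h2 i (⇑σ.symm ∘ v)
      have h4 : ⇑σ ∘ (⇑σ.symm ∘ v) = v := by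
        funext j
        exact σ.apply_symm_apply _
      rw [h4] at h3
      exact h3.symm
  have hphi : ∀ y ∈ B, pln_phi ε y ∈ B' := by
    intro y hy
    refine ⟨?_, ?_⟩
    · show pln_psi ε hε (pln_phi ε y) ∈ B
      rw [pln_psi_phi]
      exact hy
    · intro t
      show pln_era ε y ε t = false
      unfold pln_era
      rw [if_pos rfl]
  rcases H B' hB' (fun M N σ h1 h2 => ⟨hinv1 M N ⟨σ, h1, h2⟩, hinv1 N M (hsymm M N ⟨σ, h1, h2⟩)⟩)
    (fun M hM => ⟨pln_psi ε hε M, hM.1, (pln_phi_psi hε M hM.2).symm⟩) with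
    ⟨f, hf⟩ | ⟨g, g1, g2, g3⟩
  · left
    refine ⟨fun n => pln_psi ε hε (f n), fun y hy => ?_⟩
    obtain ⟨n, σ, h1, h2⟩ := hf _ (hphi y hy)
    refine ⟨n, ?_⟩
    have h3 : RIso (pln_psi ε hε (f n)) (pln_psi ε hε (pln_phi ε y)) :=
      pln_psi_iso hε ⟨σ, h1, h2⟩
    rwa [pln_psi_phi] at h3
  · right
    refine ⟨fun c => pln_psi ε hε (g c), (pln_psi_cont hε).comp g1, fun c => (g2 c).1, ?_⟩
    intro c d h
    have h1 : pln_OI (pln_phi ε (pln_psi ε hε (g c))) (pln_phi ε (pln_psi ε hε (g d))) :=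
      pln_phi_iso h
    rw [pln_phi_psi hε _ (g2 c).2, pln_phi_psi hε _ (g2 d).2] at h1
    exact g3 c d h1

theorem pln_sum (hS : S_SFINAL) : ∀ a : ℕ → ℕ, (∀ i, 0 < a i) → ∀ ε : ℕ, a ε = 2 →
    ∀ (k : ℕ → Bool) (V1 V2 : RS a → Prop), VCu V1 → VC V2 → VC (IsSum ε k V1 V2) := by
  intro a ha ε hε k V1 V2 hV1 hV2 B hBm hBi hBV
  refine pln_main hε B hBm hBi fun B' hm hi hB' => ?_
  refine hS a k ha V1 V2 hV1 hV2 B' hm hi ?_
  intro M hM
  obtain ⟨y, hy, rfl⟩ := hB' M hM
  have h := hBV y hy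
  have hr : ∀ (b : Bool) (e : ℕ → ℕ), rst k b (fun i v => (pln_phi ε y).2 i (e ∘ v)) =
      (fun i v => if i ≠ ε ∧ k i = b then y i (e ∘ v) else false) := by
    intro b e
    funext i v
    show (if k i = b then (if i = ε then false else y i (e ∘ v)) else false) = _
    by_cases hie : i = ε
    · rw [if_pos hie, if_neg (show ¬ (i ≠ ε ∧ k i = b) from fun hh => hh.1 hie)]
      simp
    · rw [if_neg hie]
      by_cases hk : k i = b
      · rw [if_pos hk, if_pos ⟨hie, hk⟩]
      · rw [if_neg hk, if_neg (fun hh => hk hh.2)]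
  refine ⟨⟨h.refl, h.symm, h.trans, ?_, ?_⟩, ?_, ?_⟩
  · intro i hk t ht j l
    have ht' : (if i = ε then false else y i t) = true := ht
    by_cases hie : i = ε
    · rw [if_pos hie] at ht'
      exact absurd ht' (by simp)
    · rw [if_neg hie] at ht'
      exact h.inside i hie hk t ht' j l
  · intro i hk t t' htt
    show (if i = ε then false else y i t) = (if i = ε then false else y i t')
    by_cases hie : i = ε
    · rw [if_pos hie, if_pos hie]
    · rw [if_neg hie, if_neg hie]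
      exact h.across i hie hk t t' htt
  · intro u e he hz
    rw [hr]
    exact h.blocks u e he hz
  · intro e h2 h3
    rw [hr]
    exact h.index e h2 h3

theorem pln_ord : ∀ (a : ℕ → ℕ) (ε : ℕ), a ε = 2 → ∀ V : RS a → Prop, VC V →
    VC (IsOSum ε V) := by
  intro a ε hε V hV B hBm hBi hBV
  refine pln_main hε B hBm hBi fun B' hm hi hB' => ?_
  refine Pool.Agent.H533R2.VO.final a V hV B' hm hi ?_
  intro M hM
  obtain ⟨y, hy, rfl⟩ := hB' M hM
  have h := hBV y hy
  have key : ∀ u v, ¬ Adj (pln_phi ε y) u v ↔ y ε (p2 u v) = false := by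
    intro u v
    unfold Adj
    show ¬ y ε (p2 u v) = true ↔ _
    cases y ε (p2 u v) <;> simp
  refine ⟨⟨fun u => (key u u).2 (h.irrefl u), h.trans, h.weak, ?_⟩, ?_⟩
  · intro i t ht j l
    rw [key]
    have ht' : (if i = ε then false else y i t) = true := ht
    by_cases hie : i = ε
    · rw [if_pos hie] at ht'
      exact absurd ht' (by simp)
    · rw [if_neg hie] at ht'
      exact h.inside i hie t ht' j l
  · intro u e he hz
    have h1 := h.blocks u e he (fun z => by
      rw [← hz z, Pool.Agent.H533R2.VO.mem_Ic, key, key])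
    have h2 : (fun i v => (pln_phi ε y).2 i (e ∘ v)) =
        (fun i v => if i ≠ ε then y i (e ∘ v) else false) := by
      funext i v
      show (if i = ε then false else y i (e ∘ v)) = _
      by_cases hie : i = ε
      · rw [if_pos hie, if_neg (fun hh => hh hie)]
      · rw [if_neg hie, if_pos hie]
    rw [h2]
    exact h1

end Pool.Agent.H533R2.VS
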