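import Pool.Agent.H533R2.VS.Spec4

set_option autoImplicit false

/-! Task PSEP: invariant separation of two analytic sets. -/

namespace Pool.Agent.H533R2.VS

open Set
open MeasureTheory (AnalyticSet)
open Pool.Agent.H899R2.VP
open Pool.Agent.H533R2.VO (Glu RIso VC Dich put)

theorem psep_symm {a : ℕ → ℕ} {x y : US a} (h : UIso x y) : UIso y x := by
  obtain ⟨σ, h1, h2⟩ := h
  refine ⟨σ⁻¹, fun i v => ?_, fun i u => ?_⟩
  · rw [← h1 i (⇑σ⁻¹ ∘ v)]
    have e : (⇑σ ∘ ⇑σ⁻¹ ∘ v) = v := by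
      funext j
      simp
    rw [e]
  · rw [← h2 i (σ⁻¹ u)]
    simp

theorem psep_polish_of {X : Type*} [TopologicalSpace X] [h1 : SecondCountableTopology X]
    [h2 : TopologicalSpace.IsCompletelyMetrizableSpace X] : PolishSpace X := { h1, h2 with }

theorem psep_step {a : ℕ → ℕ} (h : S_SAT) (A' : Set (US a)) (hA' : AnalyticSet A')
    (hinv : ∀ x y, UIso x y → x ∈ A' → y ∈ A') (D : Set (US a)) (hD : MeasurableSet D)
    (hdis : Disjoint D A') : ∃ D' : Set (US a), MeasurableSet D' ∧ Disjoint D' A' ∧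
      ∀ x ∈ D, ∀ y, UIso x y → y ∈ D' := by
  have b1 : BorelSpace ((i : ℕ) → (Fin (a i) → ℕ) → Bool) := inferInstance
  have b2 : BorelSpace (ℕ → ℕ → Bool) := inferInstance
  have s1 : SecondCountableTopology (US a) := inferInstance
  have b3 : BorelSpace (US a) := inferInstance
  have b5 : PolishSpace (US a) := psep_polish_of
  have h1 : AnalyticSet {y : US a | ∃ x ∈ D, UIso x y} := h a D hD.analyticSet
  have h2 : Disjoint {y : US a | ∃ x ∈ D, UIso x y} A' := by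
    rw [Set.disjoint_left]
    rintro y ⟨x, hx, hxy⟩ hy
    exact Set.disjoint_left.1 hdis hx (hinv y x (psep_symm hxy) hy)
  obtain ⟨D', h3, h4, h5⟩ := h1.measurablySeparable hA' h2
  exact ⟨D', h5, h4.symm, fun x hx y hxy => h3 ⟨x, hx, hxy⟩⟩

theorem t_PSEP (h : S_SAT) : S_PSEP := by
  intro a A A' hA hA' hinvA hinvA' hdis
  have b1 : BorelSpace ((i : ℕ) → (Fin (a i) → ℕ) → Bool) := inferInstance
  have b2 : BorelSpace (ℕ → ℕ → Bool) := inferInstance
  have s1 : SecondCountableTopology (US a) := inferInstance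
  have b3 : BorelSpace (US a) := inferInstance
  obtain ⟨D0, h1, h2, h3⟩ := hA.measurablySeparable hA' hdis
  choose f hf1 hf2 hf3 using psep_step h A' hA' hinvA'
  let g : ℕ → {D : Set (US a) // MeasurableSet D ∧ Disjoint D A'} := fun n =>
    Nat.rec ⟨D0, h3, h2.symm⟩ (fun _ D => ⟨f D.1 D.2.1 D.2.2, hf1 _ _ _, hf2 _ _ _⟩) n
  have hstep : ∀ n, ∀ x ∈ (g n).1, ∀ y, UIso x y → y ∈ (g (n + 1)).1 := by
    intro n x hx y hxy
    exact hf3 (g n).1 (g n).2.1 (g n).2.2 x hx y hxy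
  refine ⟨⋃ n, (g n).1, MeasurableSet.iUnion fun n => (g n).2.1, ?_, ?_, ?_⟩
  · have key : ∀ x y, UIso x y → x ∈ (⋃ n, (g n).1) → y ∈ (⋃ n, (g n).1) := by
      intro x y hxy hx
      obtain ⟨n, hn⟩ := Set.mem_iUnion.1 hx
      exact Set.mem_iUnion.2 ⟨n + 1, hstep n x hn y hxy⟩
    exact fun x y hxy => ⟨key x y hxy, key y x (psep_symm hxy)⟩
  · exact h1.trans (Set.subset_iUnion (fun n => (g n).1) 0)
  · rw [Set.disjoint_iUnion_left]
    exact fun n => (g n).2.2

end Pool.Agent.H533R2.VS
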