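import Pool.Agent.H533R2.VS.Spec4

set_option autoImplicit false

namespace Pool.Agent.H533R2.VS

open Set
open MeasureTheory (AnalyticSet)
open Pool.Agent.H899R2.VP
open Pool.Agent.H533R2.VO (Glu RIso VC Dich put)

private lemma sat_cont {β : Type} [TopologicalSpace β] (n : ℕ) (h : β → (Fin n → ℕ) → Bool)
    (w : β → (Fin n → ℕ)) (hh : Continuous h) (hw : Continuous w) :
    Continuous fun b => h b (w b) := by
  have h1 : Continuous fun p : ((Fin n → ℕ) → Bool) × (Fin n → ℕ) => p.1 p.2 := by
    rw [continuous_prod_of_discrete_right]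
    intro b
    exact continuous_apply b
  exact h1.comp (hh.prodMk hw)

private lemma sat_cont1 {β : Type} [TopologicalSpace β] (h : β → ℕ → Bool)
    (w : β → ℕ) (hh : Continuous h) (hw : Continuous w) :
    Continuous fun b => h b (w b) := by
  have h1 : Continuous fun p : (ℕ → Bool) × ℕ => p.1 p.2 := by
    rw [continuous_prod_of_discrete_right]
    intro b
    exact continuous_apply b
  exact h1.comp (hh.prodMk hw)

private lemma sat_cont2 {β : Type} [TopologicalSpace β] (h : β → ℕ → ℕ)
    (w : β → ℕ) (hh : Continuous h) (hw : Continuous w) :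
    Continuous fun b => h b (w b) := by
  have h1 : Continuous fun p : (ℕ → ℕ) × ℕ => p.1 p.2 := by
    rw [continuous_prod_of_discrete_right]
    intro b
    exact continuous_apply b
  exact h1.comp (hh.prodMk hw)

theorem t_SAT : S_SAT := by
  intro a D hD
  rw [MeasureTheory.analyticSet_iff_exists_polishSpace_range] at hD
  obtain ⟨β, tβ, pβ, h, hc, rfl⟩ := hD
  let Z : Type := (β × (ℕ → ℕ) × (ℕ → ℕ)) × US a
  let S : Set Z := {z | (∀ n, z.1.2.1 (z.1.2.2 n) = n) ∧ (∀ n, z.1.2.2 (z.1.2.1 n) = n) ∧
    (∀ (i : ℕ) (v : Fin (a i) → ℕ), z.2.1 i (fun j => z.1.2.1 (v j)) = (h z.1.1).1 i v) ∧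
    ∀ i u, z.2.2 i (z.1.2.1 u) = (h z.1.1).2 i u}
  have cb : Continuous fun z : Z => h z.1.1 := hc.comp (continuous_fst.comp continuous_fst)
  have cf : Continuous fun z : Z => z.1.2.1 :=
    continuous_fst.comp (continuous_snd.comp continuous_fst)
  have cg : Continuous fun z : Z => z.1.2.2 :=
    continuous_snd.comp (continuous_snd.comp continuous_fst)
  have cy : Continuous fun z : Z => z.2 := continuous_snd
  have hS : IsClosed S := by
    refine IsClosed.and ?_ (IsClosed.and ?_ (IsClosed.and ?_ ?_))
    · rw [ofPred_forall]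
      refine isClosed_iInter fun n => ?_
      exact isClosed_eq (sat_cont2 _ _ cf ((continuous_apply n).comp cg)) continuous_const
    · rw [ofPred_forall]
      refine isClosed_iInter fun n => ?_
      exact isClosed_eq (sat_cont2 _ _ cg ((continuous_apply n).comp cf)) continuous_const
    · rw [ofPred_forall]
      refine isClosed_iInter fun i => ?_
      rw [ofPred_forall]
      refine isClosed_iInter fun v => ?_
      refine isClosed_eq (sat_cont (a i) (fun z : Z => z.2.1 i)
        (fun z : Z => fun j => z.1.2.1 (v j)) ?_ ?_) ?_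
      · exact (continuous_apply i).comp (continuous_fst.comp cy)
      · exact continuous_pi fun j => (continuous_apply (v j)).comp cf
      · exact (continuous_apply v).comp ((continuous_apply i).comp (continuous_fst.comp cb))
    · rw [ofPred_forall]
      refine isClosed_iInter fun i => ?_
      rw [ofPred_forall]
      refine isClosed_iInter fun u => ?_
      refine isClosed_eq (sat_cont1 (fun z : Z => z.2.2 i) (fun z : Z => z.1.2.1 u) ?_ ?_) ?_
      · exact (continuous_apply i).comp (continuous_snd.comp cy)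
      · exact (continuous_apply u).comp cf
      · exact (continuous_apply u).comp ((continuous_apply i).comp (continuous_snd.comp cb))
  have hZ : PolishSpace ((β × (ℕ → ℕ) × (ℕ → ℕ)) × US a) := {}
  have hA : AnalyticSet S := hS.analyticSet
  have hI := hA.image_of_continuous cy
  convert hI using 1
  ext y
  constructor
  · rintro ⟨x, ⟨b, rfl⟩, σ, h1, h2⟩
    refine ⟨((b, ⇑σ, ⇑σ.symm), y), ⟨fun n => ?_, fun n => ?_, fun i v => ?_, fun i u => ?_⟩, rfl⟩
    · exact σ.apply_symm_apply n
    · exact σ.symm_apply_apply n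
    · exact h1 i v
    · exact h2 i u
  · rintro ⟨⟨⟨b, f, g⟩, y'⟩, ⟨h1, h2, h3, h4⟩, rfl⟩
    refine ⟨h b, ⟨b, rfl⟩, ⟨f, g, h2, h1⟩, fun i v => h3 i v, fun i u => h4 i u⟩

end Pool.Agent.H533R2.VS
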