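import Pool.Agent.H533R2.VS.Spec4

set_option autoImplicit false

/-! Task UNI: closure under unions. -/

namespace Pool.Agent.H533R2.VS

open Set
open MeasureTheory (AnalyticSet)
open Pool.Agent.H899R2.VP (St Adj PIso BF IsoOn)
open Pool.Agent.H533R2.VO (Glu RS RIso VC Dich put)

private theorem uni_symm {a : ℕ → ℕ} {x y : US a} (h : UIso x y) : UIso y x := by
  obtain ⟨σ, h1, h2⟩ := h
  refine ⟨σ⁻¹, fun i v => ?_, fun i u => ?_⟩
  · rw [← h1 i (⇑σ⁻¹ ∘ v)]
    have e : (⇑σ ∘ ⇑σ⁻¹ ∘ v) = v := by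
      funext j
      simp
    rw [e]
  · rw [← h2 i (σ⁻¹ u)]
    simp

private theorem uni_riso {a : ℕ → ℕ} {x y : US a} (h : UIso x y) : RIso x.1 y.1 := by
  obtain ⟨σ, h1, _⟩ := h
  exact ⟨σ, h1⟩

private theorem uni_polish_of {X : Type*} [TopologicalSpace X] [h1 : SecondCountableTopology X]
    [h2 : TopologicalSpace.IsCompletelyMetrizableSpace X] : PolishSpace X := { h1, h2 with }

private theorem uni_inter {X : Type*} [TopologicalSpace X] [T2Space X] {s t : Set X}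
    (hs : AnalyticSet s) (ht : AnalyticSet t) : AnalyticSet (s ∩ t) := by
  have h : AnalyticSet (⋂ b : Bool, (bif b then s else t)) := by
    refine AnalyticSet.iInter fun b => ?_
    cases b
    · exact ht
    · exact hs
  have e : (⋂ b : Bool, (bif b then s else t)) = s ∩ t := by
    ext x
    simp [Set.mem_iInter, and_comm]
  rwa [e] at h

private theorem uni_part {a : ℕ → ℕ} (V : RS a → Prop) (hV : Coan V) (iV : Inv V)
    (B : Set (US a)) (hB : MeasurableSet B) (hI : ∀ x y, UIso x y → (x ∈ B ↔ y ∈ B)) :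
    AnalyticSet {y : US a | y ∈ B ∧ ¬ V y.1} ∧
      ∀ x y, UIso x y → x ∈ {y : US a | y ∈ B ∧ ¬ V y.1} → y ∈ {y : US a | y ∈ B ∧ ¬ V y.1} := by
  have b1 : BorelSpace ((i : ℕ) → (Fin (a i) → ℕ) → Bool) := inferInstance
  have b2 : BorelSpace (ℕ → ℕ → Bool) := inferInstance
  have s1 : SecondCountableTopology (US a) := inferInstance
  have b3 : BorelSpace (US a) := inferInstance
  have b5 : PolishSpace (US a) := uni_polish_of
  constructor
  · have h1 : AnalyticSet B := hB.analyticSet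
    have h2 : AnalyticSet ((fun y : US a => y.1) ⁻¹' {x : RS a | ¬ V x}) :=
      AnalyticSet.preimage hV continuous_fst
    exact uni_inter h1 h2
  · intro x y hxy hx
    exact ⟨(hI x y hxy).mp hx.1, fun hy => hx.2 (iV _ _ (uni_riso (uni_symm hxy)) hy)⟩

theorem t_UNI (h : S_PSEP) : S_UNI := by
  intro a V W hV hW cV cW iV iW B hB hI hVW
  obtain ⟨aA, inA⟩ := uni_part V cV iV B hB hI
  obtain ⟨aA', inA'⟩ := uni_part W cW iW B hB hI
  have hdis : Disjoint {y : US a | y ∈ B ∧ ¬ V y.1} {y : US a | y ∈ B ∧ ¬ W y.1} := by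
    rw [Set.disjoint_left]
    rintro y ⟨hy, h1⟩ ⟨_, h2⟩
    rcases hVW y hy with h3 | h3
    · exact h1 h3
    · exact h2 h3
  obtain ⟨D, mD, iD, hAD, hDA⟩ := h a _ _ aA aA' inA inA' hdis
  have u1 : UDich (B ∩ D) := by
    refine hW (B ∩ D) (hB.inter mD) ?_ ?_
    · intro x y hxy
      exact and_congr (hI x y hxy) (iD x y hxy)
    · rintro x ⟨hx, hxD⟩
      by_contra hn
      exact (Set.disjoint_left.mp hDA) hxD ⟨hx, hn⟩
  have u2 : UDich (B \ D) := by
    refine hV (B \ D) (hB.diff mD) ?_ ?_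
    · intro x y hxy
      exact and_congr (hI x y hxy) (not_congr (iD x y hxy))
    · rintro x ⟨hx, hxD⟩
      by_contra hn
      exact hxD (hAD ⟨hx, hn⟩)
  rcases u1 with ⟨f1, hf1⟩ | ⟨g, hg1, hg2, hg3⟩
  · rcases u2 with ⟨f2, hf2⟩ | ⟨g, hg1, hg2, hg3⟩
    · refine Or.inl ⟨fun n => if n % 2 = 0 then f1 (n / 2) else f2 (n / 2), ?_⟩
      intro x hx
      by_cases hxD : x ∈ D
      · obtain ⟨n, hn⟩ := hf1 x ⟨hx, hxD⟩
        refine ⟨2 * n, ?_⟩
        have e1 : 2 * n % 2 = 0 := by omega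
        have e2 : 2 * n / 2 = n := by omega
        simp only [e1, e2, if_true]
        exact hn
      · obtain ⟨n, hn⟩ := hf2 x ⟨hx, hxD⟩
        refine ⟨2 * n + 1, ?_⟩
        have e1 : ¬ (2 * n + 1) % 2 = 0 := by omega
        have e2 : (2 * n + 1) / 2 = n := by omega
        simp only [e1, e2, if_false]
        exact hn
    · exact Or.inr ⟨g, hg1, fun c => (hg2 c).1, hg3⟩
  · exact Or.inr ⟨g, hg1, fun c => (hg2 c).1, hg3⟩

end Pool.Agent.H533R2.VS
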