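import Pool.Agent.H533R2.VS.All
import Pool.Agent.H533R2.VS.Spec4
import Pool.Agent.H533R2.VS.PLN
import Pool.Agent.H533R2.VS.SAT
import Pool.Agent.H533R2.VS.PSEP
import Pool.Agent.H533R2.VS.UNI
import Pool.Agent.H533R2.VS.KSP
import Pool.Agent.H533R2.VS.KDE
import Pool.Agent.H533R2.VS.KIS
import Pool.Agent.H533R2.VS.NIS
import Pool.Agent.H533R2.VS.KOS
import Pool.Agent.H533R2.VS.KUNB
import Pool.Agent.H533R2.VS.EXC
import Pool.Agent.H533R2.VS.EXK

set_option autoImplicit false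

/-!
# Vaught's conjecture and generalised sums: all closure theorems together
-/

namespace Pool.Agent.H533R2.VS

open Set
open Pool.Agent.H533R2.VO (RS RIso VC Dich)

theorem vs_ksp : S_KSP := t_KSP

theorem vs_kde : S_KDE := t_KDE

theorem vs_kis : S_KIS := t_KIS

theorem vs_nis : S_NIS := t_NIS

theorem vs_kos : S_KOS := t_KOS

theorem vs_kun : S_KUN := t_KUNB

theorem vs_uni : S_UNI := t_UNI (t_PSEP t_SAT)

theorem vs_exc : S_EXC := t_EXC

theorem vs_exk : S_EXK := t_EXK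

theorem vs_plain_sum : ∀ a : ℕ → ℕ, (∀ i, 0 < a i) → ∀ ε : ℕ, a ε = 2 →
    ∀ (k : ℕ → Bool) (V1 V2 : RS a → Prop), VCu V1 → VC V2 → VC (IsSum ε k V1 V2) :=
  pln_sum vs_sfinal

theorem vs_plain (a : ℕ → ℕ) (V : RS a → Prop) (hV : VCu V) : VC V := by
  intro B hBm hBi hBV
  have hm : MeasurableSet ({y : US a | y.1 ∈ B} ∩ {y : US a | y.2 = fun _ _ => false}) := by
    refine MeasurableSet.inter (continuous_fst.measurable hBm) ?_
    exact (isClosed_eq continuous_snd continuous_const).measurableSet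
  have hinv : ∀ x y : US a, UIso x y →
      (x ∈ ({y : US a | y.1 ∈ B} ∩ {y : US a | y.2 = fun _ _ => false}) ↔
        y ∈ ({y : US a | y.1 ∈ B} ∩ {y : US a | y.2 = fun _ _ => false})) := by
    rintro x y ⟨σ, h1, h2⟩
    have h3 : x.1 ∈ B ↔ y.1 ∈ B := hBi _ _ ⟨σ, h1⟩
    constructor
    · rintro ⟨h4, h5⟩
      refine ⟨h3.1 h4, ?_⟩
      have h5' : x.2 = fun _ _ => false := h5
      show y.2 = _
      funext i u
      have h6 := h2 i (σ.symm u)
      rw [σ.apply_symm_apply, h5'] at h6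
      exact h6
    · rintro ⟨h4, h5⟩
      refine ⟨h3.2 h4, ?_⟩
      have h5' : y.2 = fun _ _ => false := h5
      show x.2 = _
      funext i u
      have h6 := h2 i u
      rw [h5'] at h6
      exact h6.symm
  rcases hV ({y : US a | y.1 ∈ B} ∩ {y : US a | y.2 = fun _ _ => false}) hm hinv
    (fun y hy => hBV _ hy.1) with ⟨f, hf⟩ | ⟨g, g1, g2, g3⟩
  · left
    refine ⟨fun n => (f n).1, fun x hx => ?_⟩
    obtain ⟨n, σ, h1, -⟩ := hf (x, fun _ _ => false) ⟨hx, rfl⟩
    exact ⟨n, σ, h1⟩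
  · right
    refine ⟨fun c => (g c).1, continuous_fst.comp g1, fun c => (g2 c).1, ?_⟩
    rintro c d ⟨σ, h1⟩
    refine g3 c d ⟨σ, h1, fun i u => ?_⟩
    have h2 : (g c).2 = fun _ _ => false := (g2 c).2
    have h3 : (g d).2 = fun _ _ => false := (g2 d).2
    rw [h2, h3]

end Pool.Agent.H533R2.VS
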