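import Pool.Agent.H533R2.VS.Spec
import Pool.Agent.H533R2.VD.All

set_option autoImplicit false

namespace Pool.Agent.H533R2.VS

open Set
open Pool.Agent.H899R2.VP (St Adj PIso BF IsoOn idOn inv comp zipSet)
open Pool.Agent.H533R2.VO (Glu RS RIso VC Dich put)
open Pool.Agent.H533R2.VD (R2 Dec ce RIso2 S_FINAL3)

/-- All relations are binary. -/
abbrev cduA : ℕ → ℕ := fun _ => 2

/-- Encode predicates as diagonal relations. -/
def cduE (p : US cduA) : R2 := fun i u v =>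
  if i % 2 = 0 then p.1 (i / 2) ![u, v] else decide (u = v) && p.2 (i / 2) u

/-- Decode. -/
def cduD (z : R2) : US cduA :=
  (fun i t => z (2 * i) (t 0) (t 1), fun i u => z (2 * i + 1) u u)

lemma cdu_vec (t : Fin 2 → ℕ) : ![t 0, t 1] = t := by
  funext j
  fin_cases j <;> rfl

lemma cdu_vec2 (σ : ℕ → ℕ) (u v : ℕ) : ![σ u, σ v] = σ ∘ ![u, v] := by
  funext j
  fin_cases j <;> rfl

lemma cduD_E (p : US cduA) : cduD (cduE p) = p := by
  refine Prod.ext ?_ ?_
  · funext i t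
    have h1 : (2 * i) % 2 = 0 := by omega
    have h2 : (2 * i) / 2 = i := by omega
    show (if (2 * i) % 2 = 0 then p.1 ((2 * i) / 2) ![t 0, t 1] else _) = p.1 i t
    rw [if_pos h1, h2, cdu_vec]
  · funext i u
    have h1 : ¬ (2 * i + 1) % 2 = 0 := by omega
    have h2 : (2 * i + 1) / 2 = i := by omega
    show (if (2 * i + 1) % 2 = 0 then _ else decide (u = u) && p.2 ((2 * i + 1) / 2) u) = p.2 i u
    rw [if_neg h1, h2]
    simp

lemma cdu_DI {z z' : R2} (h : RIso2 z z') : UIso (cduD z) (cduD z') := by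
  obtain ⟨σ, hσ⟩ := h
  refine ⟨σ, fun i v => ?_, fun i u => ?_⟩
  · exact hσ (2 * i) (v 0) (v 1)
  · exact hσ (2 * i + 1) u u

lemma cdu_EI_aux (σ : Equiv.Perm ℕ) {x y : US cduA}
    (h1 : ∀ (i : ℕ) (v : Fin (cduA i) → ℕ), y.1 i (⇑σ ∘ v) = x.1 i v)
    (h2 : ∀ i u, y.2 i (σ u) = x.2 i u) (i u v : ℕ) :
    cduE y i (σ u) (σ v) = cduE x i u v := by
  unfold cduE
  by_cases hi : i % 2 = 0
  · rw [if_pos hi, if_pos hi, cdu_vec2 σ u v]
    exact h1 (i / 2) ![u, v]
  · rw [if_neg hi, if_neg hi, h2]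
    congr 1
    simp

lemma cdu_EI {x y : US cduA} (h : UIso x y) : RIso2 (cduE x) (cduE y) := by
  obtain ⟨σ, h1, h2⟩ := h
  exact ⟨σ, fun i u v => cdu_EI_aux σ h1 h2 i u v⟩

lemma cdu_symm {x y : US cduA} (h : UIso x y) : UIso y x := by
  obtain ⟨σ, h1, h2⟩ := h
  refine ⟨σ.symm, fun i v => ?_, fun i u => ?_⟩
  · have h3 := h1 i (⇑σ.symm ∘ v)
    rw [← Function.comp_assoc, Equiv.self_comp_symm, Function.id_comp] at h3
    exact h3.symm
  · have h3 := h2 i (σ.symm u)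
    rw [Equiv.apply_symm_apply] at h3
    exact h3.symm

lemma cdu_Dcont : Continuous cduD := by
  unfold cduD
  fun_prop

lemma cdu_Dmeas : Measurable cduD := by
  unfold cduD
  fun_prop

lemma cdu_Emeas (i u v : ℕ) : Measurable fun z : R2 => cduE (cduD z) i u v := by
  unfold cduE cduD
  by_cases hi : i % 2 = 0
  · simp only [hi, if_true]
    fun_prop
  · simp only [hi, if_false]
    by_cases huv : u = v
    · simp only [huv, decide_true, Bool.true_and]
      fun_prop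
    · simp only [huv, decide_false, Bool.false_and]
      fun_prop

/-- The coded class. -/
def cduB (B : Set (US cduA)) : Set R2 := {z | cduD z ∈ B ∧ cduE (cduD z) = z}

lemma cduB_meas {B : Set (US cduA)} (hB : MeasurableSet B) : MeasurableSet (cduB B) := by
  have h1 : MeasurableSet {z : R2 | cduD z ∈ B} := cdu_Dmeas hB
  have h2 : {z : R2 | cduE (cduD z) = z} =
      ⋂ i : ℕ, ⋂ u : ℕ, ⋂ v : ℕ, {z : R2 | cduE (cduD z) i u v = z i u v} := by
    ext z
    simp only [mem_ofPred_eq, mem_iInter]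
    constructor
    · intro h i u v
      rw [h]
    · intro h
      funext i u v
      exact h i u v
  have h3 : MeasurableSet {z : R2 | cduE (cduD z) = z} := by
    rw [h2]
    refine MeasurableSet.iInter fun i => MeasurableSet.iInter fun u =>
      MeasurableSet.iInter fun v => ?_
    exact measurableSet_eq_fun (cdu_Emeas i u v) (by fun_prop)
  exact h1.inter h3

lemma cduB_inv1 {B : Set (US cduA)} (hB : ∀ x y, UIso x y → (x ∈ B ↔ y ∈ B)) {z z' : R2}
    (h : RIso2 z z') (hz : z ∈ cduB B) : z' ∈ cduB B := by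
  have h1 := cdu_DI h
  refine ⟨(hB _ _ h1).1 hz.1, ?_⟩
  obtain ⟨σ, hσ⟩ := h
  funext i u v
  obtain ⟨u, rfl⟩ := σ.surjective u
  obtain ⟨v, rfl⟩ := σ.surjective v
  rw [cdu_EI_aux σ (x := cduD z) (y := cduD z') (fun i v => hσ (2 * i) (v 0) (v 1))
    (fun i u => hσ (2 * i + 1) u u), hz.2, hσ]

lemma cdu_symm2 {z z' : R2} (h : RIso2 z z') : RIso2 z' z := by
  obtain ⟨σ, hσ⟩ := h
  refine ⟨σ.symm, fun i u v => ?_⟩
  have h1 := hσ i (σ.symm u) (σ.symm v)
  simp only [Equiv.apply_symm_apply] at h1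
  exact h1.symm

lemma cduB_dec {B : Set (US cduA)}
    (hB : ∀ x ∈ B, Dec fun i u v => x.1 i ![u, v]) : ∀ z ∈ cduB B, Dec z := by
  intro z hz F hF
  obtain ⟨X, h1, h2, h3, h4⟩ := hB _ hz.1 F hF
  refine ⟨X, h1, h2, h3, fun u hu v hv w hw hwX i => ?_⟩
  have huw : u ≠ w := fun h => hwX (h ▸ hu)
  have hvw : v ≠ w := fun h => hwX (h ▸ hv)
  by_cases hi : i % 2 = 0
  · have h5 := h4 u hu v hv w hw hwX (i / 2)
    have h6 : 2 * (i / 2) = i := by omega
    have h7 : ∀ p q, (cduD z).1 (i / 2) ![p, q] = z i p q := by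
      intro p q
      show z (2 * (i / 2)) (![p, q] 0) (![p, q] 1) = z i p q
      rw [h6]
      rfl
    simp only [h7] at h5
    exact h5
  · have h5 : ∀ p q, p ≠ q → z i p q = false := by
      intro p q hpq
      rw [← hz.2]
      unfold cduE
      rw [if_neg hi]
      simp [hpq]
    exact ⟨by rw [h5 u w huw, h5 v w hvw], by rw [h5 w u huw.symm, h5 w v hvw.symm]⟩

lemma cdu_VCu (h0 : S_FINAL3) : VCu (fun x : RS (fun _ => 2) => Dec fun i u v => x i ![u, v]) := by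
  intro B hBm hBi hBV
  have hc := h0 (cduB B) (cduB_meas hBm)
    (fun x y h => ⟨cduB_inv1 hBi h, cduB_inv1 hBi (cdu_symm2 h)⟩) (cduB_dec hBV)
  rcases hc with ⟨f, hf⟩ | ⟨g, hg1, hg2, hg3⟩
  · left
    refine ⟨fun n => cduD (f n), fun x hx => ?_⟩
    obtain ⟨n, hn⟩ := hf (cduE x) ⟨by rw [cduD_E]; exact hx, by rw [cduD_E]⟩
    refine ⟨n, ?_⟩
    have h1 := cdu_DI hn
    rwa [cduD_E] at h1
  · right
    refine ⟨fun c => cduD (g c), cdu_Dcont.comp hg1, fun c => (hg2 c).1, fun c d h => ?_⟩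
    have h1 := cdu_EI h
    rw [(hg2 c).2, (hg2 d).2] at h1
    exact hg3 c d h1

/-- Decode without predicates. -/
def cduD' (z : R2) : RS cduA := fun i t => z i (t 0) (t 1)

/-- Encode without predicates. -/
def cduE' (x : RS cduA) : R2 := fun i u v => x i ![u, v]

lemma cduD_E' (x : RS cduA) : cduD' (cduE' x) = x := by
  funext i t
  show x i ![t 0, t 1] = x i t
  rw [cdu_vec]

lemma cduE_D' (z : R2) : cduE' (cduD' z) = z := rfl

lemma cdu_DI' {z z' : R2} (h : RIso2 z z') : RIso (cduD' z) (cduD' z') := by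
  obtain ⟨σ, hσ⟩ := h
  exact ⟨σ, fun i v => hσ i (v 0) (v 1)⟩

lemma cdu_EI' {x y : RS cduA} (h : RIso x y) : RIso2 (cduE' x) (cduE' y) := by
  obtain ⟨σ, hσ⟩ := h
  refine ⟨σ, fun i u v => ?_⟩
  show y i ![σ u, σ v] = x i ![u, v]
  rw [cdu_vec2 σ u v]
  exact hσ i ![u, v]

lemma cdu_VC (h0 : S_FINAL3) : VC (fun x : RS (fun _ => 2) => Dec fun i u v => x i ![u, v]) := by
  intro B hBm hBi hBV
  have hDc : Continuous cduD' := by
    unfold cduD'
    fun_prop
  have hDm : Measurable cduD' := by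
    unfold cduD'
    fun_prop
  have hc := h0 {z | cduD' z ∈ B} (hDm hBm) (fun x y h => hBi _ _ (cdu_DI' h))
    (fun z hz => hBV _ hz)
  rcases hc with ⟨f, hf⟩ | ⟨g, hg1, hg2, hg3⟩
  · left
    refine ⟨fun n => cduD' (f n), fun x hx => ?_⟩
    obtain ⟨n, hn⟩ := hf (cduE' x) (by show cduD' (cduE' x) ∈ B; rw [cduD_E']; exact hx)
    refine ⟨n, ?_⟩
    have h1 := cdu_DI' hn
    rwa [cduD_E'] at h1
  · right
    refine ⟨fun c => cduD' (g c), hDc.comp hg1, fun c => hg2 c, fun c d h => ?_⟩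
    exact hg3 c d (cdu_EI' h)

theorem cdu_of (h0 : S_FINAL3) : S_CDU := ⟨cdu_VCu h0, cdu_VC h0⟩

theorem t_CDU : S_CDU := cdu_of Pool.Agent.H533R2.VD.final3

end Pool.Agent.H533R2.VS
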