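import Pool.Agent.H533R2.VS.Spec2

set_option autoImplicit false

/-! Task CL1 (helper479). -/

namespace Pool.Agent.H533R2.VS

open Set
open Pool.Agent.H899R2.VP (St)
open Pool.Agent.H533R2.VO (Glu RS RIso VC Dich put)

theorem t_CL1 (h : S_CMB) : S_CL1 := by
  intro a V hV B hB hinv hBV
  obtain ⟨h1, h2, -, -, h5, h6⟩ := h a
  have hiso : ∀ x y : US a, UIso x y → (x ∈ (fun y : US a => cmb y.1 y.2) ⁻¹' B ↔
      y ∈ (fun y : US a => cmb y.1 y.2) ⁻¹' B) := by
    intro x y hxy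
    exact hinv _ _ ((h6 x y).2 hxy)
  have hmeas : MeasurableSet ((fun y : US a => cmb y.1 y.2) ⁻¹' B) := h5.measurable hB
  have hv : ∀ x ∈ (fun y : US a => cmb y.1 y.2) ⁻¹' B, V x.1 := by
    intro x hx
    have := hBV _ hx
    simp only [(h1 x.1 x.2).1] at this
    exact this
  rcases hV _ hmeas hiso hv with ⟨f, hf⟩ | ⟨g, hg, hgB, hgi⟩
  · left
    refine ⟨fun n => cmb (f n).1 (f n).2, fun R hR => ?_⟩
    have hR' : ((evn R, odd R) : US a) ∈ (fun y : US a => cmb y.1 y.2) ⁻¹' B := by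
      show cmb (evn R) (odd R) ∈ B
      rw [h2]; exact hR
    obtain ⟨n, hn⟩ := hf _ hR'
    refine ⟨n, ?_⟩
    have := (h6 (f n) (evn R, odd R)).2 hn
    simp only [h2] at this
    exact this
  · right
    refine ⟨fun c => cmb (g c).1 (g c).2, h5.comp hg, fun c => hgB c, fun c d hcd => ?_⟩
    exact hgi c d ((h6 (g c) (g d)).1 hcd)

end Pool.Agent.H533R2.VS
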