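import Pool.Agent.H533R2.VS.Spec2

set_option autoImplicit false

/-!
# Closure under generalised sums (task CLO, helper121)
-/

namespace Pool.Agent.H533R2.VS

open Set
open Pool.Agent.H899R2.VP (St)
open Pool.Agent.H533R2.VO (RS RIso VC)

/-- the structure with the equivalence relation put back as relation number `ε` -/
def cloPsi {a : ℕ → ℕ} (ε : ℕ) (hε : a ε = 2) (M : St (a1 a)) : US a :=
  (fun i t => if h : i = ε then
      M.1 (t ⟨0, by rw [h, hε]; norm_num⟩) (t ⟨1, by rw [h, hε]; norm_num⟩)
    else evn M.2 i t, odd M.2)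

/-- the structure with the equivalence relation taken out -/
def cloPhi {a : ℕ → ℕ} (ε : ℕ) (y : US a) : St (a1 a) :=
  (fun u v => y.1 ε (p2 u v), cmb (fun i t => if i = ε then false else y.1 i t) y.2)

/-- the kinds of the relations -/
def cloK (k : ℕ → Bool) (n : ℕ) : Bool := if n % 2 = 0 then k (n / 2) else false

theorem cloK_even (k : ℕ → Bool) (i : ℕ) : cloK k (2 * i) = k i := by
  unfold cloK
  rw [if_pos (by omega)]
  congr 1
  omega

theorem cloK_odd (k : ℕ → Bool) (i : ℕ) : cloK k (2 * i + 1) = false := by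
  unfold cloK
  rw [if_neg (by omega)]

theorem clo_eps {a : ℕ → ℕ} (ε : ℕ) (hε : a ε = 2) (M : St (a1 a)) (t : Fin (a ε) → ℕ) :
    (cloPsi ε hε M).1 ε t = M.1 (t ⟨0, by rw [hε]; norm_num⟩) (t ⟨1, by rw [hε]; norm_num⟩) := by
  unfold cloPsi
  simp

theorem clo_ne {a : ℕ → ℕ} (ε : ℕ) (hε : a ε = 2) (M : St (a1 a)) {i : ℕ} (hi : i ≠ ε)
    (t : Fin (a i) → ℕ) : (cloPsi ε hε M).1 i t = evn M.2 i t := by
  unfold cloPsi
  simp only
  rw [dif_neg hi]

theorem clo_p2 {a : ℕ → ℕ} (ε : ℕ) (hε : a ε = 2) (M : St (a1 a)) (u v : ℕ) :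
    (cloPsi ε hε M).1 ε (p2 u v) = M.1 u v := by
  rw [clo_eps]
  simp [p2]

theorem clo_rel_even {a : ℕ → ℕ} (R : RS (a1 a)) (i : ℕ) (t : Fin (a1 a (2 * i)) → ℕ) :
    R (2 * i) t = evn R i (fun j => t (Fin.cast (a1_even a i).symm j)) := rfl

theorem clo_rel_odd {a : ℕ → ℕ} (R : RS (a1 a)) (i : ℕ) (t : Fin (a1 a (2 * i + 1)) → ℕ) :
    R (2 * i + 1) t = odd R i (t ⟨0, a1_odd' a (by omega)⟩) := by
  unfold odd
  congr 1
  funext j
  congr 1
  apply Fin.ext
  have h := j.isLt
  have h1 := a1_odd a i
  show j.val = 0
  omega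

theorem clo_iso {a : ℕ → ℕ} (ε : ℕ) (hε : a ε = 2) {M N : St (a1 a)} {σ : Equiv.Perm ℕ}
    (h1 : ∀ x y, N.1 (σ x) (σ y) = M.1 x y)
    (h2 : ∀ (i : ℕ) (v : Fin (a1 a i) → ℕ), N.2 i (⇑σ ∘ v) = M.2 i v) :
    UIso (cloPsi ε hε M) (cloPsi ε hε N) := by
  refine ⟨σ, fun i v => ?_, fun i u => h2 (2 * i + 1) (fun _ => u)⟩
  by_cases hi : i = ε
  · subst hi
    rw [clo_eps, clo_eps]
    exact h1 _ _
  · rw [clo_ne ε hε N hi, clo_ne ε hε M hi]
    exact h2 (2 * i) (fun j => v (Fin.cast (a1_even a i) j))

theorem clo_cont {a : ℕ → ℕ} (hc : S_CMB) (ε : ℕ) (hε : a ε = 2) :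
    Continuous (cloPsi ε hε : St (a1 a) → US a) := by
  obtain ⟨-, -, h3, h4, -, -⟩ := hc a
  refine Continuous.prodMk ?_ (h4.comp continuous_snd)
  refine continuous_pi fun i => continuous_pi fun t => ?_
  by_cases hi : i = ε
  · simp only [dif_pos hi]
    exact (continuous_apply _).comp ((continuous_apply _).comp continuous_fst)
  · simp only [dif_neg hi]
    exact (continuous_apply t).comp ((continuous_apply i).comp (h3.comp continuous_snd))

theorem clo_psi_phi {a : ℕ → ℕ} (hc : S_CMB) (ε : ℕ) (hε : a ε = 2) (y : US a) :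
    cloPsi ε hε (cloPhi ε y) = y := by
  have h1 := ((hc a).1 (fun i t => if i = ε then false else y.1 i t) y.2)
  refine Prod.ext ?_ h1.2
  funext i t
  by_cases hi : i = ε
  · subst hi
    rw [clo_eps]
    show y.1 i (p2 _ _) = y.1 i t
    refine congrArg (y.1 i) (funext fun j => ?_)
    unfold p2
    split_ifs with h
    · congr 1
      exact Fin.ext h.symm
    · congr 1
      apply Fin.ext
      have := j.isLt
      show 1 = j.val
      omega
  · rw [clo_ne ε hε _ hi]
    show evn (cmb (fun i t => if i = ε then false else y.1 i t) y.2) i t = _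
    rw [h1.1]
    show (if i = ε then false else y.1 i t) = y.1 i t
    rw [if_neg hi]

theorem clo_phi_eps {a : ℕ → ℕ} (ε : ℕ) (y : US a) (t : Fin (a1 a (2 * ε)) → ℕ) :
    (cloPhi ε y).2 (2 * ε) t = false := by
  show cmb (fun i t => if i = ε then false else y.1 i t) y.2 (2 * ε) t = false
  unfold cmb
  rw [dif_pos (by omega : 2 * ε % 2 = 0)]
  show (if 2 * ε / 2 = ε then false else _) = false
  rw [if_pos (by omega)]

theorem t_CLO (h1 : S_SFINAL) (h2 : S_CMB) (h3 : S_CL1) (h4 : S_CL2) : S_CLO := by
  intro a ha ε hε k V1 V2 hV1 hV2 B hB hinv hBS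
  have hmain := h1 (a1 a) (cloK k) (by
    intro i
    by_cases h : i % 2 = 0
    · rw [← a1_even' a h]; exact ha _
    · exact a1_odd' a h) (fun R : RS (a1 a) => V1 (evn R) ∧ odd R = fun _ _ => false)
    (fun R : RS (a1 a) => V2 (evn R)) (h4 a V1 hV1) (h3 a V2 hV2)
    {M : St (a1 a) | cloPsi ε hε M ∈ B ∧ ∀ t, M.2 (2 * ε) t = false} (by
      apply MeasurableSet.inter
      · exact (clo_cont h2 ε hε).measurable hB
      · have e : {M : St (a1 a) | ∀ t, M.2 (2 * ε) t = false} =
            ⋂ t, {M : St (a1 a) | M.2 (2 * ε) t = false} := by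
          ext M; simp
        show MeasurableSet {M : St (a1 a) | ∀ t, M.2 (2 * ε) t = false}
        rw [e]
        apply IsClosed.measurableSet
        apply isClosed_iInter
        intro t
        exact isClosed_eq ((continuous_apply t).comp ((continuous_apply (2 * ε)).comp
          continuous_snd)) continuous_const) (by
      intro M N σ hs1 hs2
      have hi := hinv _ _ (clo_iso ε hε hs1 hs2)
      constructor
      · rintro ⟨hm1, hm2⟩
        refine ⟨hi.1 hm1, fun t => ?_⟩
        have := hs2 (2 * ε) (fun j => σ.symm (t j))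
        rw [hm2] at this
        rw [← this]
        refine congrArg (N.2 (2 * ε)) (funext fun j => ?_)
        simp
      · rintro ⟨hm1, hm2⟩
        refine ⟨hi.2 hm1, fun t => ?_⟩
        rw [← hs2, hm2]) (by
      rintro M ⟨hMB, hM0⟩
      have hS := hBS _ hMB
      have hp : ∀ u v, (cloPsi ε hε M).1 ε (p2 u v) = M.1 u v := clo_p2 ε hε M
      refine ⟨⟨?_, ?_, ?_, ?_, ?_⟩, ?_, ?_⟩
      · intro x; rw [← hp]; exact hS.refl x
      · intro x y h; rw [← hp] at h ⊢; exact hS.symm x y h
      · intro x y z h h'; rw [← hp] at h h' ⊢; exact hS.trans x y z h h'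
      · intro n hk t ht j l
        obtain ⟨i, hi | hi⟩ := Nat.even_or_odd' n
        · subst hi
          rw [cloK_even] at hk
          by_cases hie : i = ε
          · subst hie
            rw [hM0] at ht
            exact absurd ht (by simp)
          · have ht' : (cloPsi ε hε M).1 i (fun j => t (Fin.cast (a1_even a i).symm j)) = true := by
              rw [clo_ne ε hε M hie, ← clo_rel_even]
              exact ht
            have h5 := hS.inside i hie hk _ ht' (Fin.cast (a1_even a i) j) (Fin.cast (a1_even a i) l)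
            rw [hp] at h5
            exact h5
        · subst hi
          have hjl : j = l := by
            apply Fin.ext
            have h5 := j.isLt
            have h6 := l.isLt
            have h7 := a1_odd a i
            omega
          rw [hjl, ← hp]
          exact hS.refl _
      · intro n hk t t' ht
        obtain ⟨i, hi | hi⟩ := Nat.even_or_odd' n
        · subst hi
          rw [cloK_even] at hk
          by_cases hie : i = ε
          · subst hie
            rw [hM0, hM0]
          · rw [clo_rel_even M.2 i t, clo_rel_even M.2 i t', ← clo_ne ε hε M hie,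
              ← clo_ne ε hε M hie]
            apply hS.across i hie hk
            intro j
            rw [hp]
            exact ht _
        · subst hi
          rw [cloK_odd] at hk
          exact absurd hk (by simp)
      · intro x e he hz
        have h5 := hS.blocks x e he (by intro z; rw [hp]; exact hz z)
        have h6 : (fun (i : ℕ) (v : Fin (a i) → ℕ) => if i ≠ ε ∧ k i = false then
            (cloPsi ε hε M).1 i (e ∘ v) else false) =
            evn (rst (cloK k) false fun i v => M.2 i (e ∘ v)) := by
          funext i v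
          show _ = if cloK k (2 * i) = false then
            M.2 (2 * i) (e ∘ fun j => v (Fin.cast (a1_even a i) j)) else false
          rw [cloK_even]
          by_cases hk : k i = false
          · rw [if_pos hk]
            by_cases hie : i = ε
            · rw [if_neg (fun h => h.1 hie)]
              subst hie
              rw [hM0]
            · rw [if_pos ⟨hie, hk⟩, clo_ne ε hε M hie]
              rfl
          · rw [if_neg hk, if_neg (fun h => hk h.2)]
        show V2 (evn (rst (cloK k) false fun i v => M.2 i (e ∘ v)))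
        rw [← h6]
        exact h5
      · intro e he hz
        have h5 := hS.index e (by intro m n; rw [hp]; exact he m n)
          (by
            intro z
            obtain ⟨n, hn⟩ := hz z
            exact ⟨n, by rw [hp]; exact hn⟩)
        have h6 : (fun (i : ℕ) (v : Fin (a i) → ℕ) => if i ≠ ε ∧ k i = true then
            (cloPsi ε hε M).1 i (e ∘ v) else false) =
            evn (rst (cloK k) true fun i v => M.2 i (e ∘ v)) := by
          funext i v
          show _ = if cloK k (2 * i) = true then
            M.2 (2 * i) (e ∘ fun j => v (Fin.cast (a1_even a i) j)) else false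
          rw [cloK_even]
          by_cases hk : k i = true
          · rw [if_pos hk]
            by_cases hie : i = ε
            · rw [if_neg (fun h => h.1 hie)]
              subst hie
              rw [hM0]
            · rw [if_pos ⟨hie, hk⟩, clo_ne ε hε M hie]
              rfl
          · rw [if_neg hk, if_neg (fun h => hk h.2)]
        refine ⟨?_, ?_⟩
        · show V1 (evn (rst (cloK k) true fun i v => M.2 i (e ∘ v)))
          rw [← h6]
          exact h5
        · funext i u
          show (if cloK k (2 * i + 1) = true then M.2 (2 * i + 1) (e ∘ fun _ => u) else false) =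
            false
          rw [cloK_odd]
          simp)
  rcases hmain with ⟨f, hf⟩ | ⟨g, hg, hgB, hgi⟩
  · left
    refine ⟨fun n => cloPsi ε hε (f n), fun y hy => ?_⟩
    obtain ⟨n, σ, hs1, hs2⟩ := hf (cloPhi ε y) ⟨by rw [clo_psi_phi h2]; exact hy, clo_phi_eps ε y⟩
    refine ⟨n, ?_⟩
    have h5 := clo_iso ε hε hs1 hs2
    rw [clo_psi_phi h2] at h5
    exact h5
  · right
    refine ⟨fun c => cloPsi ε hε (g c), (clo_cont h2 ε hε).comp hg, fun c => (hgB c).1, ?_⟩
    rintro c d ⟨σ, hs1, hs2⟩
    apply hgi c d
    refine ⟨σ, fun x y => ?_, fun n v => ?_⟩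
    · rw [← clo_p2 ε hε (g d), ← clo_p2 ε hε (g c), ← hs1 ε (p2 x y)]
      refine congrArg ((cloPsi ε hε (g d)).1 ε) (funext fun j => ?_)
      unfold p2
      show (if j.val = 0 then σ x else σ y) = σ (if j.val = 0 then x else y)
      split_ifs <;> rfl
    · obtain ⟨i, hi | hi⟩ := Nat.even_or_odd' n
      · subst hi
        by_cases hie : i = ε
        · subst hie
          rw [(hgB d).2, (hgB c).2]
        · rw [clo_rel_even (g d).2 i, clo_rel_even (g c).2 i, ← clo_ne ε hε (g d) hie,
            ← clo_ne ε hε (g c) hie]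
          exact hs1 i (fun j => v (Fin.cast (a1_even a i).symm j))
      · subst hi
        rw [clo_rel_odd (g d).2 i, clo_rel_odd (g c).2 i]
        exact hs2 i _

end Pool.Agent.H533R2.VS
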