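import Pool.Agent.H533R2.VS.Spec

set_option autoImplicit false

/-!
# Finitely or infinitely many blocks
-/

namespace Pool.Agent.H533R2.VS

open Set
open Pool.Agent.H899R2.VP (St Adj PIso BF IsoOn idOn inv comp zipSet gaifman HasCliqueSubdivision)
open Pool.Agent.H533R2.VO (Glu RS RIso VC Dich put)

theorem t_EFINB : S_EFIN := by
  classical
  intro a k M h
  let R : Set ℕ := {x | ∀ z, z < x → M.1 z x = false}
  have h1 : ∀ z, ∃ x ∈ R, M.1 x z = true := by
    intro z
    have hex : ∃ w, M.1 w z = true := ⟨z, h.refl z⟩
    refine ⟨Nat.find hex, ?_, Nat.find_spec hex⟩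
    intro w hw
    by_contra hc
    have hc' : M.1 w (Nat.find hex) = true := by
      simpa using hc
    exact Nat.find_min hex hw (h.trans _ _ _ hc' (Nat.find_spec hex))
  have h2 : ∀ x ∈ R, ∀ y ∈ R, M.1 x y = true → x = y := by
    intro x hx y hy hxy
    rcases lt_trichotomy x y with hlt | heq | hlt
    · have h3 := hy x hlt
      rw [h3] at hxy
      exact absurd hxy (by simp)
    · exact heq
    · have h3 := hx y hlt
      rw [h.symm _ _ hxy] at h3
      exact absurd h3 (by simp)
  by_cases hR : R.Infinite
  · left
    refine ⟨fun n => Nat.nth (· ∈ R) n, ?_, ?_⟩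
    · intro m n
      constructor
      · intro hmn
        exact Nat.nth_injective hR (h2 _ (Nat.nth_mem_of_infinite hR m) _
          (Nat.nth_mem_of_infinite hR n) hmn)
      · rintro rfl
        exact h.refl _
    · intro z
      obtain ⟨x, hx, hxz⟩ := h1 z
      refine ⟨Nat.count (· ∈ R) x, ?_⟩
      show M.1 (Nat.nth (· ∈ R) (Nat.count (· ∈ R) x)) z = true
      rw [Nat.nth_count hx]
      exact hxz
  · right
    have hf : R.Finite := Set.not_infinite.1 hR
    refine ⟨hf.toFinset.toList, ?_, ?_⟩
    · refine List.Nodup.pairwise_of_forall_ne (Finset.nodup_toList _) ?_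
      intro x hx y hy hne
      have hx' : x ∈ R := by simpa using hx
      have hy' : y ∈ R := by simpa using hy
      by_contra hc
      have hc' : M.1 x y = true := by simpa using hc
      exact hne (h2 x hx' y hy' hc')
    · intro z
      obtain ⟨x, hx, hxz⟩ := h1 z
      exact ⟨x, by simpa using hx, hxz⟩

end Pool.Agent.H533R2.VS
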