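import Pool.Agent.H533R2.VS.Spec4

set_option autoImplicit false

namespace Pool.Agent.H533R2.VS

open Set
open MeasureTheory (AnalyticSet)
open Pool.Agent.H899R2.VP
open Pool.Agent.H533R2.VO (Glu RIso VC Dich put)

theorem t_KUN : S_KUN := by
  intro a V W hV hW hiV hiW
  refine ⟨?_, ?_⟩
  · have h1 : {x : VO.RS a | ¬ (V x ∨ W x)} = ⋂ b : Bool, (if b then {x | ¬ V x} else {x | ¬ W x}) := by
      ext x
      simp only [mem_iInter, Bool.forall_bool, mem_setOf_eq]
      simp only [Bool.false_eq_true, if_false, if_true, mem_setOf_eq]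
      tauto
    unfold Coan
    rw [h1]
    refine AnalyticSet.iInter fun b => ?_
    cases b
    · unfold Coan at hW
      simpa using hW
    · unfold Coan at hV
      simpa using hV
  · rintro x y hxy (h | h)
    · exact Or.inl (hiV x y hxy h)
    · exact Or.inr (hiW x y hxy h)

end Pool.Agent.H533R2.VS
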