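import Pool.Agent.H533R2.VS.Spec
import Pool.Agent.H533R2.VO.Lib

set_option autoImplicit false

/-! RPL: replacing a block (helper415). -/

namespace Pool.Agent.H533R2.VS

open Set
open Pool.Agent.H899R2.VP
open Pool.Agent.H533R2.VO (Glu RIso VC Dich put Glu_adj Glu_adj' Glu_rel Glu_rel')

theorem rpl_in {a : ℕ → ℕ} {k : ℕ → Bool} {M : St a} {x : ℕ} (hM : ER k M) {z w : ℕ}
    (hz : z ∈ Bk M x) : M.1 z w = true ↔ w ∈ Bk M x := by
  constructor
  · intro h
    exact hM.trans x z w hz h
  · intro h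
    exact hM.trans z x w (hM.symm x z hz) h

theorem rpl_out {a : ℕ → ℕ} {k : ℕ → Bool} {M : St a} {x : ℕ} (hM : ER k M) {z w : ℕ}
    (hz : z ∈ Bk M x) (hw : w ∉ Bk M x) : M.1 z w = false ∧ M.1 w z = false := by
  constructor
  · rw [← Bool.not_eq_true]
    exact fun h => hw ((rpl_in hM hz).1 h)
  · rw [← Bool.not_eq_true]
    exact fun h => hw ((rpl_in hM hz).1 (hM.symm _ _ h))

/-- the partial isomorphisms -/
theorem rpl_piso {a : ℕ → ℕ} {k : ℕ → Bool} {M T : St a} {x : ℕ} (ha0 : ∀ i, 0 < a i)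
    (hM : ER k M) {p : Set (ℕ × ℕ)} (ha : ∀ w ∈ p, (w.1 ∈ Bk M x ↔ w.2 ∈ Bk M x))
    (ha2 : ∀ w ∈ p, w.1 ∉ Bk M x → w.1 = w.2)
    (hb : PIso M T {w | w ∈ p ∧ w.1 ∈ Bk M x}) :
    PIso M (Glu M (fun _ : Unit => Bk M x) (fun _ => T)) p := by
  have hd : ∀ i j : Unit, i ≠ j → Disjoint ((fun _ : Unit => Bk M x) i)
      ((fun _ : Unit => Bk M x) j) := fun i j h => absurd (Subsingleton.elim i j) h
  refine ⟨?_, ?_, ?_⟩
  · intro u hu v hv
    by_cases h1 : u.1 ∈ Bk M x
    · by_cases h2 : v.1 ∈ Bk M x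
      · exact hb.1 u ⟨hu, h1⟩ v ⟨hv, h2⟩
      · constructor
        · intro e
          exact absurd (e ▸ h1) h2
        · intro e
          exact absurd ((ha v hv).2 (e ▸ (ha u hu).1 h1)) h2
    · by_cases h2 : v.1 ∈ Bk M x
      · constructor
        · intro e
          exact absurd (e ▸ h2) h1
        · intro e
          exact absurd ((ha u hu).2 (e ▸ (ha v hv).1 h2)) h1
      · rw [← ha2 u hu h1, ← ha2 v hv h2]
  · intro u hu v hv
    by_cases hc : u.1 ∈ Bk M x ∧ v.1 ∈ Bk M x
    · have e1 := hb.2.1 u ⟨hu, hc.1⟩ v ⟨hv, hc.2⟩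
      have e2 := Glu_adj (M := M) (J := fun _ : Unit => Bk M x) (T := fun _ => T) hd
        (j := ()) ((ha u hu).1 hc.1) ((ha v hv).1 hc.2)
      rw [e1]
      exact (Bool.eq_iff_iff.2 e2).symm
    · have e2 := Glu_adj' (M := M) (J := fun _ : Unit => Bk M x) (T := fun _ => T) (x := u.2)
        (y := v.2) (fun _ h1 h2 => hc ⟨(ha u hu).2 h1, (ha v hv).2 h2⟩)
      have e3 : (Glu M (fun _ : Unit => Bk M x) (fun _ => T)).1 u.2 v.2 = M.1 u.2 v.2 :=
        Bool.eq_iff_iff.2 e2
      rw [e3]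
      by_cases h1 : u.1 ∈ Bk M x
      · have h2 : v.1 ∉ Bk M x := fun h => hc ⟨h1, h⟩
        rw [(rpl_out hM h1 h2).1,
          (rpl_out hM ((ha u hu).1 h1) (fun h => h2 ((ha v hv).2 h))).1]
      · by_cases h2 : v.1 ∈ Bk M x
        · rw [(rpl_out hM h2 h1).2,
            (rpl_out hM ((ha v hv).1 h2) (fun h => h1 ((ha u hu).2 h))).2]
        · rw [ha2 u hu h1, ha2 v hv h2]
  · intro i t ht
    by_cases hc : ∀ j, (t j).1 ∈ Bk M x
    · have e1 := hb.2.2 i t fun j => ⟨ht j, hc j⟩
      have hi : Nonempty (Fin (a i)) := ⟨⟨0, ha0 i⟩⟩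
      have e2 := Glu_rel (M := M) (J := fun _ : Unit => Bk M x) (T := fun _ => T) hd (j := ()) hi
        (t := fun j => (t j).2) fun j => (ha _ (ht j)).1 (hc j)
      rw [e1]
      exact e2.symm
    · have e2 := Glu_rel' (M := M) (J := fun _ : Unit => Bk M x) (T := fun _ => T)
        (t := fun j => (t j).2) (i := i)
        (fun h1 => hc fun j => (ha _ (ht j)).2 (h1.2.choose_spec j))
      rw [e2]
      by_cases hk : k i = true
      · refine hM.across i hk _ _ fun j => ?_
        by_cases h1 : (t j).1 ∈ Bk M x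
        · exact (rpl_in hM h1).2 ((ha _ (ht j)).1 h1)
        · rw [← ha2 _ (ht j) h1]
          exact hM.refl _
      · have hk' : k i = false := by simpa using hk
        push Not at hc
        obtain ⟨j1, hj1⟩ := hc
        by_cases hc2 : ∃ j0, (t j0).1 ∈ Bk M x
        · obtain ⟨j0, hj0⟩ := hc2
          have e3 : M.2 i (fun j => (t j).1) = false := by
            rw [← Bool.not_eq_true]
            intro h
            have := hM.inside i hk' _ h j0 j1
            rw [(rpl_out hM hj0 hj1).1] at this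
            exact Bool.false_ne_true this
          have e4 : M.2 i (fun j => (t j).2) = false := by
            rw [← Bool.not_eq_true]
            intro h
            have := hM.inside i hk' _ h j0 j1
            rw [(rpl_out hM ((ha _ (ht j0)).1 hj0) (fun h => hj1 ((ha _ (ht j1)).2 h))).1] at this
            exact Bool.false_ne_true this
          rw [e3, e4]
        · push Not at hc2
          have : (fun j => (t j).1) = fun j => (t j).2 := funext fun j => ha2 _ (ht j) (hc2 j)
          rw [this]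

theorem t_RPL : S_RPL := by
  intro a k α M T x ha0 _ hM hT
  have key : ∀ (o : Ordinal.{0}) (p : Set (ℕ × ℕ)),
      (∀ w ∈ p, (w.1 ∈ Bk M x ↔ w.2 ∈ Bk M x)) →
      (∀ w ∈ p, w.1 ∉ Bk M x → w.1 = w.2) →
      BF M T (Bk M x) (Bk M x) o {w | w ∈ p ∧ w.1 ∈ Bk M x} →
      BF M (Glu M (fun _ : Unit => Bk M x) (fun _ => T)) univ univ o p := by
    intro o
    induction o using WellFoundedLT.induction with
    | ind o ih =>
      intro p ha ha2 hb
      have hins : ∀ (c d : ℕ), c ∈ Bk M x →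
          {w | w ∈ insert (c, d) p ∧ w.1 ∈ Bk M x} =
            insert (c, d) {w | w ∈ p ∧ w.1 ∈ Bk M x} := by
        intro c d hj
        ext u
        constructor
        · rintro ⟨hu | hu, hu'⟩
          · exact Or.inl hu
          · exact Or.inr ⟨hu, hu'⟩
        · rintro (hu | hu)
          · refine ⟨Or.inl hu, ?_⟩
            rw [hu]
            exact hj
          · exact ⟨Or.inr hu.1, hu.2⟩
      have hout : ∀ (c d : ℕ), c ∉ Bk M x →
          {w | w ∈ insert (c, d) p ∧ w.1 ∈ Bk M x} = {w | w ∈ p ∧ w.1 ∈ Bk M x} := by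
        intro c d hj
        ext u
        constructor
        · rintro ⟨hu | hu, hu'⟩
          · exfalso
            rw [hu] at hu'
            exact hj hu'
          · exact ⟨hu, hu'⟩
        · exact fun hu => ⟨Or.inr hu.1, hu.2⟩
      have hstep1 : ∀ o' < o, ∀ (c d : ℕ), c ∈ Bk M x → d ∈ Bk M x →
          BF M T (Bk M x) (Bk M x) o' (insert (c, d) {w | w ∈ p ∧ w.1 ∈ Bk M x}) →
          BF M (Glu M (fun _ : Unit => Bk M x) (fun _ => T)) univ univ o' (insert (c, d) p) := by
        intro o' ho' c d hc hd hbf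
        refine ih o' ho' _ ?_ ?_ ?_
        · rintro u (hu | hu)
          · rw [hu]
            exact ⟨fun _ => hd, fun _ => hc⟩
          · exact ha u hu
        · rintro u (hu | hu) h1
          · rw [hu] at h1
            exact absurd hc h1
          · exact ha2 u hu h1
        · rw [hins c d hc]
          exact hbf
      have hstep2 : ∀ o' < o, ∀ c : ℕ, c ∉ Bk M x →
          BF M (Glu M (fun _ : Unit => Bk M x) (fun _ => T)) univ univ o' (insert (c, c) p) := by
        intro o' ho' c hc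
        refine ih o' ho' _ ?_ ?_ ?_
        · rintro u (hu | hu)
          · rw [hu]
          · exact ha u hu
        · rintro u (hu | hu) h1
          · rw [hu]
          · exact ha2 u hu h1
        · rw [hout c c hc]
          exact hb.mono ho'.le
      rw [BF_iff]
      refine ⟨rpl_piso ha0 hM ha ha2 hb.piso, fun o' ho' => ⟨fun c _ => ?_, fun d _ => ?_⟩⟩
      · by_cases hc : c ∈ Bk M x
        · obtain ⟨d, hd, hbf⟩ := hb.forth ho' hc
          exact ⟨d, mem_univ _, hstep1 o' ho' c d hc hd hbf⟩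
        · exact ⟨c, mem_univ _, hstep2 o' ho' c hc⟩
      · by_cases hd : d ∈ Bk M x
        · obtain ⟨c, hc, hbf⟩ := hb.back ho' hd
          exact ⟨c, mem_univ _, hstep1 o' ho' c d hc hd hbf⟩
        · exact ⟨d, mem_univ _, hstep2 o' ho' d hd⟩
  refine key α ∅ (fun w hw => hw.elim) (fun w hw => hw.elim) ?_
  have e : {w : ℕ × ℕ | w ∈ (∅ : Set (ℕ × ℕ)) ∧ w.1 ∈ Bk M x} = ∅ := by
    ext w
    simp
  rw [e]
  exact hT

end Pool.Agent.H533R2.VS
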