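import Pool.Agent.H533R2.VS.Spec

set_option autoImplicit false

/-!
# Closure of the classes satisfying Vaught's conjecture under generalised sums
-/

namespace Pool.Agent.H533R2.VS

open Set
open Pool.Agent.H899R2.VP (St Adj PIso BF IsoOn idOn inv comp zipSet gaifman HasCliqueSubdivision)
open Pool.Agent.H533R2.VO (Glu RS RIso VC Dich put)

/-- The pair `u, v` as a tuple. -/
def p2 {n : ℕ} (u v : ℕ) : Fin n → ℕ := fun j => if j.val = 0 then u else v

/-- `x` is a generalised sum with respect to the equivalence relation number `ε`. -/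
structure IsSum {a : ℕ → ℕ} (ε : ℕ) (k : ℕ → Bool) (V1 V2 : RS a → Prop) (x : RS a) : Prop where
  refl : ∀ u, x ε (p2 u u) = true
  symm : ∀ u v, x ε (p2 u v) = true → x ε (p2 v u) = true
  trans : ∀ u v w, x ε (p2 u v) = true → x ε (p2 v w) = true → x ε (p2 u w) = true
  inside : ∀ i, i ≠ ε → k i = false → ∀ t, x i t = true → ∀ j l, x ε (p2 (t j) (t l)) = true
  across : ∀ i, i ≠ ε → k i = true → ∀ t t' : Fin (a i) → ℕ,
    (∀ j, x ε (p2 (t j) (t' j)) = true) → x i t = x i t'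
  blocks : ∀ (u : ℕ) (e : ℕ → ℕ), Function.Injective e →
    (∀ z, x ε (p2 u z) = true ↔ ∃ n, e n = z) →
    V2 (fun i v => if i ≠ ε ∧ k i = false then x i (e ∘ v) else false)
  index : ∀ e : ℕ → ℕ, (∀ m n, x ε (p2 (e m) (e n)) = true ↔ m = n) →
    (∀ z, ∃ n, x ε (p2 (e n) z) = true) →
    V1 (fun i v => if i ≠ ε ∧ k i = true then x i (e ∘ v) else false)

/-- Arities with additional unary predicates (the odd relations). -/
def a1 (a : ℕ → ℕ) (n : ℕ) : ℕ := if n % 2 = 0 then a (n / 2) else 1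

theorem a1_even (a : ℕ → ℕ) (i : ℕ) : a1 a (2 * i) = a i := by
  unfold a1
  rw [if_pos (by omega)]
  congr 1
  omega

theorem a1_odd (a : ℕ → ℕ) (i : ℕ) : a1 a (2 * i + 1) = 1 := by
  unfold a1
  rw [if_neg (by omega)]

theorem a1_even' (a : ℕ → ℕ) {n : ℕ} (h : n % 2 = 0) : a (n / 2) = a1 a n := by
  unfold a1
  rw [if_pos h]

theorem a1_odd' (a : ℕ → ℕ) {n : ℕ} (h : ¬ n % 2 = 0) : 0 < a1 a n := by
  unfold a1
  rw [if_neg h]
  exact one_pos

/-- The even relations. -/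
def evn {a : ℕ → ℕ} (R : RS (a1 a)) : RS a :=
  fun i v => R (2 * i) (fun j => v (Fin.cast (a1_even a i) j))

/-- The odd relations. -/
def odd {a : ℕ → ℕ} (R : RS (a1 a)) : ℕ → ℕ → Bool := fun i u => R (2 * i + 1) (fun _ => u)

/-- Combination. -/
def cmb {a : ℕ → ℕ} (x : RS a) (U : ℕ → ℕ → Bool) : RS (a1 a) := fun n t =>
  if h : n % 2 = 0 then x (n / 2) (fun j => t (Fin.cast (a1_even' a h) j))
  else U (n / 2) (t ⟨0, a1_odd' a h⟩)

def S_CMB : Prop := ∀ a : ℕ → ℕ,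
  (∀ (x : RS a) (U : ℕ → ℕ → Bool), evn (cmb x U) = x ∧ odd (cmb x U) = U) ∧
  (∀ R : RS (a1 a), cmb (evn R) (odd R) = R) ∧
  Continuous (evn : RS (a1 a) → RS a) ∧ Continuous (odd : RS (a1 a) → ℕ → ℕ → Bool) ∧
  Continuous (fun y : US a => cmb y.1 y.2) ∧
  (∀ x y : US a, RIso (cmb x.1 x.2) (cmb y.1 y.2) ↔ UIso x y)

def S_CL1 : Prop := ∀ (a : ℕ → ℕ) (V : RS a → Prop), VCu V →
  VC (fun R : RS (a1 a) => V (evn R))

def S_CL2 : Prop := ∀ (a : ℕ → ℕ) (V : RS a → Prop), VCu V →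
  VCu (fun R : RS (a1 a) => V (evn R) ∧ odd R = fun _ _ => false)

/-- Closure under generalised sums. -/
def S_CLO : Prop := ∀ a : ℕ → ℕ, (∀ i, 0 < a i) → ∀ ε : ℕ, a ε = 2 → ∀ (k : ℕ → Bool)
  (V1 V2 : RS a → Prop), VCu V1 → VCu V2 → VCu (IsSum ε k V1 V2)

/-- Completely decomposable structures in an arbitrary language: only binary relations. -/
def DecG {a : ℕ → ℕ} (x : RS a) : Prop := (∀ i, a i ≠ 2 → ∀ t, x i t = false) ∧
  VD.Dec fun i u v => if a i = 2 then x i (p2 u v) else false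

def S_CDG : Prop := ∀ a : ℕ → ℕ, VCu (DecG : RS a → Prop)

end Pool.Agent.H533R2.VS
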