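import Pool.Agent.H533R2.VS.Spec2

set_option autoImplicit false

/-!
# Ordered sums in the same framework
-/

namespace Pool.Agent.H533R2.VS

open Set
open Pool.Agent.H899R2.VP (St Adj PIso BF IsoOn idOn inv comp zipSet gaifman HasCliqueSubdivision)
open Pool.Agent.H533R2.VO (Glu RS RIso VC Dich put)

/-- `x` is an ordered sum with respect to the strict weak order number `ε`. -/
structure IsOSum {a : ℕ → ℕ} (ε : ℕ) (V : RS a → Prop) (x : RS a) : Prop where
  irrefl : ∀ u, x ε (p2 u u) = false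
  trans : ∀ u v w, x ε (p2 u v) = true → x ε (p2 v w) = true → x ε (p2 u w) = true
  weak : ∀ u v w, x ε (p2 u w) = true → x ε (p2 u v) = true ∨ x ε (p2 v w) = true
  inside : ∀ i, i ≠ ε → ∀ t, x i t = true → ∀ j l, x ε (p2 (t j) (t l)) = false
  blocks : ∀ (u : ℕ) (e : ℕ → ℕ), Function.Injective e →
    (∀ z, (x ε (p2 z u) = false ∧ x ε (p2 u z) = false) ↔ ∃ n, e n = z) →
    V (fun i v => if i ≠ ε then x i (e ∘ v) else false)

def S_ORD : Prop := ∀ (a : ℕ → ℕ) (ε : ℕ), a ε = 2 → ∀ V : RS a → Prop, VCu V →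
  VCu (IsOSum ε V)

end Pool.Agent.H533R2.VS
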